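import Mathlib

set_option autoImplicit false
open MeasureTheory Filter Topology Set

namespace Pool.Agent.CK

/-- The kernel `log (2/|x-y|)`, infinite on the diagonal. -/
noncomputable def k2 (x y : ℝ) : ENNReal :=
  if x = y then ⊤ else ENNReal.ofReal (Real.log 2 - Real.log |x - y|)

/-- Mutual energy for the kernel `k2`. -/
noncomputable def En (μ ν : Measure ℝ) : ENNReal := ∫⁻ x, ∫⁻ y, k2 x y ∂ν ∂μ

/-- auxiliary measure in the scale variable. -/
noncomputable def rm : Measure ℝ :=
  (ENNReal.ofReal (1/2)) • Measure.dirac 2 +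
    (volume.restrict (Ioo (0:ℝ) 2)).withDensity (fun r => ENNReal.ofReal (1/r^2))

/-- window indicator. -/
noncomputable def win (r x u : ℝ) : ENNReal := if x ≤ u ∧ u ≤ x + r then 1 else 0

lemma measurable_k2 : Measurable (fun q : ℝ × ℝ => k2 q.1 q.2) := by
  unfold k2
  refine Measurable.ite (measurableSet_eq_fun measurable_fst measurable_snd) measurable_const ?_
  fun_prop

lemma win_mul (r x y : ℝ) (u : ℝ) :
    win r x u * win r y u = (Icc (max x y) (min x y + r)).indicator (fun _ => (1:ENNReal)) u := by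
  unfold win
  by_cases h : u ∈ Icc (max x y) (min x y + r)
  · rw [Set.indicator_of_mem h]
    obtain ⟨h1, h2⟩ := h
    have hx : x ≤ u := le_trans (le_max_left _ _) h1
    have hy : y ≤ u := le_trans (le_max_right _ _) h1
    have hx2 : u ≤ x + r := by have := min_le_left x y; linarith
    have hy2 : u ≤ y + r := by have := min_le_right x y; linarith
    simp [hx, hy, hx2, hy2]
  · rw [Set.indicator_of_notMem h]
    by_contra hne
    apply h
    have h1 : (x ≤ u ∧ u ≤ x + r) := by
      by_contra hc; simp [hc] at hne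
    have h2 : (y ≤ u ∧ u ≤ y + r) := by
      by_contra hc; simp [hc] at hne
    refine ⟨max_le h1.1 h2.1, ?_⟩
    rcases min_choice x y with h' | h' <;> rw [h']
    · exact h1.2
    · exact h2.2

lemma lint_win (r x y : ℝ) :
    ∫⁻ u, win r x u * win r y u = ENNReal.ofReal (r - |x - y|) := by
  simp_rw [win_mul]
  rw [lintegral_indicator_const measurableSet_Icc, one_mul, Real.volume_Icc]
  congr 1
  rcases le_total x y with h | h
  · rw [max_eq_right h, min_eq_left h, abs_of_nonpos (by linarith)]; ring
  · rw [max_eq_left h, min_eq_right h, abs_of_nonneg (by linarith)]; ring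

lemma lint_rm (g : ℝ → ENNReal) (hg : Measurable g) :
    ∫⁻ r, g r ∂rm = ENNReal.ofReal (1/2) * g 2 +
      ∫⁻ r in Ioo (0:ℝ) 2, ENNReal.ofReal (1/r^2) * g r := by
  unfold rm
  rw [lintegral_add_measure, lintegral_smul_measure, lintegral_dirac' _ hg,
    lintegral_withDensity_eq_lintegral_mul _ (by fun_prop) hg]
  rfl

lemma lint_inv_top : ∫⁻ r in Ioo (0:ℝ) 2, ENNReal.ofReal (1/r) = ⊤ := by
  by_contra h
  have hfin : ∫⁻ r in Ioo (0:ℝ) 2, ENNReal.ofReal (1/r) < ⊤ := lt_top_iff_ne_top.mpr h
  have hint : IntegrableOn (fun r : ℝ => 1/r) (Ioo (0:ℝ) 2) := by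
    refine ⟨by fun_prop, ?_⟩
    rw [hasFiniteIntegral_iff_ofReal]
    · exact hfin
    · filter_upwards [ae_restrict_mem measurableSet_Ioo] with r hr
      have := hr.1
      positivity
  have h2 : IntervalIntegrable (fun r : ℝ => r⁻¹) volume 0 2 := by
    rw [intervalIntegrable_iff_integrableOn_Ioo_of_le (by norm_num)]
    simpa [one_div] using hint
  rw [intervalIntegrable_inv_iff] at h2
  simp at h2

lemma k2_eq (x y : ℝ) (h : |x - y| ≤ 2) :
    k2 x y = ∫⁻ r, ENNReal.ofReal (r - |x - y|) ∂rm := by
  rw [lint_rm _ (by fun_prop)]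
  unfold k2
  by_cases hxy : x = y
  · simp only [hxy, if_true, sub_self, abs_zero, sub_zero]
    symm
    rw [ENNReal.add_eq_top]
    right
    rw [← lint_inv_top]
    apply setLIntegral_congr_fun measurableSet_Ioo
    intro r hr
    have := hr.1
    simp only
    rw [← ENNReal.ofReal_mul (by positivity)]
    congr 1
    field_simp
  · rw [if_neg hxy]
    set ρ := |x - y| with hρ
    have hρ0 : 0 < ρ := abs_pos.mpr (sub_ne_zero.mpr hxy)
    have key : ∫⁻ r in Ioo (0:ℝ) 2, ENNReal.ofReal (1/r^2) * ENNReal.ofReal (r - ρ)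
        = ENNReal.ofReal (Real.log 2 - Real.log ρ - 1 + ρ/2) := by
      have h1 : ∫⁻ r in Ioo (0:ℝ) 2, ENNReal.ofReal (1/r^2) * ENNReal.ofReal (r - ρ)
          = ∫⁻ r in Ioc ρ 2, ENNReal.ofReal (1/r - ρ * (1/r^2)) := by
        have h2 : ∫⁻ r in Ioc ρ 2, ENNReal.ofReal (1/r - ρ * (1/r^2))
            = ∫⁻ r in Ioo ρ 2, ENNReal.ofReal (1/r - ρ * (1/r^2)) :=
          setLIntegral_congr Ioo_ae_eq_Ioc.symm
        rw [h2, ← lintegral_indicator measurableSet_Ioo, ← lintegral_indicator measurableSet_Ioo]
        apply lintegral_congr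
        intro r
        by_cases hr : r ∈ Ioo ρ 2
        · have hr' : r ∈ Ioo (0:ℝ) 2 := ⟨lt_trans hρ0 hr.1, hr.2⟩
          rw [Set.indicator_of_mem hr, Set.indicator_of_mem hr']
          have := hr'.1
          rw [← ENNReal.ofReal_mul (by positivity)]
          congr 1
          field_simp
        · rw [Set.indicator_of_notMem hr]
          by_cases hr' : r ∈ Ioo (0:ℝ) 2
          · rw [Set.indicator_of_mem hr']
            have : r ≤ ρ := by
              by_contra hc
              exact hr ⟨not_le.mp hc, hr'.2⟩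
            rw [ENNReal.ofReal_of_nonpos (by linarith : r - ρ ≤ 0), mul_zero]
          · rw [Set.indicator_of_notMem hr']
      rw [h1]
      have hcont : ContinuousOn (fun r : ℝ => 1/r - ρ * (1/r^2)) (uIcc ρ 2) := by
        intro r hr
        rw [uIcc_of_le h] at hr
        have hr0 : r ≠ 0 := by have := hr.1; intro h0; rw [h0] at this; linarith
        apply ContinuousAt.continuousWithinAt
        fun_prop (disch := positivity)
      have hint : IntervalIntegrable (fun r : ℝ => 1/r - ρ * (1/r^2)) volume ρ 2 :=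
        hcont.intervalIntegrable
      rw [← ofReal_integral_eq_lintegral_ofReal]
      · congr 1
        rw [← intervalIntegral.integral_of_le h]
        have hderiv : ∀ r ∈ uIcc ρ 2, HasDerivAt (fun r : ℝ => Real.log r + ρ * r⁻¹)
            (1/r - ρ * (1/r^2)) r := by
          intro r hr
          rw [uIcc_of_le h] at hr
          have hr0 : r ≠ 0 := by have := hr.1; intro h0; rw [h0] at this; linarith
          have h1 := (Real.hasDerivAt_log hr0)
          have h2 := (hasDerivAt_inv hr0).const_mul ρ
          refine HasDerivAt.congr_deriv (f' := r⁻¹ + ρ * -(r ^ 2)⁻¹) (h1.add h2) ?_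
          ring
        rw [intervalIntegral.integral_eq_sub_of_hasDerivAt hderiv hint]
        have : ρ * ρ⁻¹ = 1 := mul_inv_cancel₀ hρ0.ne'
        linarith
      · exact (intervalIntegrable_iff_integrableOn_Ioc_of_le h).mp hint
      · filter_upwards [ae_restrict_mem measurableSet_Ioc] with r hr
        have h0 : 0 < r := lt_trans hρ0 hr.1
        have : 1/r - ρ * (1/r^2) = (r - ρ)/r^2 := by field_simp
        rw [this]
        apply div_nonneg (by linarith [hr.1]) (by positivity)
    rw [key, ← ENNReal.ofReal_mul (by norm_num), ← ENNReal.ofReal_add]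
    · congr 1; ring
    · linarith
    · have := Real.add_one_le_exp (Real.log (ρ/2))
      rw [Real.exp_log (by positivity), Real.log_div (by positivity) (by norm_num)] at this
      linarith

/-- window mass -/
noncomputable def W (μ : Measure ℝ) (r u : ℝ) : ENNReal := ∫⁻ x, win r x u ∂μ

lemma measurable_win : Measurable (fun q : ℝ × ℝ × ℝ => win q.1 q.2.1 q.2.2) := by
  unfold win
  refine Measurable.ite ?_ measurable_const measurable_const
  have h1 : MeasurableSet {q : ℝ × ℝ × ℝ | q.2.1 ≤ q.2.2} :=
    measurableSet_le (by fun_prop) (by fun_prop)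
  have h2 : MeasurableSet {q : ℝ × ℝ × ℝ | q.2.2 ≤ q.2.1 + q.1} :=
    measurableSet_le (by fun_prop) (by fun_prop)
  exact h1.inter h2

lemma En_eq (μ ν : Measure ℝ) [IsFiniteMeasure μ] [IsFiniteMeasure ν]
    (hμ : ∀ᵐ x ∂μ, |x| ≤ 1) (hν : ∀ᵐ x ∂ν, |x| ≤ 1) :
    En μ ν = ∫⁻ r, ∫⁻ u, W μ r u * W ν r u ∂volume ∂rm := by
  unfold En
  have h1 : ∫⁻ x, ∫⁻ y, k2 x y ∂ν ∂μ
      = ∫⁻ x, ∫⁻ y, ∫⁻ r, ENNReal.ofReal (r - |x - y|) ∂rm ∂ν ∂μ := by
    apply lintegral_congr_ae
    filter_upwards [hμ] with x hx
    apply lintegral_congr_ae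
    filter_upwards [hν] with y hy
    apply k2_eq
    have := abs_sub x y
    linarith [abs_sub_abs_le_abs_sub x y, abs_sub x y]
  rw [h1]
  have : SFinite rm := by unfold rm; infer_instance
  have h2 : ∀ x, ∫⁻ y, ∫⁻ r, ENNReal.ofReal (r - |x - y|) ∂rm ∂ν
      = ∫⁻ r, ∫⁻ y, ENNReal.ofReal (r - |x - y|) ∂ν ∂rm := by
    intro x
    apply lintegral_lintegral_swap
    apply Measurable.aemeasurable
    unfold Function.uncurry
    fun_prop
  simp_rw [h2]
  rw [lintegral_lintegral_swap]
  · apply lintegral_congr
    intro r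
    have h3 : ∀ x, ∫⁻ y, ENNReal.ofReal (r - |x - y|) ∂ν = ∫⁻ u, win r x u * W ν r u := by
      intro x
      simp_rw [← lint_win]
      rw [lintegral_lintegral_swap]
      · apply lintegral_congr
        intro u
        rw [lintegral_const_mul]
        · rfl
        · exact measurable_win.comp (by fun_prop : Measurable (fun y : ℝ => (r, y, u)))
      · apply Measurable.aemeasurable
        unfold Function.uncurry
        apply Measurable.mul
        · exact measurable_win.comp (by fun_prop : Measurable (fun y : ℝ × ℝ => (r, x, y.2)))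
        · exact measurable_win.comp (by fun_prop : Measurable (fun y : ℝ × ℝ => (r, y.1, y.2)))
    simp_rw [h3]
    have hWm : Measurable (fun u => W ν r u) := by
      unfold W
      have : Measurable (fun q : ℝ × ℝ => win r q.2 q.1) :=
        measurable_win.comp (by fun_prop : Measurable (fun y : ℝ × ℝ => (r, y.2, y.1)))
      exact this.lintegral_prod_right'
    rw [lintegral_lintegral_swap]
    · apply lintegral_congr
      intro u
      rw [lintegral_mul_const]
      · rfl
      · exact measurable_win.comp (by fun_prop : Measurable (fun y : ℝ => (r, y, u)))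
    · apply Measurable.aemeasurable
      unfold Function.uncurry
      apply Measurable.mul
      · exact measurable_win.comp (by fun_prop : Measurable (fun y : ℝ × ℝ => (r, y.1, y.2)))
      · exact hWm.comp measurable_snd
  · apply Measurable.aemeasurable
    unfold Function.uncurry
    have : Measurable (fun q : (ℝ × ℝ) × ℝ => ENNReal.ofReal (q.1.2 - |q.1.1 - q.2|)) := by
      fun_prop
    exact this.lintegral_prod_right'

lemma measurable_W (μ : Measure ℝ) [SFinite μ] : Measurable (fun q : ℝ × ℝ => W μ q.1 q.2) := by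
  unfold W
  have : Measurable (fun q : (ℝ × ℝ) × ℝ => win q.1.1 q.2 q.1.2) :=
    measurable_win.comp (by fun_prop : Measurable (fun y : (ℝ × ℝ) × ℝ => (y.1.1, y.2, y.1.2)))
  exact this.lintegral_prod_right'

end Pool.Agent.CK
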