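import Mathlib
import Pool.Agent.CK.Energy

set_option autoImplicit false
open MeasureTheory Filter Topology Set

namespace Pool.Agent.CK

lemma ennreal_sq_identity (a b : ENNReal) (ha : a ≠ ⊤) (hb : b ≠ ⊤) :
    a * a + b * b = 2 * (a * b) + ((a - b) * (a - b) + (b - a) * (b - a)) := by
  lift a to NNReal using ha
  lift b to NNReal using hb
  rcases le_total a b with h | h
  · obtain ⟨c, rfl⟩ := exists_add_of_le h
    rw [← ENNReal.coe_sub, ← ENNReal.coe_sub]
    have h1 : a - (a + c) = 0 := tsub_eq_zero_of_le (le_add_of_nonneg_right zero_le)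
    have h2 : a + c - a = c := add_tsub_cancel_left a c
    rw [h1, h2]
    norm_cast
    ring
  · obtain ⟨c, rfl⟩ := exists_add_of_le h
    rw [← ENNReal.coe_sub, ← ENNReal.coe_sub]
    have h1 : b - (b + c) = 0 := tsub_eq_zero_of_le (le_add_of_nonneg_right zero_le)
    have h2 : b + c - b = c := add_tsub_cancel_left b c
    rw [h1, h2]
    norm_cast
    ring

lemma W_le (μ : Measure ℝ) [IsProbabilityMeasure μ] (r u : ℝ) : W μ r u ≤ 1 := by
  unfold W
  calc ∫⁻ x, win r x u ∂μ ≤ ∫⁻ x, 1 ∂μ := by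
        apply lintegral_mono
        intro x
        unfold win
        simp only
        split_ifs <;> simp
    _ = 1 := by simp

lemma W_eq (μ : Measure ℝ) (r u : ℝ) : W μ r u = μ (Icc (u - r) u) := by
  unfold W
  rw [← lintegral_indicator_one measurableSet_Icc]
  apply lintegral_congr
  intro x
  unfold win
  by_cases h : x ∈ Icc (u - r) u
  · rw [Set.indicator_of_mem h]
    have : x ≤ u ∧ u ≤ x + r := ⟨h.2, by linarith [h.1]⟩
    simp [this]
  · rw [Set.indicator_of_notMem h]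
    rw [if_neg]
    intro hc
    exact h ⟨by linarith [hc.2], hc.1⟩

lemma En_ineq (μ ν : Measure ℝ) [IsProbabilityMeasure μ] [IsProbabilityMeasure ν]
    (hμ : ∀ᵐ x ∂μ, |x| ≤ 1) (hν : ∀ᵐ x ∂ν, |x| ≤ 1) :
    En μ μ + En ν ν = 2 * En μ ν +
      ∫⁻ r, ∫⁻ u, ((W μ r u - W ν r u) * (W μ r u - W ν r u) +
        (W ν r u - W μ r u) * (W ν r u - W μ r u)) ∂volume ∂rm := by
  rw [En_eq μ μ hμ hμ, En_eq ν ν hν hν, En_eq μ ν hμ hν]
  have mμ := measurable_W μ
  have mν := measurable_W ν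
  have mμr : ∀ r, Measurable (fun u => W μ r u) := fun r =>
    mμ.comp (by fun_prop : Measurable (fun u : ℝ => (r, u)))
  have mνr : ∀ r, Measurable (fun u => W ν r u) := fun r =>
    mν.comp (by fun_prop : Measurable (fun u : ℝ => (r, u)))
  rw [← lintegral_add_left, ← lintegral_const_mul, ← lintegral_add_left]
  · apply lintegral_congr
    intro r
    have m1 : Measurable (fun u => W μ r u * W μ r u) := (mμr r).mul (mμr r)
    have m2 : Measurable (fun u => W μ r u * W ν r u) := (mμr r).mul (mνr r)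
    rw [← lintegral_add_left m1, ← lintegral_const_mul _ m2,
      ← lintegral_add_left (m2.const_mul 2)]
    apply lintegral_congr
    intro u
    apply ennreal_sq_identity
    · exact ne_top_of_le_ne_top ENNReal.one_ne_top (W_le μ r u)
    · exact ne_top_of_le_ne_top ENNReal.one_ne_top (W_le ν r u)
  · exact ((mμ.mul mν).lintegral_prod_right').const_mul 2
  · exact (mμ.mul mν).lintegral_prod_right'
  · exact (mμ.mul mμ).lintegral_prod_right'

lemma En_symm (μ ν : Measure ℝ) [SFinite μ] [SFinite ν] : En μ ν = En ν μ := by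
  unfold En
  rw [lintegral_lintegral_swap measurable_k2.aemeasurable]
  apply lintegral_congr; intro y
  apply lintegral_congr; intro x
  unfold k2
  rw [abs_sub_comm]
  by_cases h : x = y
  · simp [h]
  · rw [if_neg h, if_neg (Ne.symm h)]

lemma eq_of_En_le (μ ν : Measure ℝ) [IsProbabilityMeasure μ] [IsProbabilityMeasure ν]
    (hμ : ∀ᵐ x ∂μ, |x| ≤ 1) (hν : ∀ᵐ x ∂ν, |x| ≤ 1)
    (h1 : En μ μ ≠ ⊤) (h2 : En ν ν ≠ ⊤) (h : En μ μ + En ν ν ≤ 2 * En μ ν) : μ = ν := by
  have hid := En_ineq μ ν hμ hν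
  have hsum : En μ μ + En ν ν ≠ ⊤ := ENNReal.add_ne_top.mpr ⟨h1, h2⟩
  set D := ∫⁻ r, ∫⁻ u, ((W μ r u - W ν r u) * (W μ r u - W ν r u) +
        (W ν r u - W μ r u) * (W ν r u - W μ r u)) ∂volume ∂rm with hD
  have hM : 2 * En μ ν ≠ ⊤ := by
    intro hc
    rw [hc] at hid
    simp at hid
    rcases hid with hid | hid
    · exact h1 hid
    · exact h2 hid
  have hD0 : D = 0 := by
    have : 2 * En μ ν + D ≤ 2 * En μ ν + 0 := by rw [add_zero, ← hid]; exact h
    have := (ENNReal.add_le_add_iff_left hM).mp this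
    simpa using this
  have mμ := measurable_W μ
  have mν := measurable_W ν
  have mm : Measurable (fun q : ℝ × ℝ => ((W μ q.1 q.2 - W ν q.1 q.2) * (W μ q.1 q.2 - W ν q.1 q.2) +
        (W ν q.1 q.2 - W μ q.1 q.2) * (W ν q.1 q.2 - W μ q.1 q.2))) := by
    exact ((mμ.sub mν).mul (mμ.sub mν)).add ((mν.sub mμ).mul (mν.sub mμ))
  rw [hD, lintegral_eq_zero_iff mm.lintegral_prod_right'] at hD0
  have hr2 : ∫⁻ u, ((W μ 2 u - W ν 2 u) * (W μ 2 u - W ν 2 u) +
        (W ν 2 u - W μ 2 u) * (W ν 2 u - W μ 2 u)) = 0 := by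
    have h3 : ∀ᵐ r ∂(Measure.dirac (2:ℝ)), (∫⁻ u, ((W μ r u - W ν r u) * (W μ r u - W ν r u) +
        (W ν r u - W μ r u) * (W ν r u - W μ r u))) = 0 := by
      have hac : (Measure.dirac (2:ℝ)) ≪ rm := by
        unfold rm
        apply Measure.AbsolutelyContinuous.add_right
        apply Measure.absolutelyContinuous_of_le_smul (c := ENNReal.ofReal 2)
        rw [smul_smul, ← ENNReal.ofReal_mul (by norm_num)]
        norm_num
      exact hac.ae_le hD0
    rw [ae_dirac_eq] at h3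
    exact h3
  have mμ2 : Measurable (fun u => W μ 2 u) :=
    mμ.comp (by fun_prop : Measurable (fun u : ℝ => ((2:ℝ), u)))
  have mν2 : Measurable (fun u => W ν 2 u) :=
    mν.comp (by fun_prop : Measurable (fun u : ℝ => ((2:ℝ), u)))
  have m3 : Measurable (fun u => (W μ 2 u - W ν 2 u) * (W μ 2 u - W ν 2 u) +
        (W ν 2 u - W μ 2 u) * (W ν 2 u - W μ 2 u)) :=
    ((mμ2.sub mν2).mul (mμ2.sub mν2)).add ((mν2.sub mμ2).mul (mν2.sub mμ2))
  rw [lintegral_eq_zero_iff m3] at hr2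
  have hIic : ∀ (ρ : Measure ℝ), IsProbabilityMeasure ρ → (∀ᵐ x ∂ρ, |x| ≤ 1) →
      ∀ u, W ρ 2 u = if u < 1 then ρ (Iic u) else W ρ 2 u := by
    intro ρ _ hρ u
    split_ifs with hu
    · rw [W_eq]
      apply measure_congr
      filter_upwards [hρ] with x hx
      have := neg_abs_le x
      apply propext
      constructor
      · intro hh; exact hh.2
      · intro hh; exact ⟨by linarith, hh⟩
    · rfl
  have hIic1 : ∀ (ρ : Measure ℝ), IsProbabilityMeasure ρ → (∀ᵐ x ∂ρ, |x| ≤ 1) →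
      ∀ u, 1 ≤ u → ρ (Iic u) = 1 := by
    intro ρ _ hρ u hu
    rw [prob_compl_eq_zero_iff measurableSet_Iic |>.symm]
    have : {x | ¬ |x| ≤ 1} ⊇ (Iic u)ᶜ := by
      intro x hx
      simp only [mem_compl_iff, mem_Iic, not_le] at hx
      simp only [mem_ofPred_eq, not_le]
      exact lt_of_lt_of_le (lt_of_le_of_lt hu hx) (le_abs_self x)
    exact measure_mono_null this hρ
  have hae : ∀ᵐ u : ℝ, μ (Iic u) = ν (Iic u) := by
    filter_upwards [hr2] with u hu
    by_cases hu1 : u < 1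
    · have e1 := hIic μ inferInstance hμ u
      have e2 := hIic ν inferInstance hν u
      rw [if_pos hu1] at e1 e2
      rw [← e1, ← e2]
      simp only [Pi.zero_apply, add_eq_zero, mul_self_eq_zero] at hu
      exact le_antisymm (tsub_eq_zero_iff_le.mp hu.1) (tsub_eq_zero_iff_le.mp hu.2)
    · push Not at hu1
      rw [hIic1 μ inferInstance hμ u hu1, hIic1 ν inferInstance hν u hu1]
  apply Measure.ext_of_Iic
  intro a
  have hfreq : ∃ᶠ u in 𝓝[>] a, μ (Iic u) = ν (Iic u) := by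
    intro hc
    rw [eventually_iff, mem_nhdsGT_iff_exists_Ioo_subset] at hc
    obtain ⟨b, hb, hsub⟩ := hc
    have h0 : volume (Ioo a b) = 0 := measure_mono_null hsub (by simpa [ae_iff] using hae)
    rw [Real.volume_Ioo] at h0
    simp at h0
    simp at hb
    linarith
  have hlim : ∀ (ρ : Measure ℝ), IsProbabilityMeasure ρ →
      Tendsto (fun u => ρ (Iic u)) (𝓝[>] a) (𝓝 (ρ (Iic a))) := by
    intro ρ _
    have := (ProbabilityTheory.cdf ρ).right_continuous a
    have h4 : Tendsto (fun u => ENNReal.ofReal (ProbabilityTheory.cdf ρ u)) (𝓝[>] a)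
        (𝓝 (ENNReal.ofReal (ProbabilityTheory.cdf ρ a))) := by
      apply ENNReal.tendsto_ofReal
      exact this.mono_left (nhdsWithin_mono _ Ioi_subset_Ici_self)
    simpa [ProbabilityTheory.ofReal_cdf] using h4
  exact tendsto_nhds_unique_of_frequently_eq (hlim μ inferInstance) (hlim ν inferInstance) hfreq

lemma En_half (μ ν : Measure ℝ) [IsProbabilityMeasure μ] [IsProbabilityMeasure ν] :
    4 * En ((2⁻¹ : ENNReal) • μ + (2⁻¹ : ENNReal) • ν) ((2⁻¹ : ENNReal) • μ + (2⁻¹ : ENNReal) • ν)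
      = En μ μ + En ν ν + 2 * En μ ν := by
  have hmeas : ∀ ρ : Measure ℝ, SFinite ρ → Measurable (fun x => ∫⁻ y, k2 x y ∂ρ) := by
    intro ρ _
    exact measurable_k2.lintegral_prod_right'
  have hs := En_symm μ ν
  unfold En at *
  simp only [lintegral_add_measure, lintegral_smul_measure, smul_eq_mul]
  rw [lintegral_add_left ((hmeas μ inferInstance).const_mul _),
    lintegral_add_left ((hmeas μ inferInstance).const_mul _)]
  rw [lintegral_const_mul _ (hmeas μ inferInstance), lintegral_const_mul _ (hmeas ν inferInstance),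
    lintegral_const_mul _ (hmeas μ inferInstance), lintegral_const_mul _ (hmeas ν inferInstance)]
  rw [← hs]
  set A := ∫⁻ x, ∫⁻ y, k2 x y ∂μ ∂μ
  set B := ∫⁻ x, ∫⁻ y, k2 x y ∂ν ∂μ
  set C := ∫⁻ x, ∫⁻ y, k2 x y ∂ν ∂ν
  have h4 : (4:ENNReal) * (2⁻¹ * 2⁻¹) = 1 := by
    rw [← ENNReal.mul_inv (by simp) (by simp)]
    norm_num
    exact ENNReal.mul_inv_cancel (by simp) (by simp)
  calc 4 * (2⁻¹ * (2⁻¹ * A + 2⁻¹ * B) + 2⁻¹ * (2⁻¹ * B + 2⁻¹ * C))
      = (4 * (2⁻¹ * 2⁻¹)) * (A + B + (B + C)) := by ring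
    _ = A + C + 2 * B := by rw [h4]; ring

/-- Uniqueness of minimisers. -/
lemma unique_min (μ ν : Measure ℝ) [IsProbabilityMeasure μ] [IsProbabilityMeasure ν]
    (hμ : ∀ᵐ x ∂μ, |x| ≤ 1) (hν : ∀ᵐ x ∂ν, |x| ≤ 1)
    (h1 : En μ μ ≠ ⊤) (h2 : En ν ν = En μ μ)
    (h : En μ μ ≤ En ((2⁻¹ : ENNReal) • μ + (2⁻¹ : ENNReal) • ν)
      ((2⁻¹ : ENNReal) • μ + (2⁻¹ : ENNReal) • ν)) : μ = ν := by
  apply eq_of_En_le μ ν hμ hν h1 (by rw [h2]; exact h1)
  have h3 := En_half μ ν
  rw [h2] at h3 ⊢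
  have h4 : 4 * En μ μ ≤ En μ μ + En μ μ + 2 * En μ ν := by
    rw [← h3]
    exact mul_le_mul_right h 4
  have h5 : (En μ μ + En μ μ) + (En μ μ + En μ μ) ≤ (En μ μ + En μ μ) + 2 * En μ ν := by
    calc (En μ μ + En μ μ) + (En μ μ + En μ μ) = 4 * En μ μ := by ring
      _ ≤ _ := h4
  exact (ENNReal.add_le_add_iff_left (ENNReal.add_ne_top.mpr ⟨h1, h1⟩)).mp h5

end Pool.Agent.CK
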