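import Mathlib
import Pool.Agent.CK.Energy2

set_option autoImplicit false
open MeasureTheory Filter Topology Set

namespace Pool.Agent.CK

/-- one quadratic step -/
noncomputable def fg (g y : ℝ) : ℝ := (y ^ 2 - 1) / (2 * g) + 1

/-- points escaping `[-1,1]` -/
def Kc (γ : ℕ → ℝ) : Set ℝ :=
  {x | ∃ s : ℕ, 1 < |List.foldl (fun (y : ℝ) (k : ℕ) => fg (γ k) y) x (List.range s)|}

lemma foldl_shift (G : ℝ → ℕ → ℝ) (x : ℝ) (s : ℕ) :
    List.foldl G x (List.range (s+1)) = List.foldl (fun y k => G y (k+1)) (G x 0) (List.range s) := by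
  rw [List.range_succ_eq_map, List.foldl_cons, List.foldl_map]

lemma mem_Kc (γ : ℕ → ℝ) (x : ℝ) :
    x ∈ Kc γ ↔ 1 < |x| ∨ fg (γ 0) x ∈ Kc (fun k => γ (k+1)) := by
  unfold Kc
  simp only [mem_ofPred_eq]
  constructor
  · rintro ⟨s, hs⟩
    cases s with
    | zero => left; simpa using hs
    | succ s =>
      right
      rw [foldl_shift] at hs
      exact ⟨s, hs⟩
  · rintro (h | ⟨s, hs⟩)
    · exact ⟨0, by simpa using h⟩
    · refine ⟨s+1, ?_⟩
      rw [foldl_shift]
      exact hs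

lemma fg_neg (g y : ℝ) : fg g (-y) = fg g y := by unfold fg; ring

lemma neg_mem_Kc (γ : ℕ → ℝ) (x : ℝ) : -x ∈ Kc γ ↔ x ∈ Kc γ := by
  rw [mem_Kc γ (-x), mem_Kc γ x, abs_neg, fg_neg]

lemma measurable_fg (g : ℝ) : Measurable (fg g) := by unfold fg; fun_prop

lemma measurable_foldl (γ : ℕ → ℝ) (s : ℕ) :
    Measurable (fun x : ℝ => List.foldl (fun (y : ℝ) (k : ℕ) => fg (γ k) y) x (List.range s)) := by
  induction s with
  | zero => exact measurable_id
  | succ s ih =>
    simp_rw [List.range_succ, List.foldl_append, List.foldl_cons, List.foldl_nil]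
    exact (measurable_fg _).comp ih

lemma measurableSet_Kc (γ : ℕ → ℝ) : MeasurableSet (Kc γ) := by
  unfold Kc
  have : {x | ∃ s : ℕ, 1 < |List.foldl (fun (y : ℝ) (k : ℕ) => fg (γ k) y) x (List.range s)|}
      = ⋃ s : ℕ, {x | 1 < |List.foldl (fun (y : ℝ) (k : ℕ) => fg (γ k) y) x (List.range s)|} := by
    ext x; simp
  rw [this]
  apply MeasurableSet.iUnion
  intro s
  exact measurableSet_lt measurable_const (measurable_foldl γ s).abs

/-- equilibrium measure of the level set -/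
structure IsEq (γ : ℕ → ℝ) (μ : Measure ℝ) : Prop where
  prob : IsProbabilityMeasure μ
  supp : μ (Kc γ) = 0
  fin : En μ μ ≠ ⊤
  min : ∀ ν : Measure ℝ, IsProbabilityMeasure ν → ν (Kc γ) = 0 → En μ μ ≤ En ν ν

lemma ae_le_one {γ : ℕ → ℝ} {μ : Measure ℝ} (h : μ (Kc γ) = 0) : ∀ᵐ x ∂μ, |x| ≤ 1 := by
  have : ∀ᵐ x ∂μ, x ∉ Kc γ := measure_eq_zero_iff_ae_notMem.mp h
  filter_upwards [this] with x hx
  rw [mem_Kc] at hx
  push Not at hx
  exact hx.1

lemma ae_f_le_one {γ : ℕ → ℝ} {μ : Measure ℝ} (h : μ (Kc γ) = 0) :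
    ∀ᵐ x ∂μ, |fg (γ 0) x| ≤ 1 := by
  have : ∀ᵐ x ∂μ, x ∉ Kc γ := measure_eq_zero_iff_ae_notMem.mp h
  filter_upwards [this] with x hx
  rw [mem_Kc] at hx
  push Not at hx
  have h2 := hx.2
  rw [mem_Kc] at h2
  push Not at h2
  exact h2.1

lemma En_map (μ ν : Measure ℝ) [SFinite μ] [SFinite ν] (f : ℝ → ℝ) (hf : Measurable f) :
    En (μ.map f) (ν.map f) = ∫⁻ x, ∫⁻ y, k2 (f x) (f y) ∂ν ∂μ := by
  unfold En
  have : SFinite (ν.map f) := inferInstance
  rw [lintegral_map (measurable_k2.lintegral_prod_right') hf]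
  apply lintegral_congr
  intro x
  rw [lintegral_map _ hf]
  exact measurable_k2.comp (by fun_prop : Measurable (fun y : ℝ => (f x, y)))

lemma k2_neg (x y : ℝ) : k2 (-x) (-y) = k2 x y := by
  unfold k2
  have : |-x - -y| = |x - y| := by rw [← abs_neg (x - y)]; congr 1; ring
  rw [this]
  simp

lemma Kc_preimage_neg (γ : ℕ → ℝ) : (fun x : ℝ => -x) ⁻¹' (Kc γ) = Kc γ := by
  ext x
  exact neg_mem_Kc γ x

lemma midpoint_supp {γ : ℕ → ℝ} {μ ν : Measure ℝ} (h1 : μ (Kc γ) = 0) (h2 : ν (Kc γ) = 0) :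
    ((2⁻¹ : ENNReal) • μ + (2⁻¹ : ENNReal) • ν) (Kc γ) = 0 := by
  simp [h1, h2]

lemma midpoint_prob (μ ν : Measure ℝ) [IsProbabilityMeasure μ] [IsProbabilityMeasure ν] :
    IsProbabilityMeasure ((2⁻¹ : ENNReal) • μ + (2⁻¹ : ENNReal) • ν) := by
  constructor
  simp [ENNReal.inv_two_add_inv_two]

lemma IsEq.unique {γ : ℕ → ℝ} {μ ν : Measure ℝ} (hμ : IsEq γ μ) (hν : IsEq γ ν) : μ = ν := by
  have := hμ.prob
  have := hν.prob
  apply unique_min μ ν (ae_le_one hμ.supp) (ae_le_one hν.supp) hμ.fin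
  · exact le_antisymm (hν.min μ inferInstance hμ.supp) (hμ.min ν inferInstance hν.supp)
  · exact hμ.min _ (midpoint_prob μ ν) (midpoint_supp hμ.supp hν.supp)

lemma IsEq.symm {γ : ℕ → ℝ} {μ : Measure ℝ} (hμ : IsEq γ μ) : μ.map (fun x => -x) = μ := by
  have := hμ.prob
  have hE : En (μ.map (fun x => -x)) (μ.map (fun x => -x)) = En μ μ := by
    rw [En_map _ _ _ measurable_neg]
    simp_rw [k2_neg]
    rfl
  have h : IsEq γ (μ.map (fun x => -x)) := by
    refine ⟨Measure.isProbabilityMeasure_map measurable_neg.aemeasurable, ?_, ?_, ?_⟩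
    · rw [Measure.map_apply measurable_neg (measurableSet_Kc γ), Kc_preimage_neg]
      exact hμ.supp
    · rw [hE]; exact hμ.fin
    · intro ν h1 h2
      rw [hE]
      exact hμ.min ν h1 h2
  exact (hμ.unique h).symm

lemma k2_fg (g x y : ℝ) (hg : 0 < g) (hg1 : g < 1) (hx : |fg g x| ≤ 1) (hy : |fg g y| ≤ 1)
    (hx1 : |x| ≤ 1) (hy1 : |y| ≤ 1) :
    k2 (fg g x) (fg g y) + ENNReal.ofReal (- Real.log g) = k2 x y + k2 x (-y) := by
  have hd : fg g x - fg g y = (x - y) * (x - -y) / (2 * g) := by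
    unfold fg; field_simp; ring
  have hlog0 : 0 ≤ - Real.log g := by
    have := Real.log_nonpos hg.le hg1.le
    linarith
  have hnn : ∀ u v : ℝ, |u| ≤ 1 → |v| ≤ 1 → u ≠ v → 0 ≤ Real.log 2 - Real.log |u - v| := by
    intro u v hu hv huv
    have h2 : |u - v| ≤ 2 := by
      have := abs_sub u v
      linarith [abs_sub u v]
    have := Real.log_le_log (abs_pos.mpr (sub_ne_zero.mpr huv)) h2
    linarith
  by_cases h1 : x = y
  · simp [k2, h1]
  · by_cases h2 : x = -y
    · have : fg g x = fg g y := by rw [h2, fg_neg]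
      simp [k2, h2, fg_neg]
    · have h3 : fg g x ≠ fg g y := by
        intro h
        have h4 : fg g x - fg g y = 0 := by rw [h]; ring
        rw [hd] at h4
        rw [div_eq_zero_iff] at h4
        rcases h4 with h4 | h4
        · rcases mul_eq_zero.mp h4 with h5 | h5
          · exact h1 (sub_eq_zero.mp h5)
          · exact h2 (sub_eq_zero.mp h5)
        · linarith
      have e1 := hnn _ _ hx hy h3
      have e2 := hnn x y hx1 hy1 h1
      have e3 := hnn x (-y) hx1 (by rw [abs_neg]; exact hy1) h2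
      unfold k2
      rw [if_neg h1, if_neg h2, if_neg h3, ← ENNReal.ofReal_add e1 hlog0, ← ENNReal.ofReal_add e2 e3]
      congr 1
      rw [hd, abs_div, abs_mul, abs_of_pos (by positivity : 0 < 2 * g)]
      have p1 : |x - y| ≠ 0 := abs_ne_zero.mpr (sub_ne_zero.mpr h1)
      have p2 : |x - -y| ≠ 0 := abs_ne_zero.mpr (sub_ne_zero.mpr h2)
      rw [Real.log_div (mul_ne_zero p1 p2) (by positivity), Real.log_mul p1 p2,
        Real.log_mul (by norm_num) hg.ne']
      ring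

lemma En_fg (g : ℝ) (hg : 0 < g) (hg1 : g < 1) (μ : Measure ℝ) [IsProbabilityMeasure μ]
    (hs : μ.map (fun x => -x) = μ) (h1 : ∀ᵐ x ∂μ, |x| ≤ 1) (h2 : ∀ᵐ x ∂μ, |fg g x| ≤ 1) :
    En (μ.map (fg g)) (μ.map (fg g)) + ENNReal.ofReal (- Real.log g) = 2 * En μ μ := by
  rw [En_map _ _ _ (measurable_fg g)]
  have e1 : (∫⁻ x, ∫⁻ y, k2 (fg g x) (fg g y) ∂μ ∂μ) + ENNReal.ofReal (- Real.log g)
      = ∫⁻ x, ∫⁻ y, (k2 (fg g x) (fg g y) + ENNReal.ofReal (- Real.log g)) ∂μ ∂μ := by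
    simp_rw [lintegral_add_right _ measurable_const]
    simp
  have e2 : ∫⁻ x, ∫⁻ y, (k2 (fg g x) (fg g y) + ENNReal.ofReal (- Real.log g)) ∂μ ∂μ
      = ∫⁻ x, ∫⁻ y, (k2 x y + k2 x (-y)) ∂μ ∂μ := by
    apply lintegral_congr_ae
    filter_upwards [h1, h2] with x hx hx2
    apply lintegral_congr_ae
    filter_upwards [h1, h2] with y hy hy2
    exact k2_fg g x y hg hg1 hx2 hy2 hx hy
  have m1 : Measurable (fun q : ℝ × ℝ => k2 q.1 (-q.2)) :=
    measurable_k2.comp (by fun_prop : Measurable (fun q : ℝ × ℝ => (q.1, -q.2)))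
  have m2 : ∀ x, Measurable (fun y : ℝ => k2 x y) := fun x =>
    measurable_k2.comp (by fun_prop : Measurable (fun q : ℝ => (x, q)))
  have e3 : ∀ x, ∫⁻ y, k2 x (-y) ∂μ = ∫⁻ y, k2 x y ∂μ := by
    intro x
    conv_rhs => rw [← hs]
    rw [lintegral_map (m2 x) measurable_neg]
  rw [e1, e2]
  simp_rw [lintegral_add_left (m2 _), e3]
  rw [lintegral_add_left measurable_k2.lintegral_prod_right']
  rw [two_mul]
  rfl

/-- upper branch of the inverse -/
noncomputable def gb (g y : ℝ) : ℝ := Real.sqrt (1 + 2 * g * (y - 1))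

lemma measurable_gb (g : ℝ) : Measurable (gb g) := by unfold gb; fun_prop

lemma fg_gb (g y : ℝ) (hg : 0 < g) (hg1 : g < 1/4) (hy : |y| ≤ 1) : fg g (gb g y) = y := by
  unfold fg gb
  have := (abs_le.mp hy).1
  rw [Real.sq_sqrt (by nlinarith)]
  field_simp
  ring

lemma gb_le (g y : ℝ) (hg : 0 < g) (hy : |y| ≤ 1) : |gb g y| ≤ 1 := by
  unfold gb
  rw [abs_of_nonneg (Real.sqrt_nonneg _)]
  rw [Real.sqrt_le_one]
  have := (abs_le.mp hy).2
  nlinarith

lemma measurable_ngb (g : ℝ) : Measurable (fun y => - gb g y) := (measurable_gb g).neg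

/-- symmetric pullback -/
noncomputable def pb (g : ℝ) (ν : Measure ℝ) : Measure ℝ :=
  (2⁻¹ : ENNReal) • ν.map (gb g) + (2⁻¹ : ENNReal) • ν.map (fun y => - gb g y)

lemma pb_prob (g : ℝ) (ν : Measure ℝ) [IsProbabilityMeasure ν] : IsProbabilityMeasure (pb g ν) := by
  unfold pb
  have := Measure.isProbabilityMeasure_map (μ := ν) (measurable_gb g).aemeasurable
  have := Measure.isProbabilityMeasure_map (μ := ν) (measurable_gb g).neg.aemeasurable
  exact midpoint_prob _ _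

lemma pb_symm (g : ℝ) (ν : Measure ℝ) : (pb g ν).map (fun x => -x) = pb g ν := by
  unfold pb
  rw [Measure.map_add _ _ measurable_neg, Measure.map_smul, Measure.map_smul,
    Measure.map_map measurable_neg (measurable_gb g),
    Measure.map_map measurable_neg (measurable_ngb g), add_comm]
  congr 3
  ext y
  simp

lemma pb_map (g : ℝ) (hg : 0 < g) (hg1 : g < 1/4) (ν : Measure ℝ) [IsProbabilityMeasure ν]
    (h : ∀ᵐ x ∂ν, |x| ≤ 1) : (pb g ν).map (fg g) = ν := by
  unfold pb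
  rw [Measure.map_add _ _ (measurable_fg g), Measure.map_smul, Measure.map_smul,
    Measure.map_map (measurable_fg g) (measurable_gb g),
    Measure.map_map (measurable_fg g) (measurable_ngb g)]
  have e1 : ν.map (fg g ∘ gb g) = ν := by
    conv_rhs => rw [← Measure.map_id (μ := ν)]
    apply Measure.map_congr
    filter_upwards [h] with y hy
    exact fg_gb g y hg hg1 hy
  have e2 : ν.map (fg g ∘ fun y => - gb g y) = ν := by
    conv_rhs => rw [← Measure.map_id (μ := ν)]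
    apply Measure.map_congr
    filter_upwards [h] with y hy
    simp only [Function.comp, fg_neg]
    exact fg_gb g y hg hg1 hy
  rw [e1, e2, ← add_smul, ENNReal.inv_two_add_inv_two, one_smul]

lemma pb_supp (γ : ℕ → ℝ) (hg : 0 < γ 0) (hg1 : γ 0 < 1/4) (ν : Measure ℝ)
    (h : ν (Kc (fun k => γ (k+1))) = 0) : (pb (γ 0) ν) (Kc γ) = 0 := by
  have hae := measure_eq_zero_iff_ae_notMem.mp h
  have hle := ae_le_one h
  unfold pb
  have e1 : (ν.map (gb (γ 0))) (Kc γ) = 0 := by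
    rw [Measure.map_apply (measurable_gb _) (measurableSet_Kc γ)]
    apply measure_eq_zero_iff_ae_notMem.mpr
    filter_upwards [hae, hle] with y h1 h2
    rw [mem_preimage, mem_Kc γ, not_or, not_lt]
    refine ⟨gb_le _ _ hg h2, ?_⟩
    rw [fg_gb _ _ hg hg1 h2]
    exact h1
  have e2 : (ν.map (fun y => - gb (γ 0) y)) (Kc γ) = 0 := by
    rw [Measure.map_apply (measurable_ngb _) (measurableSet_Kc γ)]
    apply measure_eq_zero_iff_ae_notMem.mpr
    filter_upwards [hae, hle] with y h1 h2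
    rw [mem_preimage, mem_Kc γ, not_or, not_lt, abs_neg, fg_neg]
    refine ⟨gb_le _ _ hg h2, ?_⟩
    rw [fg_gb _ _ hg hg1 h2]
    exact h1
  simp [e1, e2]

lemma IsEq.step {γ : ℕ → ℝ} {μ : Measure ℝ} (hμ : IsEq γ μ) (hg : 0 < γ 0) (hg1 : γ 0 < 1/4) :
    IsEq (fun k => γ (k+1)) (μ.map (fg (γ 0))) := by
  have := hμ.prob
  have hE := En_fg (γ 0) hg (by linarith) μ hμ.symm (ae_le_one hμ.supp) (ae_f_le_one hμ.supp)
  refine ⟨Measure.isProbabilityMeasure_map (measurable_fg _).aemeasurable, ?_, ?_, ?_⟩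
  · rw [Measure.map_apply (measurable_fg _) (measurableSet_Kc _)]
    apply measure_mono_null _ hμ.supp
    intro x hx
    rw [mem_Kc]
    exact Or.inr hx
  · intro h
    rw [h] at hE
    simp at hE
    exact ENNReal.mul_ne_top (by simp) hμ.fin hE.symm
  · intro ν hν hνs
    have hνle := ae_le_one hνs
    have hp := pb_prob (γ 0) ν
    have hps := pb_supp γ hg hg1 ν hνs
    have hE2 := En_fg (γ 0) hg (by linarith) (pb (γ 0) ν) (pb_symm _ _) (ae_le_one hps)
      (ae_f_le_one hps)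
    rw [pb_map _ hg hg1 ν hνle] at hE2
    have hle := hμ.min _ hp hps
    have : En (μ.map (fg (γ 0))) (μ.map (fg (γ 0))) + ENNReal.ofReal (- Real.log (γ 0))
        ≤ En ν ν + ENNReal.ofReal (- Real.log (γ 0)) := by
      rw [hE, hE2]
      exact mul_le_mul_right hle 2
    exact (ENNReal.add_le_add_iff_right ENNReal.ofReal_ne_top).mp this

/-- the frozen-statement set -/
def Kf (γ : ℕ → ℝ) : Set ℝ :=
  {x : ℝ | ∃ s : ℕ, 1 < |List.foldl (fun (y : ℝ) (k : ℕ) => if k = 0 then 2 * y * (y - 1) / γ 0 + 1 else (y ^ 2 - 1) / (2 * γ k) + 1) x (List.range s)|}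

lemma mem_Kf (γ : ℕ → ℝ) (h0 : 0 < γ 0) (x : ℝ) : x ∈ Kf γ ↔ 2 * x - 1 ∈ Kc γ := by
  have hstep : 2 * x * (x - 1) / γ 0 + 1 = fg (γ 0) (2 * x - 1) := by
    unfold fg; field_simp; ring
  have h1 : x ∈ Kf γ ↔ 1 < |x| ∨ fg (γ 0) (2 * x - 1) ∈ Kc (fun k => γ (k+1)) := by
    unfold Kf Kc
    simp only [mem_ofPred_eq]
    constructor
    · rintro ⟨s, hs⟩
      cases s with
      | zero => left; simpa using hs
      | succ s =>
        right
        rw [foldl_shift] at hs
        refine ⟨s, ?_⟩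
        simp only [Nat.add_eq_zero_iff, one_ne_zero, and_false, if_false, if_true, hstep] at hs
        exact hs
    · rintro (h | ⟨s, hs⟩)
      · exact ⟨0, by simpa using h⟩
      · refine ⟨s+1, ?_⟩
        rw [foldl_shift]
        simp only [Nat.add_eq_zero_iff, one_ne_zero, and_false, if_false, if_true, hstep]
        exact hs
  rw [h1, mem_Kc γ (2 * x - 1)]
  by_cases hK : fg (γ 0) (2 * x - 1) ∈ Kc (fun k => γ (k+1))
  · simp [hK]
  · simp only [hK, or_false]
    have h2 := hK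
    rw [mem_Kc] at h2
    push Not at h2
    have h3 := (abs_le.mp h2.1).2
    rw [← hstep] at h3
    have h4 : 2 * x * (x - 1) ≤ 0 := by
      by_contra hc
      push Not at hc
      have : 0 < 2 * x * (x - 1) / γ 0 := div_pos hc h0
      linarith
    have h5 : 0 ≤ x := by nlinarith
    have h6 : x ≤ 1 := by nlinarith
    constructor
    · intro h
      rw [abs_of_nonneg h5] at h
      linarith
    · intro h
      have : |2 * x - 1| ≤ 1 := abs_le.mpr ⟨by linarith, by linarith⟩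
      linarith

/-- frozen-statement energy -/
noncomputable def Ef (μ : Measure ℝ) : ENNReal :=
  ∫⁻ x, ∫⁻ y, (if x = y then (⊤ : ENNReal) else ENNReal.ofReal (-Real.log |x - y|)) ∂μ ∂μ

lemma k2_aff (x y : ℝ) : k2 (2 * x - 1) (2 * y - 1)
    = if x = y then (⊤ : ENNReal) else ENNReal.ofReal (-Real.log |x - y|) := by
  unfold k2
  by_cases h : x = y
  · simp [h]
  · rw [if_neg h, if_neg (by intro hc; apply h; linarith)]
    congr 1
    have : 2 * x - 1 - (2 * y - 1) = 2 * (x - y) := by ring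
    rw [this, abs_mul, abs_of_pos (by norm_num : (0:ℝ) < 2),
      Real.log_mul (by norm_num) (abs_ne_zero.mpr (sub_ne_zero.mpr h))]
    ring

lemma En_aff (μ : Measure ℝ) [SFinite μ] :
    En (μ.map (fun x => 2 * x - 1)) (μ.map (fun x => 2 * x - 1)) = Ef μ := by
  rw [En_map _ _ _ (by fun_prop)]
  simp_rw [k2_aff]
  rfl

lemma isEq_of_frozen (γ : ℕ → ℝ) (h0 : 0 < γ 0) (μ : Measure ℝ) [IsProbabilityMeasure μ]
    (hs : μ (Kf γ) = 0) (hfin : Ef μ < ⊤)
    (hmin : ∀ ν : Measure ℝ, IsProbabilityMeasure ν → ν (Kf γ) = 0 → Ef μ ≤ Ef ν) :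
    IsEq γ (μ.map (fun x => 2 * x - 1)) := by
  have hm : Measurable (fun x : ℝ => 2 * x - 1) := by fun_prop
  have hpre : (fun x : ℝ => 2 * x - 1) ⁻¹' (Kc γ) = Kf γ := by
    ext x; exact (mem_Kf γ h0 x).symm
  refine ⟨Measure.isProbabilityMeasure_map hm.aemeasurable, ?_, ?_, ?_⟩
  · rw [Measure.map_apply hm (measurableSet_Kc γ), hpre]; exact hs
  · rw [En_aff]; exact hfin.ne
  · intro ν hν hνs
    rw [En_aff]
    have hm' : Measurable (fun y : ℝ => (y + 1) / 2) := by fun_prop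
    have hν' : IsProbabilityMeasure (ν.map (fun y => (y + 1) / 2)) :=
      Measure.isProbabilityMeasure_map hm'.aemeasurable
    have hcomp : (ν.map (fun y => (y + 1) / 2)).map (fun x => 2 * x - 1) = ν := by
      rw [Measure.map_map hm hm']
      have : ((fun x : ℝ => 2 * x - 1) ∘ fun y => (y + 1) / 2) = id := by
        ext y; simp; ring
      rw [this, Measure.map_id]
    have h1 := hmin (ν.map (fun y => (y + 1) / 2)) hν' (by
      rw [← hpre, ← Measure.map_apply hm (measurableSet_Kc γ), hcomp]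
      exact hνs)
    rw [← En_aff (ν.map (fun y => (y + 1) / 2)), hcomp] at h1
    exact h1

end Pool.Agent.CK
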