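import Mathlib
import Pool.Agent.CK.Level

set_option autoImplicit false
set_option linter.unusedSectionVars false
open MeasureTheory Filter Topology Set Polynomial

namespace Pool.Agent.CK

/-- orthonormal polynomials with positive leading coefficients -/
structure OP (μ : Measure ℝ) (p : ℕ → ℝ[X]) : Prop where
  deg : ∀ n, (p n).natDegree = n
  lc : ∀ n, 0 < (p n).leadingCoeff
  on : ∀ m n, ∫ x, (p m).eval x * (p n).eval x ∂μ = if m = n then 1 else 0

/-- bilinear form -/
noncomputable def ip (μ : Measure ℝ) (p q : ℝ[X]) : ℝ := ∫ x, p.eval x * q.eval x ∂μ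

section
variable {μ : Measure ℝ} [IsProbabilityMeasure μ] (hs : ∀ᵐ x ∂μ, |x| ≤ 1)

include hs in
lemma integrable_poly (q : ℝ[X]) : Integrable (fun x => q.eval x) μ := by
  have hcont : Continuous (fun x => q.eval x) := q.continuous
  obtain ⟨C, hC⟩ := (isCompact_Icc (a := (-1:ℝ)) (b := 1)).exists_bound_of_continuousOn
    hcont.continuousOn
  apply Integrable.of_bound hcont.aestronglyMeasurable C
  filter_upwards [hs] with x hx
  exact hC x (abs_le.mp hx)

include hs in
lemma integrable_mul (p q : ℝ[X]) : Integrable (fun x => p.eval x * q.eval x) μ := by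
  have := integrable_poly hs (p * q)
  simpa using this

lemma ip_comm (p q : ℝ[X]) : ip μ p q = ip μ q p := by
  unfold ip; simp_rw [mul_comm]

include hs in
lemma ip_add (p q r : ℝ[X]) : ip μ (p + q) r = ip μ p r + ip μ q r := by
  unfold ip
  rw [← integral_add (integrable_mul hs p r) (integrable_mul hs q r)]
  simp_rw [eval_add, add_mul]

include hs in
lemma ip_sub (p q r : ℝ[X]) : ip μ (p - q) r = ip μ p r - ip μ q r := by
  unfold ip
  rw [← integral_sub (integrable_mul hs p r) (integrable_mul hs q r)]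
  simp_rw [eval_sub, sub_mul]

lemma ip_smul (c : ℝ) (p r : ℝ[X]) : ip μ (C c * p) r = c * ip μ p r := by
  unfold ip
  rw [← integral_const_mul]
  simp_rw [eval_mul, eval_C, mul_assoc]

lemma ip_X (p q : ℝ[X]) : ip μ (X * p) q = ip μ p (X * q) := by
  unfold ip
  simp only [eval_mul, eval_X]
  congr 1
  ext x
  ring

variable {p : ℕ → ℝ[X]} (hp : OP μ p)

include hp in
lemma coeff_red (k : ℕ) (q : ℝ[X]) (hq : q.degree < (k + 1 : ℕ)) :
    (q - C (q.coeff k / (p k).leadingCoeff) * p k).degree < (k : ℕ) := by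
  rw [degree_lt_iff_coeff_zero] at hq ⊢
  intro m hm
  rcases Nat.eq_or_lt_of_le hm with h | h
  · subst h
    have h1 : (p k).coeff k = (p k).leadingCoeff := by
      rw [leadingCoeff, hp.deg k]
    have := (hp.lc k).ne'
    rw [coeff_sub, coeff_C_mul, h1]
    field_simp
    ring
  · have h1 := hq m h
    have h2 : (p k).coeff m = 0 := coeff_eq_zero_of_natDegree_lt (by rw [hp.deg k]; exact h)
    rw [coeff_sub, coeff_C_mul, h1, h2]
    ring

include hs hp in
lemma orth_low (k : ℕ) : ∀ q : ℝ[X], q.degree < (k : ℕ) → ∀ n, k ≤ n → ip μ q (p n) = 0 := by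
  induction k with
  | zero =>
    intro q hq n _
    have : q = 0 := by
      rw [degree_lt_iff_coeff_zero] at hq
      ext m
      simpa using hq m (Nat.zero_le m)
    rw [this]; unfold ip; simp
  | succ k ih =>
    intro q hq n hn
    have h1 := coeff_red hp k q hq
    have h2 := ih _ h1 n (by omega)
    rw [ip_sub hs, ip_smul] at h2
    have h3 : ip μ (p k) (p n) = 0 := by
      have := hp.on k n
      rw [if_neg (by omega)] at this
      exact this
    rw [h3] at h2
    linarith

include hs hp in
lemma nondeg (k : ℕ) : ∀ q : ℝ[X], q.degree < (k : ℕ) → (∀ j, j < k → ip μ q (p j) = 0) → q = 0 := by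
  induction k with
  | zero =>
    intro q hq _
    rw [degree_lt_iff_coeff_zero] at hq
    ext m
    simpa using hq m (Nat.zero_le m)
  | succ k ih =>
    intro q hq hj
    have h1 := coeff_red hp k q hq
    have h2 := orth_low hs hp k _ h1 k le_rfl
    rw [ip_sub hs, ip_smul, hj k (by omega)] at h2
    have h3 : ip μ (p k) (p k) = 1 := by
      have := hp.on k k
      rw [if_pos rfl] at this
      exact this
    rw [h3] at h2
    have h4 : q.coeff k / (p k).leadingCoeff = 0 := by linarith
    rw [h4] at h1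
    simp only [map_zero, zero_mul, sub_zero] at h1
    exact ih q h1 (fun j hjk => hj j (by omega))

include hp in
lemma deg_lt {j k : ℕ} (h : j < k) : (p j).degree < (k : ℕ) := by
  rw [degree_lt_iff_coeff_zero]
  intro m hm
  exact coeff_eq_zero_of_natDegree_lt (by rw [hp.deg j]; omega)

include hs hp in
lemma OP_unique {q : ℕ → ℝ[X]} (hq : OP μ q) (n : ℕ) : q n = p n := by
  have hr : q n - C ((q n).coeff n / (p n).leadingCoeff) * p n = 0 := by
    apply nondeg hs hp n _ (coeff_red hp n (q n) (deg_lt hq (Nat.lt_succ_self n)))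
    intro j hj
    rw [ip_sub hs, ip_smul]
    have h1 : ip μ (q n) (p j) = 0 := by
      rw [ip_comm]
      exact orth_low hs hq n (p j) (deg_lt hp hj) n le_rfl
    have h2 : ip μ (p n) (p j) = 0 := by
      have := hp.on n j
      rw [if_neg (by omega)] at this
      exact this
    rw [h1, h2]; ring
  set c := (q n).coeff n / (p n).leadingCoeff with hc
  have hqc : q n = C c * p n := sub_eq_zero.mp hr
  have hcpos : 0 < c := by
    apply div_pos _ (hp.lc n)
    have := hq.lc n
    rw [leadingCoeff, hq.deg n] at this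
    exact this
  have h1 : ip μ (q n) (q n) = 1 := by
    have := hq.on n n
    rw [if_pos rfl] at this
    exact this
  have h2 : ip μ (p n) (p n) = 1 := by
    have := hp.on n n
    rw [if_pos rfl] at this
    exact this
  rw [hqc, ip_smul, ip_comm, ip_smul, h2] at h1
  have : c = 1 := by nlinarith
  rw [hqc, this]; simp

/-- recurrence coefficient `∫ x p_n p_{n+1}` -/
noncomputable def rc (μ : Measure ℝ) (p : ℕ → ℝ[X]) (n : ℕ) : ℝ := ip μ (X * p n) (p (n+1))

variable (hsym : μ.map (fun x => -x) = μ)

include hs hp hsym in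
lemma parity (n : ℕ) : C ((-1)^n) * (p n).comp (-X) = p n := by
  have hq : OP μ (fun n => C ((-1)^n) * (p n).comp (-X)) := by
    refine ⟨?_, ?_, ?_⟩
    · intro n
      rw [natDegree_C_mul (pow_ne_zero n (by norm_num)), natDegree_comp, natDegree_neg, natDegree_X, mul_one,
        hp.deg n]
    · intro n
      rw [leadingCoeff_mul, leadingCoeff_C, leadingCoeff_comp (by simp), leadingCoeff_neg, hp.deg n]
      simp only [leadingCoeff_X]
      rw [mul_comm (p n).leadingCoeff, ← mul_assoc, ← mul_pow]
      simpa using hp.lc n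
    · intro m n
      have h1 : ∀ x : ℝ, eval x (C ((-1)^m) * (p m).comp (-X)) * eval x (C ((-1)^n) * (p n).comp (-X))
          = (-1)^(m+n) * ((p m).eval (-x) * (p n).eval (-x)) := by
        intro x
        simp only [eval_mul, eval_C, eval_comp, eval_neg, eval_X]
        rw [pow_add]; ring
      simp_rw [h1]
      rw [integral_const_mul]
      have h2 : ∫ x, (p m).eval (-x) * (p n).eval (-x) ∂μ = ∫ x, (p m).eval x * (p n).eval x ∂μ := by
        conv_rhs => rw [← hsym]
        rw [integral_map (by fun_prop)]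
        exact ((p m).continuous.mul (p n).continuous).aestronglyMeasurable
      rw [h2, hp.on]
      split_ifs with h
      · rw [h, ← two_mul, pow_mul]; simp
      · simp
  exact OP_unique hs hp hq n

include hs hp hsym in
lemma parity_eval (n : ℕ) (x : ℝ) : (p n).eval (-x) = (-1)^n * (p n).eval x := by
  have h := parity hs hp hsym n
  have h2 := congrArg (fun q => q.eval x) h
  simp only [eval_mul, eval_C, eval_comp, eval_neg, eval_X] at h2
  rw [← h2, ← mul_assoc, ← mul_pow]
  simp

include hs hp hsym in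
lemma diag_zero (n : ℕ) : ip μ (X * p n) (p n) = 0 := by
  have h1 : ip μ (X * p n) (p n) = - ip μ (X * p n) (p n) := by
    unfold ip
    conv_lhs => rw [← hsym]
    rw [integral_map (by fun_prop)
      (((X * p n).continuous.mul (p n).continuous).aestronglyMeasurable), ← integral_neg]
    apply integral_congr_ae
    apply Eventually.of_forall
    intro x
    simp only [eval_mul, eval_X, parity_eval hs hp hsym]
    have : ((-1:ℝ)^n) * (-1)^n = 1 := by rw [← mul_pow]; simp
    calc -x * ((-1) ^ n * eval x (p n)) * ((-1) ^ n * eval x (p n))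
        = -(((-1:ℝ)^n * (-1)^n) * (x * eval x (p n) * eval x (p n))) := by ring
      _ = -(x * eval x (p n) * eval x (p n)) := by rw [this, one_mul]
  linarith

include hs hp in
lemma orth_far {j n : ℕ} (h : j + 1 < n) : ip μ (X * p n) (p j) = 0 := by
  rw [ip_X, ip_comm]
  apply orth_low hs hp (j+2) _ _ n (by omega)
  rw [degree_lt_iff_coeff_zero]
  intro m hm
  apply coeff_eq_zero_of_natDegree_lt
  have : (X * p j).natDegree ≤ 1 + j := by
    calc (X * p j).natDegree ≤ (X:ℝ[X]).natDegree + (p j).natDegree := natDegree_mul_le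
      _ = 1 + j := by rw [natDegree_X, hp.deg]
  omega

include hs hp hsym in
lemma three_term_zero : X * p 0 = C (rc μ p 0) * p 1 := by
  have : X * p 0 - C (rc μ p 0) * p 1 = 0 := by
    apply nondeg hs hp 2
    · rw [degree_lt_iff_coeff_zero]
      intro m hm
      apply coeff_eq_zero_of_natDegree_lt
      have h1 : (X * p 0).natDegree ≤ 1 + 0 := by
        calc (X * p 0).natDegree ≤ (X:ℝ[X]).natDegree + (p 0).natDegree := natDegree_mul_le
          _ = 1 + 0 := by rw [natDegree_X, hp.deg]
      have h2 : (C (rc μ p 0) * p 1).natDegree ≤ 1 := by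
        calc _ ≤ (p 1).natDegree := natDegree_C_mul_le _ _
          _ = 1 := hp.deg 1
      have := natDegree_sub_le (X * p 0) (C (rc μ p 0) * p 1)
      omega
    · intro j hj
      rw [ip_sub hs, ip_smul]
      interval_cases j
      · rw [diag_zero hs hp hsym]
        have : ip μ (p 1) (p 0) = 0 := by
          have := hp.on 1 0
          rw [if_neg (by omega)] at this
          exact this
        rw [this]; ring
      · have : ip μ (p 1) (p 1) = 1 := by
          have := hp.on 1 1
          rw [if_pos rfl] at this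
          exact this
        rw [this]; unfold rc; ring
  exact sub_eq_zero.mp this

include hs hp hsym in
lemma three_term (n : ℕ) : X * p (n+1) = C (rc μ p (n+1)) * p (n+2) + C (rc μ p n) * p n := by
  have : X * p (n+1) - (C (rc μ p (n+1)) * p (n+2) + C (rc μ p n) * p n) = 0 := by
    apply nondeg hs hp (n+3)
    · rw [degree_lt_iff_coeff_zero]
      intro m hm
      apply coeff_eq_zero_of_natDegree_lt
      have h1 : (X * p (n+1)).natDegree ≤ 1 + (n+1) := by
        calc (X * p (n+1)).natDegree ≤ (X:ℝ[X]).natDegree + (p (n+1)).natDegree := natDegree_mul_le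
          _ = 1 + (n+1) := by rw [natDegree_X, hp.deg]
      have h2 : (C (rc μ p (n+1)) * p (n+2)).natDegree ≤ n+2 := by
        calc _ ≤ (p (n+2)).natDegree := natDegree_C_mul_le _ _
          _ = n+2 := hp.deg _
      have h3 : (C (rc μ p n) * p n).natDegree ≤ n := by
        calc _ ≤ (p n).natDegree := natDegree_C_mul_le _ _
          _ = n := hp.deg _
      have h4 := natDegree_add_le (C (rc μ p (n+1)) * p (n+2)) (C (rc μ p n) * p n)
      have h5 := natDegree_sub_le (X * p (n+1)) (C (rc μ p (n+1)) * p (n+2) + C (rc μ p n) * p n)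
      omega
    · intro j hj
      rw [ip_sub hs, ip_add hs, ip_smul, ip_smul]
      have hon : ∀ a b : ℕ, ip μ (p a) (p b) = if a = b then 1 else 0 := hp.on
      rw [hon, hon]
      rcases lt_trichotomy j n with h | h | h
      · rw [orth_far hs hp (by omega), if_neg (by omega), if_neg (by omega)]; ring
      · subst h
        rw [if_neg (by omega), if_pos rfl]
        have : ip μ (X * p (j+1)) (p j) = rc μ p j := by
          unfold rc
          rw [ip_X, ip_comm]
        rw [this]; ring
      · rcases Nat.lt_or_ge (n+1) j with h' | h'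
        · have : j = n + 2 := by omega
          subst this
          rw [if_pos rfl, if_neg (by omega)]
          unfold rc; ring
        · have : j = n + 1 := by omega
          subst this
          rw [diag_zero hs hp hsym, if_neg (by omega), if_neg (by omega)]
          ring
  exact sub_eq_zero.mp this

include hs hp hsym in
lemma rc_pos (n : ℕ) : 0 < rc μ p n := by
  have hc : ∀ k, (p k).coeff k = (p k).leadingCoeff := by
    intro k; rw [leadingCoeff, hp.deg k]
  have key : (p n).leadingCoeff = rc μ p n * (p (n+1)).leadingCoeff := by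
    cases n with
    | zero =>
      have h := congrArg (fun q => q.coeff 1) (three_term_zero hs hp hsym)
      simp only [coeff_C_mul] at h
      rw [coeff_X_mul, hc, hc] at h
      exact h
    | succ n =>
      have h := congrArg (fun q => q.coeff (n+2)) (three_term hs hp hsym n)
      simp only [coeff_C_mul, coeff_add] at h
      rw [coeff_X_mul, hc, hc] at h
      have h2 : (p n).coeff (n+2) = 0 := coeff_eq_zero_of_natDegree_lt (by rw [hp.deg]; omega)
      rw [h2] at h
      linarith
  by_contra hneg
  push Not at hneg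
  have := hp.lc n
  have := hp.lc (n+1)
  nlinarith

/-- second moment matrix, diagonal -/
lemma ip_X2 (q r : ℝ[X]) : ip μ (X * (X * q)) r = ip μ (X * q) (X * r) := by
  rw [ip_X]

include hs hp hsym in
lemma sq_diag_zero : ip μ (X * p 0) (X * p 0) = rc μ p 0 ^ 2 := by
  have hon : ∀ a b : ℕ, ip μ (p a) (p b) = if a = b then 1 else 0 := hp.on
  rw [three_term_zero hs hp hsym, ip_smul, ip_comm, ip_smul, hon, if_pos rfl]
  ring

include hs hp hsym in
lemma sq_diag (n : ℕ) : ip μ (X * p (n+1)) (X * p (n+1)) = rc μ p (n+1) ^ 2 + rc μ p n ^ 2 := by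
  have hon : ∀ a b : ℕ, ip μ (p a) (p b) = if a = b then 1 else 0 := hp.on
  conv_lhs => rw [three_term hs hp hsym n]
  rw [ip_add hs, ip_smul, ip_smul, ip_comm (p (n+2)), ip_comm (p n), ip_add hs, ip_add hs,
    ip_smul, ip_smul, ip_smul, ip_smul, hon, hon, hon, hon]
  rw [if_pos rfl, if_pos rfl, if_neg (by omega), if_neg (by omega)]
  ring

include hs hp hsym in
lemma sq_off (n : ℕ) : ip μ (X * p n) (X * p (n+2)) = rc μ p n * rc μ p (n+1) := by
  have hon : ∀ a b : ℕ, ip μ (p a) (p b) = if a = b then 1 else 0 := hp.on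
  rw [ip_comm, three_term hs hp hsym (n+1), ip_add hs, ip_smul, ip_smul, ip_comm (p (n+1+2)),
    ip_comm (p (n+1))]
  have h0 : ip μ (p (n+1+2)) (X * p n) = 0 := by
    rw [← ip_X]
    exact orth_far hs hp (by omega)
  have h1 : ip μ (p (n+1)) (X * p n) = rc μ p n := by
    unfold rc
    rw [ip_comm]
  have h2 : ip μ (p (n+1+2)) (X * p n) = 0 := h0
  rw [ip_comm (X * p n), ip_comm (X * p n), h2, h1]
  ring

include hs hp hsym in
lemma even_expand (n : ℕ) : expand ℝ 2 (contract 2 (p (2*n))) = p (2*n) := by
  have h := parity hs hp hsym (2*n)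
  ext k
  rw [coeff_expand (by norm_num), coeff_contract (by norm_num)]
  split_ifs with hk
  · rw [Nat.div_mul_cancel hk]
  · have h2 := congrArg (fun q => q.coeff k) h
    simp only [coeff_C_mul] at h2
    have h3 : (-X : ℝ[X]) = C (-1) * X := by simp
    rw [h3, comp_C_mul_X_coeff, pow_mul] at h2
    have hodd : Odd k := by
      rw [← Nat.not_even_iff_odd, even_iff_two_dvd]; exact hk
    rw [hodd.neg_one_pow] at h2
    simp at h2
    linarith

end

/-- next-level polynomials -/
noncomputable def nxt (g : ℝ) (p : ℕ → ℝ[X]) (n : ℕ) : ℝ[X] :=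
  (contract 2 (p (2*n))).comp (C (2*g) * X + C (1 - 2*g))

section
variable {μ : Measure ℝ} [IsProbabilityMeasure μ] (hs : ∀ᵐ x ∂μ, |x| ≤ 1)
variable {p : ℕ → ℝ[X]} (hp : OP μ p) (hsym : μ.map (fun x => -x) = μ)
variable {g : ℝ} (hg : 0 < g)

include hs hp hsym hg in
lemma nxt_eval (n : ℕ) (x : ℝ) : (nxt g p n).eval (fg g x) = (p (2*n)).eval x := by
  unfold nxt
  rw [eval_comp]
  have h1 : eval (fg g x) (C (2*g) * X + C (1 - 2*g)) = x^2 := by
    simp only [eval_add, eval_mul, eval_C, eval_X]
    unfold fg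
    field_simp
    ring
  rw [h1]
  conv_rhs => rw [← even_expand hs hp hsym n]
  rw [expand_eval]

include hs hp hsym hg in
lemma nxt_OP : OP (μ.map (fg g)) (nxt g p) := by
  have h2g : (2 * g) ≠ 0 := by positivity
  have hdeg : ∀ n, (contract 2 (p (2*n))).natDegree = n := by
    intro n
    have h1 := natDegree_expand 2 (contract 2 (p (2*n)))
    rw [even_expand hs hp hsym n, hp.deg] at h1
    omega
  have hlc : ∀ n, (contract 2 (p (2*n))).leadingCoeff = (p (2*n)).leadingCoeff := by
    intro n
    conv_rhs => rw [← even_expand hs hp hsym n]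
    rw [leadingCoeff_expand (by norm_num)]
  refine ⟨?_, ?_, ?_⟩
  · intro n
    unfold nxt
    rw [natDegree_comp, hdeg, natDegree_linear h2g, mul_one]
  · intro n
    unfold nxt
    rw [leadingCoeff_comp (by rw [natDegree_linear h2g]; norm_num), leadingCoeff_linear h2g, hlc, hdeg]
    have := hp.lc (2*n)
    positivity
  · intro m n
    have hc : Continuous (fun x => (nxt g p m).eval x * (nxt g p n).eval x) :=
      (nxt g p m).continuous.mul (nxt g p n).continuous
    rw [integral_map (measurable_fg g).aemeasurable hc.aestronglyMeasurable]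
    simp_rw [nxt_eval hs hp hsym hg]
    rw [hp.on]
    simp

include hs hp hsym hg in
lemma nxt_rc (n : ℕ) : 2 * g * rc (μ.map (fg g)) (nxt g p) n = rc μ p (2*n) * rc μ p (2*n+1) := by
  rw [← sq_off hs hp hsym (2*n)]
  have h1 : ip μ (X * p (2*n)) (X * p (2*n+2))
      = ∫ x, (2 * g * fg g x + (1 - 2*g)) * ((p (2*n)).eval x * (p (2*(n+1))).eval x) ∂μ := by
    unfold ip
    apply integral_congr_ae
    apply Eventually.of_forall
    intro x
    have : 2 * g * fg g x + (1 - 2*g) = x^2 := by unfold fg; field_simp; ring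
    simp only [this, eval_mul, eval_X]
    rw [show 2 * n + 2 = 2 * (n+1) by ring]
    ring
  rw [h1]
  have h2 : ∫ x, (2 * g * fg g x + (1 - 2*g)) * ((p (2*n)).eval x * (p (2*(n+1))).eval x) ∂μ
      = ∫ x, (2 * g * (fg g x * (nxt g p n).eval (fg g x) * (nxt g p (n+1)).eval (fg g x))
        + (1 - 2*g) * ((p (2*n)).eval x * (p (2*(n+1))).eval x)) ∂μ := by
    apply integral_congr_ae
    apply Eventually.of_forall
    intro x
    simp only [nxt_eval hs hp hsym hg]
    ring
  have i1 : Integrable (fun x => (1 - 2*g) * ((p (2*n)).eval x * (p (2*(n+1))).eval x)) μ :=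
    (integrable_mul hs _ _).const_mul _
  have i2 : Integrable (fun x => 2 * g * (fg g x * (nxt g p n).eval (fg g x) * (nxt g p (n+1)).eval (fg g x))) μ := by
    have h3 := integrable_poly hs ((C (2*g)) * ((C (1/(2*g)) * (X^2 - 1) + 1) * p (2*n) * p (2*(n+1))))
    refine h3.congr ?_
    apply Eventually.of_forall
    intro x
    simp only [nxt_eval hs hp hsym hg]
    simp only [eval_mul, eval_add, eval_sub, eval_pow, eval_X, eval_C, eval_one]
    unfold fg
    ring
  rw [h2, integral_add i2 i1, integral_const_mul, integral_const_mul, hp.on, if_neg (by omega)]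
  have h4 : ∫ x, (fg g x * (nxt g p n).eval (fg g x) * (nxt g p (n+1)).eval (fg g x)) ∂μ
      = rc (μ.map (fg g)) (nxt g p) n := by
    unfold rc ip
    rw [integral_map (measurable_fg g).aemeasurable
      (((X * nxt g p n).continuous.mul (nxt g p (n+1)).continuous).aestronglyMeasurable)]
    simp only [eval_mul, eval_X]
  rw [h4]
  ring

include hs hp hsym hg in
lemma second_moment (n : ℕ) (hs' : ∀ᵐ x ∂(μ.map (fg g)), |x| ≤ 1)
    (hsym' : (μ.map (fg g)).map (fun x => -x) = μ.map (fg g)) :
    ip μ (X * p (2*n)) (X * p (2*n)) = 1 - 2 * g := by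
  have hprob : IsProbabilityMeasure (μ.map (fg g)) :=
    Measure.isProbabilityMeasure_map (measurable_fg g).aemeasurable
  have h1 : ip μ (X * p (2*n)) (X * p (2*n))
      = ∫ x, (2 * g * (fg g x * (nxt g p n).eval (fg g x) * (nxt g p n).eval (fg g x))
        + (1 - 2*g) * ((p (2*n)).eval x * (p (2*n)).eval x)) ∂μ := by
    unfold ip
    apply integral_congr_ae
    apply Eventually.of_forall
    intro x
    simp only [nxt_eval hs hp hsym hg]
    have : 2 * g * fg g x + (1 - 2*g) = x^2 := by unfold fg; field_simp; ring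
    simp only [eval_mul, eval_X]
    linear_combination (-(eval x (p (2*n))) * eval x (p (2*n))) * this
  have i1 : Integrable (fun x => (1 - 2*g) * ((p (2*n)).eval x * (p (2*n)).eval x)) μ :=
    (integrable_mul hs _ _).const_mul _
  have i2 : Integrable (fun x => 2 * g * (fg g x * (nxt g p n).eval (fg g x) * (nxt g p n).eval (fg g x))) μ := by
    have h3 := integrable_poly hs ((C (2*g)) * ((C (1/(2*g)) * (X^2 - 1) + 1) * p (2*n) * p (2*n)))
    refine h3.congr ?_
    apply Eventually.of_forall
    intro x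
    simp only [nxt_eval hs hp hsym hg]
    simp only [eval_mul, eval_add, eval_sub, eval_pow, eval_X, eval_C, eval_one]
    unfold fg
    ring
  rw [h1, integral_add i2 i1, integral_const_mul, integral_const_mul, hp.on, if_pos rfl]
  have h4 : ∫ x, (fg g x * (nxt g p n).eval (fg g x) * (nxt g p n).eval (fg g x)) ∂μ
      = ip (μ.map (fg g)) (X * nxt g p n) (nxt g p n) := by
    unfold ip
    rw [integral_map (measurable_fg g).aemeasurable
      (((X * nxt g p n).continuous.mul (nxt g p n).continuous).aestronglyMeasurable)]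
    simp only [eval_mul, eval_X]
  rw [h4, diag_zero hs' (nxt_OP hs hp hsym hg) hsym']
  ring

end

/-- level measures -/
noncomputable def Mlev (γ : ℕ → ℝ) (μ : Measure ℝ) : ℕ → Measure ℝ
  | 0 => μ
  | (s+1) => (Mlev γ μ s).map (fg (γ s))

/-- level polynomials -/
noncomputable def Plev (γ : ℕ → ℝ) (p : ℕ → ℝ[X]) : ℕ → ℕ → ℝ[X]
  | 0 => p
  | (s+1) => nxt (γ s) (Plev γ p s)

lemma lev_all (γ : ℕ → ℝ) (hγ : ∀ k, 0 < γ k ∧ γ k < 1/4) (μ : Measure ℝ) (hμ : IsEq γ μ)
    (p : ℕ → ℝ[X]) (hp : OP μ p) (s : ℕ) :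
    IsEq (fun k => γ (s + k)) (Mlev γ μ s) ∧ OP (Mlev γ μ s) (Plev γ p s) := by
  induction s with
  | zero => simpa [Mlev, Plev] using ⟨hμ, hp⟩
  | succ s ih =>
    obtain ⟨h1, h2⟩ := ih
    have hprob := h1.prob
    refine ⟨?_, ?_⟩
    · rw [Mlev]
      have := h1.step (hγ (s+0)).1 (hγ (s+0)).2
      simp only [add_zero] at this
      convert this using 2
      ring_nf
    · rw [Mlev, Plev]
      exact nxt_OP (ae_le_one h1.supp) h2 h1.symm (hγ s).1

/-- The array of squared coefficients on all levels. -/
theorem exists_alpha (γ : ℕ → ℝ) (hγ : ∀ k, 0 < γ k ∧ γ k < 1/4) (μ : Measure ℝ) (hμ : IsEq γ μ)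
    (p : ℕ → ℝ[X]) (hp : OP μ p) :
    ∃ α : ℕ → ℕ → ℝ, (∀ s, α s 0 = 0) ∧ (∀ s n, 0 < α s (n+1)) ∧
      (∀ s n, α s (2*n) + α s (2*n+1) = 1 - 2 * γ s) ∧
      (∀ s n, α s (2*n+1) * α s (2*n+2) = 4 * γ s ^ 2 * α (s+1) (n+1)) ∧
      (∀ n, α 0 (n+1) = rc μ p n ^ 2) := by
  refine ⟨fun s n => if n = 0 then 0 else rc (Mlev γ μ s) (Plev γ p s) (n-1) ^ 2, ?_, ?_, ?_, ?_, ?_⟩
  · intro s; simp
  · intro s n
    obtain ⟨h1, h2⟩ := lev_all γ hγ μ hμ p hp s
    have hprob := h1.prob
    have := rc_pos (ae_le_one h1.supp) h2 h1.symm n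
    simp only [Nat.add_eq_zero_iff, one_ne_zero, and_false, if_false, Nat.add_sub_cancel]
    positivity
  · intro s n
    obtain ⟨h1, h2⟩ := lev_all γ hγ μ hμ p hp s
    obtain ⟨h3, h4⟩ := lev_all γ hγ μ hμ p hp (s+1)
    have hprob := h1.prob
    have hs' := ae_le_one h3.supp
    have hsym' := h3.symm
    rw [Mlev] at hs' hsym'
    have h5 := second_moment (ae_le_one h1.supp) h2 h1.symm (hγ s).1 n hs' hsym'
    rw [← h5]
    cases n with
    | zero =>
      simp only [mul_zero, if_true, zero_add, one_ne_zero, if_false]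
      rw [sq_diag_zero (ae_le_one h1.supp) h2 h1.symm]
    | succ n =>
      have h6 := sq_diag (ae_le_one h1.supp) h2 h1.symm (2*n+1)
      have e1 : 2 * (n+1) = 2 * n + 1 + 1 := by ring
      rw [e1, h6]
      simp only [Nat.add_eq_zero_iff, one_ne_zero, and_false, if_false, Nat.add_sub_cancel]
      ring
  · intro s n
    obtain ⟨h1, h2⟩ := lev_all γ hγ μ hμ p hp s
    have hprob := h1.prob
    have h5 := nxt_rc (ae_le_one h1.supp) h2 h1.symm (hγ s).1 n
    simp only [Nat.add_eq_zero_iff, one_ne_zero, and_false, if_false, Nat.add_sub_cancel]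
    rw [show 2 * n + 2 - 1 = 2 * n + 1 by omega, if_neg (by omega), ← mul_pow, ← h5, Mlev, Plev]
    ring
  · intro n
    simp [Mlev, Plev]

end Pool.Agent.CK
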