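import Mathlib
import Pool.Agent.CK.OPoly

set_option autoImplicit false
open MeasureTheory Filter Topology Set Polynomial

namespace Pool.Agent.CK

/-- Uniform 2-adic Cauchy criterion for a sequence. -/
def Crit (A : ℕ → ℝ) : Prop :=
  ∀ ε : ℝ, 0 < ε → ∃ k N : ℕ, ∀ n n' : ℕ, N ≤ n → N ≤ n' → n % 2^k = n' % 2^k → |A n - A n'| ≤ ε

/-- Bohr almost periodicity of a two-sided sequence. -/
def BohrAP (c : ℤ → ℝ) : Prop :=
  ∀ ε : ℝ, 0 < ε → ∃ L : ℕ, ∀ m : ℤ, ∃ τ : ℤ, m ≤ τ ∧ τ ≤ m + L ∧ ∀ n : ℤ, |c (n + τ) - c n| < ε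

/-- representative of an integer modulo `2^j` in `[2^j, 2^(j+1))`. -/
def repj (n : ℤ) (j : ℕ) : ℕ := (n % (2^j : ℤ)).toNat + 2^j

lemma repj_cast (n : ℤ) (j : ℕ) : ((repj n j : ℕ) : ℤ) = n % (2^j : ℤ) + 2^j := by
  unfold repj
  push_cast
  rw [Int.toNat_of_nonneg (Int.emod_nonneg _ (by positivity))]

lemma repj_ge (n : ℤ) (j : ℕ) : j ≤ repj n j := by
  unfold repj
  have := Nat.lt_two_pow_self (n := j)
  omega

lemma repj_mod (n n' : ℤ) (j j' k : ℕ) (hj : k ≤ j) (hj' : k ≤ j') (h : (2^k : ℤ) ∣ n - n') :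
    repj n j % 2^k = repj n' j' % 2^k := by
  have key : ∀ (m : ℤ) (i : ℕ), k ≤ i → (2^k : ℤ) ∣ (repj m i : ℤ) - m := by
    intro m i hi
    rw [repj_cast]
    have h1 : (2^k : ℤ) ∣ 2^i := pow_dvd_pow 2 hi
    have h2 : (2^i : ℤ) ∣ m % 2^i - m := by
      have := Int.emod_add_mul_ediv m (2^i)
      exact ⟨-(m / 2^i), by linarith⟩
    have h3 := dvd_trans h1 h2
    have : m % 2^i + 2^i - m = (m % 2^i - m) + 2^i := by ring
    rw [this]
    exact dvd_add h3 h1
  have h1 := key n j hj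
  have h2 := key n' j' hj'
  have h3 : (2^k : ℤ) ∣ (repj n j : ℤ) - (repj n' j' : ℤ) := by
    have : (repj n j : ℤ) - (repj n' j' : ℤ) = ((repj n j : ℤ) - n) + (n - n') - ((repj n' j' : ℤ) - n') := by
      ring
    rw [this]
    exact dvd_sub (dvd_add h1 h) h2
  have h4 : ((2^k : ℕ) : ℤ) ∣ ((repj n j : ℕ) : ℤ) - ((repj n' j' : ℕ) : ℤ) := by
    push_cast; exact h3
  exact (Nat.modEq_iff_dvd.mpr (by
    have := dvd_neg.mpr h4
    simpa using this))

lemma nat_repj_mod (n : ℕ) (j k : ℕ) (hj : k ≤ j) : n % 2^k = repj (n:ℤ) j % 2^k := by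
  unfold repj
  have h1 : ((n : ℤ) % (2^j : ℤ)).toNat = n % 2^j := by
    have : ((n : ℤ) % (2^j : ℤ)) = ((n % 2^j : ℕ) : ℤ) := by push_cast; rfl
    rw [this]; exact Int.toNat_natCast _
  rw [h1]
  have h2 : 2^k ∣ 2^j := pow_dvd_pow 2 hj
  rw [Nat.add_mod, Nat.mod_mod_of_dvd _ h2, Nat.mod_eq_zero_of_dvd h2]
  simp

theorem crit_AAP (A : ℕ → ℝ) (hA : Crit A) :
    ∃ c : ℤ → ℝ, BohrAP c ∧ Tendsto (fun n : ℕ => A n - c n) atTop (𝓝 0) := by
  have hlim : ∀ n : ℤ, ∃ l : ℝ, Tendsto (fun j => A (repj n j)) atTop (𝓝 l) := by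
    intro n
    apply cauchySeq_tendsto_of_complete
    rw [Metric.cauchySeq_iff]
    intro ε hε
    obtain ⟨k, N, h⟩ := hA (ε/2) (by positivity)
    refine ⟨max k N, fun i hi j hj => ?_⟩
    have h1 := h (repj n i) (repj n j) (le_trans (le_trans (le_max_right k N) hi) (repj_ge n i))
      (le_trans (le_trans (le_max_right k N) hj) (repj_ge n j))
      (repj_mod n n i j k (le_trans (le_max_left k N) hi) (le_trans (le_max_left k N) hj) (by simp))
    rw [Real.dist_eq]
    linarith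
  choose c hc using hlim
  have hnear : ∀ ε : ℝ, 0 < ε → ∃ k N : ℕ, (∀ n n' : ℤ, (2^k : ℤ) ∣ n - n' → |c n - c n'| ≤ ε) ∧
      ∀ n : ℕ, N ≤ n → |A n - c n| ≤ ε := by
    intro ε hε
    obtain ⟨k, N, h⟩ := hA ε hε
    refine ⟨k, N, ?_, ?_⟩
    · intro n n' hnn
      have h1 : Tendsto (fun j => |A (repj n j) - A (repj n' j)|) atTop (𝓝 |c n - c n'|) :=
        ((hc n).sub (hc n')).abs
      apply le_of_tendsto h1
      filter_upwards [eventually_ge_atTop (max k N)] with j hj
      exact h _ _ (le_trans (le_trans (le_max_right k N) hj) (repj_ge n j))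
        (le_trans (le_trans (le_max_right k N) hj) (repj_ge n' j))
        (repj_mod n n' j j k (le_trans (le_max_left k N) hj) (le_trans (le_max_left k N) hj) hnn)
    · intro n hn
      have h1 : Tendsto (fun j => |A n - A (repj (n:ℤ) j)|) atTop (𝓝 |A n - c n|) :=
        (tendsto_const_nhds.sub (hc n)).abs
      apply le_of_tendsto h1
      filter_upwards [eventually_ge_atTop (max k N)] with j hj
      exact h _ _ hn (le_trans (le_trans (le_max_right k N) hj) (repj_ge _ j))
        (nat_repj_mod n j k (le_trans (le_max_left k N) hj))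
  refine ⟨c, ?_, ?_⟩
  · intro ε hε
    obtain ⟨k, N, h1, h2⟩ := hnear (ε/2) (by positivity)
    refine ⟨2^k, fun m => ?_⟩
    refine ⟨m + 2^k - m % 2^k, ?_, ?_, ?_⟩
    · have := Int.emod_lt_of_pos m (by positivity : (0:ℤ) < 2^k)
      linarith
    · have := Int.emod_nonneg m (by positivity : (2^k:ℤ) ≠ 0)
      push_cast
      linarith
    · intro n
      have := h1 (n + (m + 2^k - m % 2^k)) n (by
        have h3 := Int.emod_add_mul_ediv m (2^k)
        refine ⟨m / 2^k + 1, ?_⟩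
        linarith)
      linarith
  · rw [Metric.tendsto_atTop]
    intro ε hε
    obtain ⟨k, N, h1, h2⟩ := hnear (ε/2) (by positivity)
    refine ⟨N, fun n hn => ?_⟩
    rw [Real.dist_eq, sub_zero]
    have := h2 n hn
    linarith

lemma bohr_const (x : ℝ) : BohrAP (fun _ => x) := by
  intro ε hε
  refine ⟨0, fun m => ⟨m, le_rfl, by simp, fun n => by simpa using hε⟩⟩

lemma crit_sqrt (α : ℕ → ℝ) (h : Crit α) (hpos : ∀ n, 0 ≤ α n) :
    Crit (fun n => 1/2 * Real.sqrt (α (n+1))) := by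
  intro ε hε
  obtain ⟨k, N, h⟩ := h (ε^2) (by positivity)
  refine ⟨k, N, fun n n' hn hn' hnn => ?_⟩
  have h1 := h (n+1) (n'+1) (by omega) (by omega) (Nat.ModEq.add_right 1 hnn)
  have h2 : |Real.sqrt (α (n+1)) - Real.sqrt (α (n'+1))| ≤ ε := by
    apply abs_le_of_sq_le_sq _ hε.le
    have a1 := Real.sqrt_nonneg (α (n+1))
    have a2 := Real.sqrt_nonneg (α (n'+1))
    have b1 := Real.sq_sqrt (hpos (n+1))
    have b2 := Real.sq_sqrt (hpos (n'+1))
    set u := Real.sqrt (α (n+1))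
    set v := Real.sqrt (α (n'+1))
    rw [← b1, ← b2] at h1
    have h3 := abs_le.mp h1
    rcases le_total u v with huv | huv
    · nlinarith
    · nlinarith
  have : 1/2 * Real.sqrt (α (n+1)) - 1/2 * Real.sqrt (α (n'+1))
      = 1/2 * (Real.sqrt (α (n+1)) - Real.sqrt (α (n'+1))) := by ring
  rw [this, abs_mul, abs_of_pos (by norm_num : (0:ℝ) < 1/2)]
  linarith

/-- array hypotheses -/
structure Arr (γ : ℕ → ℝ) (α : ℕ → ℕ → ℝ) : Prop where
  zero : ∀ s, α s 0 = 0
  pos : ∀ s n, 0 < α s (n+1)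
  add : ∀ s n, α s (2*n) + α s (2*n+1) = 1 - 2 * γ s
  mul : ∀ s n, α s (2*n+1) * α s (2*n+2) = 4 * γ s ^ 2 * α (s+1) (n+1)

theorem reduction (γ : ℕ → ℝ) (hγ : ∀ k, 0 < γ k ∧ γ k < 1/4)
    (hcrit : ∀ α : ℕ → ℕ → ℝ, Arr γ α → Crit (α 0))
    (μ : Measure ℝ) [IsProbabilityMeasure μ]
    (hs : μ (Kf γ) = 0) (hfin : Ef μ < ⊤)
    (hmin : ∀ ν : Measure ℝ, IsProbabilityMeasure ν → ν (Kf γ) = 0 → Ef μ ≤ Ef ν)
    (p : ℕ → ℝ[X]) (hp : ∀ n, (p n).natDegree = n ∧ 0 < (p n).leadingCoeff)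
    (hon : ∀ m n, ∫ x, (p m).eval x * (p n).eval x ∂μ = if m = n then 1 else 0) :
    ∃ c d : ℤ → ℝ, BohrAP c ∧ BohrAP d ∧
      Tendsto (fun n : ℕ => (∫ x, x * (p n).eval x * (p (n + 1)).eval x ∂μ) - c n) atTop (𝓝 0) ∧
      Tendsto (fun n : ℕ => (∫ x, x * (p n).eval x * (p n).eval x ∂μ) - d n) atTop (𝓝 0) := by
  have hE := isEq_of_frozen γ (hγ 0).1 μ hs hfin hmin
  set ν := μ.map (fun x => 2 * x - 1) with hν
  have hνp : IsProbabilityMeasure ν := hE.prob
  have hm : Measurable (fun x : ℝ => 2 * x - 1) := by fun_prop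
  let q : ℕ → ℝ[X] := fun n => (p n).comp (C (1/2) * X + C (1/2))
  have hqe : ∀ n x, (q n).eval (2 * x - 1) = (p n).eval x := by
    intro n x
    simp only [q, eval_comp, eval_add, eval_mul, eval_C, eval_X]
    congr 1
    ring
  have hq : OP ν q := by
    refine ⟨?_, ?_, ?_⟩
    · intro n
      simp only [q]
      rw [natDegree_comp, natDegree_linear (by norm_num), (hp n).1, mul_one]
    · intro n
      simp only [q]
      rw [leadingCoeff_comp (by rw [natDegree_linear (by norm_num)]; norm_num),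
        leadingCoeff_linear (by norm_num)]
      have := (hp n).2
      positivity
    · intro m n
      have hc : Continuous (fun x => (q m).eval x * (q n).eval x) :=
        (q m).continuous.mul (q n).continuous
      rw [hν, integral_map hm.aemeasurable hc.aestronglyMeasurable]
      simp_rw [hqe]
      exact hon m n
  obtain ⟨α, h0, h1, h2, h3, h4⟩ := exists_alpha γ hγ ν hE q hq
  have hsup := ae_le_one hE.supp
  have hsupμ : ∀ᵐ x ∂μ, |2 * x - 1| ≤ 1 := by
    have := hsup
    rw [hν] at this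
    exact (ae_map_iff hm.aemeasurable (measurableSet_le (by fun_prop) (by fun_prop))).mp this
  have hint : ∀ r : ℝ[X], Integrable (fun x => r.eval x) μ := by
    intro r
    obtain ⟨Cb, hC⟩ := (isCompact_Icc (a := (0:ℝ)) (b := 1)).exists_bound_of_continuousOn
      r.continuous.continuousOn
    apply Integrable.of_bound r.continuous.aestronglyMeasurable Cb
    filter_upwards [hsupμ] with x hx
    have := abs_le.mp hx
    exact hC x ⟨by linarith [this.1], by linarith [this.2]⟩
  have hgen : ∀ m n, ∫ x, x * (p m).eval x * (p n).eval x ∂μ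
      = 1/2 * ip ν (X * q m) (q n) + 1/2 * (if m = n then 1 else 0) := by
    intro m n
    have e1 : ip ν (X * q m) (q n) = ∫ x, (2 * x - 1) * (p m).eval x * (p n).eval x ∂μ := by
      unfold ip
      have hc : Continuous (fun x => (X * q m).eval x * (q n).eval x) :=
        (X * q m).continuous.mul (q n).continuous
      rw [hν, integral_map hm.aemeasurable hc.aestronglyMeasurable]
      simp only [eval_mul, eval_X, hqe]
    have i1 : Integrable (fun x => x * (p m).eval x * (p n).eval x) μ := by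
      refine (hint (X * p m * p n)).congr (Eventually.of_forall fun x => ?_)
      simp only [eval_mul, eval_X]
    have i2 : Integrable (fun x => (p m).eval x * (p n).eval x) μ := by
      refine (hint (p m * p n)).congr (Eventually.of_forall fun x => ?_)
      simp only [eval_mul]
    rw [e1, ← hon m n, ← integral_const_mul, ← integral_const_mul, ← integral_add]
    · congr 1
      ext x
      ring
    · have : Integrable (fun x => 2 * (x * (p m).eval x * (p n).eval x) - (p m).eval x * (p n).eval x) μ :=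
        (i1.const_mul 2).sub i2
      have h5 : Integrable (fun x => (2 * x - 1) * (p m).eval x * (p n).eval x) μ := by
        refine this.congr (Eventually.of_forall fun x => ?_)
        simp only
        ring
      exact h5.const_mul _
    · exact i2.const_mul _
  have hpos : ∀ n, 0 ≤ α 0 n := by
    intro n
    cases n with
    | zero => rw [h0]
    | succ n => exact (h1 0 n).le
  have hcr := crit_sqrt (α 0) (hcrit α ⟨h0, h1, h2, h3⟩) hpos
  obtain ⟨c, hc1, hc2⟩ := crit_AAP _ hcr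
  refine ⟨c, fun _ => 1/2, hc1, bohr_const _, ?_, ?_⟩
  · have : ∀ n : ℕ, (∫ x, x * (p n).eval x * (p (n + 1)).eval x ∂μ) = 1/2 * Real.sqrt (α 0 (n+1)) := by
      intro n
      rw [hgen, if_neg (by omega), h4, Real.sqrt_sq (rc_pos hsup hq hE.symm n).le]
      unfold rc
      ring
    simp_rw [this]
    exact hc2
  · have : ∀ n : ℕ, (∫ x, x * (p n).eval x * (p n).eval x ∂μ) = 1/2 := by
      intro n
      rw [hgen, if_pos rfl, diag_zero hsup hq hE.symm]
      ring
    simp_rw [this]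
    simp

end Pool.Agent.CK
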