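import Mathlib
import Pool.Agent.CK.Reduce

set_option autoImplicit false
open Filter Topology Set

namespace Pool.Agent.CK

/-- `-f(0)` -/
noncomputable def wg (g : ℝ) : ℝ := (1 - 2 * g) / (2 * g)

/-- ratios `P_{n+1}/(z P_n)` on level `s` -/
noncomputable def UU (α : ℕ → ℕ → ℝ) (s : ℕ) : ℕ → ℝ → ℝ
  | 0, _ => 1
  | (n+1), z => 1 - α s (n+1) / (z ^ 2 * UU α s n z)

lemma two_g_w (g : ℝ) (hg : 0 < g) : 2 * g * wg g = 1 - 2 * g := by
  unfold wg; field_simp

lemma w_gt (g : ℝ) (hg : 0 < g) (hg1 : g < 1/4) : 1 < wg g := by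
  unfold wg
  rw [lt_div_iff₀ (by positivity)]
  linarith

lemma f_ge (g z : ℝ) (hg : 0 < g) (hz : 1 ≤ z) : 1 ≤ fg g z := by
  unfold fg
  have : 0 ≤ (z ^ 2 - 1) / (2 * g) := by
    apply div_nonneg _ (by positivity)
    nlinarith
  linarith

lemma sq_eq (g z : ℝ) (hg : 0 < g) : z ^ 2 = (1 - 2 * g) + 2 * g * fg g z := by
  unfold fg; field_simp; ring

lemma f_mono (g z z' : ℝ) (hg : 0 < g) (hz : 1 ≤ z) (hzz : z ≤ z') : fg g z ≤ fg g z' := by
  unfold fg
  have : (z ^ 2 - 1) / (2 * g) ≤ (z' ^ 2 - 1) / (2 * g) := by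
    apply div_le_div_of_nonneg_right _ (by positivity)
    nlinarith
  linarith

section
variable {γ : ℕ → ℝ} {α : ℕ → ℕ → ℝ} (hγ : ∀ k, 0 < γ k ∧ γ k < 1/4) (hα : Arr γ α)

/-- statement at index `m` -/
def Stm (γ : ℕ → ℝ) (α : ℕ → ℕ → ℝ) (m : ℕ) : Prop :=
  ∀ s, α s (2*m+1) = (1 - 2 * γ s) * UU α (s+1) m (wg (γ s)) ∧ ∀ z : ℝ, 1 ≤ z →
    (z ^ 2 * UU α s (2*m) z = (1 - 2 * γ s) * UU α (s+1) m (wg (γ s))
      + 2 * γ s * fg (γ s) z * UU α (s+1) m (fg (γ s) z)) ∧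
    (UU α s (2*m+1) z = fg (γ s) z * UU α (s+1) m (fg (γ s) z) /
      (wg (γ s) * UU α (s+1) m (wg (γ s)) + fg (γ s) z * UU α (s+1) m (fg (γ s) z))) ∧
    0 < UU α s (2*m) z ∧ 0 < UU α s (2*m+1) z

lemma pos_of_stm {m : ℕ} (h : ∀ q, q ≤ m → Stm γ α q) (j : ℕ) (hj : j ≤ 2*m+1) (s : ℕ) (z : ℝ)
    (hz : 1 ≤ z) : 0 < UU α s j z := by
  rcases Nat.even_or_odd' j with ⟨q, hq | hq⟩
  · rw [hq]
    exact ((h q (by omega) s).2 z hz).2.2.1
  · rw [hq]
    exact ((h q (by omega) s).2 z hz).2.2.2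

include hγ hα in
lemma stm_zero : Stm γ α 0 := by
  intro s
  obtain ⟨hg, hg1⟩ := hγ s
  have hA : α s (2*0+1) = (1 - 2 * γ s) * UU α (s+1) 0 (wg (γ s)) := by
    have h1 := hα.add s 0
    have h2 := hα.zero s
    simp only [mul_zero, zero_add] at h1 ⊢
    rw [h2] at h1
    simp only [UU]
    linarith
  refine ⟨hA, fun z hz => ?_⟩
  have hf := f_ge (γ s) z hg hz
  have hw := w_gt (γ s) hg hg1
  have hsq := sq_eq (γ s) z hg
  have htw := two_g_w (γ s) hg
  have hodd : UU α s (2*0+1) z = fg (γ s) z * UU α (s+1) 0 (fg (γ s) z) /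
      (wg (γ s) * UU α (s+1) 0 (wg (γ s)) + fg (γ s) z * UU α (s+1) 0 (fg (γ s) z)) := by
    simp only [mul_zero, zero_add, UU, mul_one] at hA ⊢
    rw [hA, eq_div_iff (by linarith : wg (γ s) + fg (γ s) z ≠ 0)]
    have hz2 : z ^ 2 ≠ 0 := by positivity
    have e : z ^ 2 = 2 * γ s * (wg (γ s) + fg (γ s) z) := by rw [hsq]; linarith
    have hne : wg (γ s) + fg (γ s) z ≠ 0 := by linarith
    rw [e, ← htw]
    field_simp
    ring
  refine ⟨?_, hodd, ?_, ?_⟩
  · simp only [mul_zero, UU, mul_one]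
    linarith
  · simp only [mul_zero, UU]; norm_num
  · rw [hodd]
    simp only [UU, mul_one]
    apply div_pos <;> linarith

include hγ hα in
lemma stm_succ (m : ℕ) (h : ∀ q, q ≤ m → Stm γ α q) : Stm γ α (m+1) := by
  intro s
  obtain ⟨hg, hg1⟩ := hγ s
  have hw := w_gt (γ s) hg hg1
  have htw := two_g_w (γ s) hg
  set g := γ s with hgdef
  set w := wg g with hwdef
  obtain ⟨hA, hEO⟩ := h m le_rfl s
  rw [← hgdef, ← hwdef] at hA
  have pw : 0 < UU α (s+1) m w := pos_of_stm h m (by omega) (s+1) w hw.le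
  have pw1 : 0 < UU α (s+1) (m+1) w := pos_of_stm h (m+1) (by omega) (s+1) w hw.le
  have dw : UU α (s+1) (m+1) w = 1 - α (s+1) (m+1) / (w ^ 2 * UU α (s+1) m w) := rfl
  have hα1 : α (s+1) (m+1) = w ^ 2 * UU α (s+1) m w * (1 - UU α (s+1) (m+1) w) := by
    rw [dw]
    have : w ^ 2 * UU α (s+1) m w ≠ 0 := by positivity
    field_simp
    ring
  have h12 : 0 < 1 - 2 * g := by linarith
  have hmul := hα.mul s m
  rw [hA, hα1, ← hgdef] at hmul
  have hα2 : α s (2*m+2) = (1 - 2 * g) * (1 - UU α (s+1) (m+1) w) := by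
    have hne : (1 - 2 * g) * UU α (s+1) m w ≠ 0 := by positivity
    apply mul_left_cancel₀ hne
    rw [hmul]
    have : 4 * g ^ 2 * w ^ 2 = (1 - 2 * g) ^ 2 := by rw [← htw]; ring
    calc 4 * g ^ 2 * (w ^ 2 * UU α (s+1) m w * (1 - UU α (s+1) (m+1) w))
        = (4 * g ^ 2 * w ^ 2) * (UU α (s+1) m w * (1 - UU α (s+1) (m+1) w)) := by ring
      _ = _ := by rw [this]; ring
  have hα3 : α s (2*(m+1)+1) = (1 - 2 * g) * UU α (s+1) (m+1) w := by
    have h1 := hα.add s (m+1)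
    rw [show 2 * (m+1) = 2*m+2 by ring, hα2] at h1
    rw [show 2 * (m+1) + 1 = 2*m+2+1 by ring]
    linarith
  refine ⟨hα3, fun z hz => ?_⟩
  have hf := f_ge g z hg hz
  have hsq := sq_eq g z hg
  set f := fg g z with hfdef
  have pf : 0 < UU α (s+1) m f := pos_of_stm h m (by omega) (s+1) f hf
  have pf1 : 0 < UU α (s+1) (m+1) f := pos_of_stm h (m+1) (by omega) (s+1) f hf
  have df : UU α (s+1) (m+1) f = 1 - α (s+1) (m+1) / (f ^ 2 * UU α (s+1) m f) := rfl
  have hα1f : α (s+1) (m+1) = f ^ 2 * UU α (s+1) m f * (1 - UU α (s+1) (m+1) f) := by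
    rw [df]
    have : f ^ 2 * UU α (s+1) m f ≠ 0 := by positivity
    field_simp
    ring
  obtain ⟨-, hodd, -, pos1⟩ := hEO z hz
  rw [← hgdef, ← hwdef, ← hfdef] at hodd
  have hfpos : 0 < f := by linarith
  have hwpos : 0 < w := by linarith
  have heven : z ^ 2 * UU α s (2*(m+1)) z = (1 - 2 * g) * UU α (s+1) (m+1) w
      + 2 * g * f * UU α (s+1) (m+1) f := by
    have d2 : UU α s (2*(m+1)) z = 1 - α s (2*m+2) / (z ^ 2 * UU α s (2*m+1) z) := rfl
    have hz2 : z ^ 2 ≠ 0 := by positivity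
    have hfU : f * UU α (s+1) m f ≠ 0 := by positivity
    have hD : w * UU α (s+1) m w + f * UU α (s+1) m f ≠ 0 := by positivity
    have e1 : z ^ 2 * UU α s (2*(m+1)) z = z ^ 2 - α s (2*m+2) / UU α s (2*m+1) z := by
      rw [d2]
      have := pos1.ne'
      field_simp
    have e2 : α s (2*m+2) / UU α s (2*m+1) z
        = α s (2*m+2) * (w * UU α (s+1) m w) / (f * UU α (s+1) m f) + α s (2*m+2) := by
      rw [hodd]
      field_simp
    have e3 : α s (2*m+2) * (w * UU α (s+1) m w) / (f * UU α (s+1) m f)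
        = 2 * g * f * (1 - UU α (s+1) (m+1) f) := by
      rw [div_eq_iff hfU, hα2]
      have : w ^ 2 * UU α (s+1) m w * (1 - UU α (s+1) (m+1) w)
          = f ^ 2 * UU α (s+1) m f * (1 - UU α (s+1) (m+1) f) := by rw [← hα1, ← hα1f]
      rw [← htw]
      calc 2 * g * w * (1 - UU α (s+1) (m+1) w) * (w * UU α (s+1) m w)
          = 2 * g * (w ^ 2 * UU α (s+1) m w * (1 - UU α (s+1) (m+1) w)) := by ring
        _ = 2 * g * (f ^ 2 * UU α (s+1) m f * (1 - UU α (s+1) (m+1) f)) := by rw [this]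
        _ = _ := by ring
    rw [e1, e2, e3, hα2, hsq]
    ring
  have hposE : 0 < UU α s (2*(m+1)) z := by
    have : 0 < z ^ 2 * UU α s (2*(m+1)) z := by rw [heven]; positivity
    exact (mul_pos_iff_of_pos_left (by positivity)).mp this
  have hodd' : UU α s (2*(m+1)+1) z = f * UU α (s+1) (m+1) f /
      (w * UU α (s+1) (m+1) w + f * UU α (s+1) (m+1) f) := by
    have d3 : UU α s (2*(m+1)+1) z = 1 - α s (2*(m+1)+1) / (z ^ 2 * UU α s (2*(m+1)) z) := rfl
    rw [d3, heven, hα3, ← htw]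
    have hD : w * UU α (s+1) (m+1) w + f * UU α (s+1) (m+1) f ≠ 0 := by positivity
    have e : 2 * g * w * UU α (s+1) (m+1) w + 2 * g * f * UU α (s+1) (m+1) f
        = 2 * g * (w * UU α (s+1) (m+1) w + f * UU α (s+1) (m+1) f) := by ring
    rw [e]
    field_simp
    ring
  refine ⟨heven, hodd', hposE, ?_⟩
  rw [hodd']
  positivity

include hγ hα in
lemma stm_all (m : ℕ) : Stm γ α m := by
  induction m using Nat.strong_induction_on with
  | _ m ih =>
    cases m with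
    | zero => exact stm_zero hγ hα
    | succ m => exact stm_succ hγ hα m (fun q hq => ih q (by omega))

include hγ hα in
lemma U_pos (s n : ℕ) (z : ℝ) (hz : 1 ≤ z) : 0 < UU α s n z :=
  pos_of_stm (m := n) (fun q _ => stm_all hγ hα q) n (by omega) s z hz

include hγ hα in
lemma U_even (s m : ℕ) (z : ℝ) (hz : 1 ≤ z) :
    z ^ 2 * UU α s (2*m) z = (1 - 2 * γ s) * UU α (s+1) m (wg (γ s))
      + 2 * γ s * fg (γ s) z * UU α (s+1) m (fg (γ s) z) :=
  ((stm_all hγ hα m s).2 z hz).1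

include hγ hα in
lemma U_odd (s m : ℕ) (z : ℝ) (hz : 1 ≤ z) :
    UU α s (2*m+1) z = fg (γ s) z * UU α (s+1) m (fg (γ s) z) /
      (wg (γ s) * UU α (s+1) m (wg (γ s)) + fg (γ s) z * UU α (s+1) m (fg (γ s) z)) :=
  ((stm_all hγ hα m s).2 z hz).2.1

include hγ hα in
lemma alpha_odd (s m : ℕ) : α s (2*m+1) = (1 - 2 * γ s) * UU α (s+1) m (wg (γ s)) :=
  (stm_all hγ hα m s).1

include hγ hα in
lemma alpha_even (s m : ℕ) : α s (2*m) = (1 - 2 * γ s) * (1 - UU α (s+1) m (wg (γ s))) := by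
  have h1 := hα.add s m
  rw [alpha_odd hγ hα] at h1
  linarith

include hγ hα in
lemma U_le_one (s n : ℕ) (z : ℝ) (hz : 1 ≤ z) : UU α s n z ≤ 1 := by
  cases n with
  | zero => simp [UU]
  | succ n =>
    have h1 := hα.pos s n
    have h2 := U_pos hγ hα s n z hz
    have : 0 < α s (n+1) / (z ^ 2 * UU α s n z) := by positivity
    simp only [UU]
    linarith

include hγ hα in
lemma U_mono (s n : ℕ) (z z' : ℝ) (hz : 1 ≤ z) (hzz : z ≤ z') : UU α s n z ≤ UU α s n z' := by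
  induction n with
  | zero => simp [UU]
  | succ n ih =>
    have h1 := hα.pos s n
    have h2 := U_pos hγ hα s n z hz
    simp only [UU]
    have : α s (n+1) / (z' ^ 2 * UU α s n z') ≤ α s (n+1) / (z ^ 2 * UU α s n z) := by
      apply div_le_div_of_nonneg_left h1.le (by positivity)
      apply mul_le_mul _ ih h2.le (by positivity)
      nlinarith
    linarith

include hγ hα in
lemma U_lower (s n : ℕ) (z : ℝ) (hz : 1 ≤ z) : 1 - 1 / z ^ 2 ≤ UU α s n z := by
  cases n with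
  | zero =>
    simp only [UU]
    have : 0 < 1 / z ^ 2 := by positivity
    linarith
  | succ n =>
    have h0 := U_pos hγ hα s (n+1) 1 le_rfl
    have h1 := hα.pos s n
    have h2 := U_pos hγ hα s n 1 le_rfl
    have h3 := U_mono hγ hα s n 1 z le_rfl hz
    simp only [UU, one_pow, one_mul] at h0 ⊢
    have h4 : α s (n+1) / UU α s n 1 < 1 := by linarith
    rw [div_lt_one h2] at h4
    have h5 : 0 < UU α s n z := by linarith
    have : α s (n+1) / (z ^ 2 * UU α s n z) ≤ 1 / z ^ 2 := by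
      rw [div_le_div_iff₀ (by positivity) (by positivity)]
      have : α s (n+1) ≤ UU α s n z := by linarith
      nlinarith [sq_nonneg z]
    linarith

end

end Pool.Agent.CK
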