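import Mathlib
import Pool.Agent.CK.UArr

set_option autoImplicit false
open Filter Topology Set

namespace Pool.Agent.CK

/-- small parameters -/
noncomputable def gg (i : ℕ) : ℝ := (1/100) ^ (i+2)

/-- thresholds -/
noncomputable def rho : ℕ → ℕ → ℝ
  | _, 0 => 1/1000
  | i, (a+1) => gg i / 200 * rho (i+1) a

lemma gg_pos (i : ℕ) : 0 < gg i := by unfold gg; positivity

lemma gg_le (i : ℕ) : gg i ≤ 1/10000 := by
  unfold gg
  have : ((1:ℝ)/100) ^ (i+2) ≤ (1/100)^2 := pow_le_pow_of_le_one (by norm_num) (by norm_num) (by omega)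
  calc _ ≤ _ := this
    _ = 1/10000 := by norm_num

lemma rho_pos (a : ℕ) : ∀ i, 0 < rho i a := by
  induction a with
  | zero => intro i; unfold rho; norm_num
  | succ a ih => intro i; rw [rho]; have := gg_pos i; have := ih (i+1); positivity

lemma rho_le (a : ℕ) : ∀ i, rho i a ≤ 1/1000 := by
  induction a with
  | zero => intro i; rw [rho]
  | succ a ih =>
    intro i; rw [rho]
    have h1 := gg_pos i
    have h2 := gg_le i
    have h3 := ih (i+1)
    have h4 := rho_pos a (i+1)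
    have : gg i / 200 * rho (i+1) a ≤ 1 * rho (i+1) a := by
      apply mul_le_mul_of_nonneg_right _ h4.le
      linarith
    linarith

/-- the parameter hypotheses -/
structure Par (γ : ℕ → ℝ) : Prop where
  h0 : γ 0 = 1 / (2 * (2 + rho 0 28))
  hr : ∀ i, γ (3*i+1) = 1 / (2 * (2 + rho i (4*i+28)))
  hb : ∀ i, γ (3*i+2) = 1 / (2 * (1 + Real.sqrt (1 + gg i / 2)))
  hg : ∀ i, γ (3*i+3) = gg i

lemma wg_inv (w : ℝ) (hw : 0 < w) : wg (1 / (2 * (1 + w))) = w := by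
  unfold wg
  have : (1 + w) ≠ 0 := by positivity
  field_simp
  ring

lemma small_step (w z δ : ℝ) (hw : 1 ≤ w) (hw1 : w ≤ 1001/1000) (hz : 1 ≤ z) (hδ : z ≤ 1 + δ)
    (hδ1 : δ ≤ 1/1000) : fg (1 / (2 * (1 + w))) z ≤ 1 + 401/100 * δ := by
  have hδ0 : 0 ≤ δ := by linarith
  have e : fg (1 / (2 * (1 + w))) z = (z^2 - 1) * (1 + w) + 1 := by
    unfold fg
    have : (1 + w) ≠ 0 := by positivity
    field_simp
  rw [e]
  have h1 : z ^ 2 - 1 ≤ δ * (2001/1000) := by nlinarith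
  have h2 : 0 ≤ z^2 - 1 := by nlinarith
  nlinarith

section
variable {γ : ℕ → ℝ} (hP : Par γ)

lemma wb_bounds (i : ℕ) : 1 ≤ Real.sqrt (1 + gg i / 2) ∧ Real.sqrt (1 + gg i / 2) ≤ 10001/10000 := by
  have h1 := gg_pos i
  have h2 := gg_le i
  constructor
  · rw [Real.one_le_sqrt]; linarith
  · rw [Real.sqrt_le_left (by norm_num)]
    linarith

include hP in
lemma w_r (i : ℕ) : wg (γ (3*i+1)) = 1 + rho i (4*i+28) := by
  rw [hP.hr, show 2 + rho i (4*i+28) = 1 + (1 + rho i (4*i+28)) by ring]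
  exact wg_inv _ (by have := rho_pos (4*i+28) i; linarith)

include hP in
lemma w_b (i : ℕ) : wg (γ (3*i+2)) = Real.sqrt (1 + gg i / 2) := by
  rw [hP.hb]
  exact wg_inv _ (by have := (wb_bounds i).1; linarith)

include hP in
lemma w_0 : wg (γ 0) = 1 + rho 0 28 := by
  rw [hP.h0, show 2 + rho 0 28 = 1 + (1 + rho 0 28) by ring]
  exact wg_inv _ (by have := rho_pos 28 0; linarith)

lemma f_wb (i : ℕ) : fg (gg i) (Real.sqrt (1 + gg i / 2)) = 5/4 := by
  unfold fg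
  have h1 := gg_pos i
  rw [Real.sq_sqrt (by linarith)]
  field_simp
  ring

lemma wg_g (i : ℕ) : 4999 ≤ wg (gg i) := by
  unfold wg
  have h1 := gg_pos i
  have h2 := gg_le i
  rw [le_div_iff₀ (by positivity)]
  linarith

include hP in
lemma expand_r (i : ℕ) (z δ : ℝ) (hz : 1 ≤ z) (hδ : z ≤ 1 + δ) (hδ1 : δ ≤ 1/1000) :
    fg (γ (3*i+1)) z ≤ 1 + 401/100 * δ := by
  rw [hP.hr, show 2 + rho i (4*i+28) = 1 + (1 + rho i (4*i+28)) by ring]
  have h1 := rho_pos (4*i+28) i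
  have h2 := rho_le (4*i+28) i
  exact small_step _ z δ (by linarith) (by linarith) hz hδ hδ1

include hP in
lemma expand_b (i : ℕ) (z δ : ℝ) (hz : 1 ≤ z) (hδ : z ≤ 1 + δ) (hδ1 : δ ≤ 1/1000) :
    fg (γ (3*i+2)) z ≤ 1 + 401/100 * δ := by
  rw [hP.hb]
  have h1 := wb_bounds i
  exact small_step _ z δ h1.1 (by linarith [h1.2]) hz hδ hδ1

include hP in
lemma expand_g (i : ℕ) (z δ : ℝ) (hz : 1 ≤ z) (hδ : z ≤ 1 + δ) (hδ1 : δ ≤ 1/1000) :
    fg (γ (3*i+3)) z ≤ 1 + 2 * δ / gg i := by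
  rw [hP.hg]
  have hg := gg_pos i
  have hδ0 : 0 ≤ δ := by linarith
  unfold fg
  have h1 : z ^ 2 - 1 ≤ 4 * δ := by nlinarith
  have h2 : (z ^ 2 - 1) / (2 * gg i) ≤ (4 * δ) / (2 * gg i) :=
    div_le_div_of_nonneg_right h1 (by positivity)
  have h3 : (4 * δ) / (2 * gg i) = 2 * δ / gg i := by field_simp; ring
  linarith

/-- expansion through levels `b`,`g`. -/
lemma gb_expand (hP : Par γ) (i : ℕ) (z δ : ℝ) (hz : 1 ≤ z) (hδ : z ≤ 1 + δ) (hδ1 : δ ≤ 1/10000)
    (hγ : ∀ k, 0 < γ k ∧ γ k < 1/4) :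
    fg (γ (3*i+3)) (fg (γ (3*i+2)) z) ≤ 1 + 9 * δ / gg i := by
  have hδ0 : 0 ≤ δ := by linarith
  have h1 := expand_b hP i z δ hz hδ (by linarith)
  have h2 := f_ge (γ (3*i+2)) z (hγ _).1 hz
  have h3 := expand_g hP i _ (401/100 * δ) h2 h1 (by linarith)
  have hg := gg_pos i
  have h4 : 2 * (401/100 * δ) / gg i ≤ 9 * δ / gg i := by
    apply div_le_div_of_nonneg_right _ hg.le
    linarith
  linarith

lemma block_expand (hP : Par γ) (i a : ℕ) (z : ℝ) (hz : 1 ≤ z) (hδ : z ≤ 1 + rho i (a+1))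
    (hγ : ∀ k, 0 < γ k ∧ γ k < 1/4) :
    fg (γ (3*i+3)) (fg (γ (3*i+2)) (fg (γ (3*i+1)) z)) ≤ 1 + rho (i+1) a := by
  rw [rho] at hδ
  have hg := gg_pos i
  have hg1 := gg_le i
  have hr := rho_pos a (i+1)
  have hr1 := rho_le a (i+1)
  set δ := gg i / 200 * rho (i+1) a with hδdef
  have hδ0 : 0 < δ := by positivity
  have hδ1 : δ ≤ 1/1000000 := by
    rw [hδdef]
    have : gg i / 200 ≤ 1/1000 := by linarith
    nlinarith
  have h1 := expand_r hP i z δ hz hδ (by linarith)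
  have h2 := f_ge (γ (3*i+1)) z (hγ _).1 hz
  have h3 := gb_expand hP i _ (401/100 * δ) h2 h1 (by linarith) hγ
  have h4 : 9 * (401/100 * δ) / gg i ≤ rho (i+1) a := by
    rw [div_le_iff₀ hg, hδdef]
    nlinarith
  linarith

lemma w_expand (hP : Par γ) (i a : ℕ) (hγ : ∀ k, 0 < γ k ∧ γ k < 1/4) :
    fg (γ (3*i+3)) (fg (γ (3*i+2)) (1 + rho i (a+1))) ≤ 1 + rho (i+1) a := by
  have hg := gg_pos i
  have hg1 := gg_le i
  have hr := rho_pos a (i+1)
  have hr1 := rho_le a (i+1)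
  have hδ0 := rho_pos (a+1) i
  have hδdef : rho i (a+1) = gg i / 200 * rho (i+1) a := by rw [rho]
  have hδ1 : rho i (a+1) ≤ 1/1000000 := by
    rw [hδdef]
    have : gg i / 200 ≤ 1/1000 := by linarith
    nlinarith
  have h3 := gb_expand hP i (1 + rho i (a+1)) (rho i (a+1)) (by linarith) le_rfl (by linarith) hγ
  have h4 : 9 * (rho i (a+1)) / gg i ≤ rho (i+1) a := by
    rw [div_le_iff₀ hg, hδdef]
    nlinarith
  linarith

end

section
variable {γ : ℕ → ℝ} {α : ℕ → ℕ → ℝ} (hP : Par γ) (hγ : ∀ k, 0 < γ k ∧ γ k < 1/4) (hα : Arr γ α)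

include hP hγ hα in
lemma y_lower (j m : ℕ) : 52/100 ≤ UU α (3*j+1) (2*m) (5/4) := by
  have he := U_even hγ hα (3*j+1) m (5/4) (by norm_num)
  obtain ⟨hg, hg1⟩ := hγ (3*j+1)
  have hw := w_gt _ hg hg1
  have h1 := U_pos hγ hα (3*j+1+1) m _ hw.le
  set g := γ (3*j+1) with hgdef
  have hglow : 2498/10000 ≤ g := by
    rw [hgdef, hP.hr]
    have h1 := rho_pos (4*j+28) j
    have h2 := rho_le (4*j+28) j
    rw [le_div_iff₀ (by positivity)]
    linarith
  have hf : 17/8 ≤ fg g (5/4) := by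
    unfold fg
    have : (9:ℝ)/8 ≤ ((5/4)^2 - 1) / (2 * g) := by
      rw [le_div_iff₀ (by positivity)]
      linarith
    linarith
  have h3 := U_lower hγ hα (3*j+1+1) m (fg g (5/4)) (by linarith)
  set f := fg g (5/4) with hfdef
  have h4 : 778/1000 ≤ UU α (3*j+1+1) m f := by
    have : 1 / f ^ 2 ≤ 222/1000 := by
      rw [div_le_iff₀ (by positivity)]
      nlinarith
    linarith
  have h5 : 2 * g * f = 9/16 + 2 * g := by
    rw [hfdef]; unfold fg; field_simp; ring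
  have h6 : 1062/1000 ≤ 2 * g * f := by rw [h5]; linarith
  have h7 : 0 ≤ (1 - 2 * g) * UU α (3*j+1+1) m (wg g) := by
    apply mul_nonneg _ h1.le
    linarith
  have h8 : (1062/1000) * (778/1000) ≤ 2 * g * f * UU α (3*j+1+1) m f :=
    mul_le_mul h6 h4 (by norm_num) (by linarith)
  have h9 : ((5:ℝ)/4)^2 * UU α (3*j+1) (2*m) (5/4) ≥ (1062/1000) * (778/1000) := by
    rw [he]; linarith
  linarith

/-- ratio comparison in a block -/
lemma lam_aux (fb F U Y W y wb : ℝ) (hfb : 1 ≤ fb) (hF : 1 ≤ F)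
    (hU : 0 < U) (hY : 0 < Y) (hW : 0 < W) (hy : 0 < y) (hwb : 1 ≤ wb) :
    fb * (F * U / (W + F * U)) / (wb * (y * Y / (W + y * Y)) + fb * (F * U / (W + F * U)))
      ≤ fb * F * U * (1 / (y * Y) + 1 / W) := by
  have h1 : F * U / (W + F * U) ≤ F * U / W := by
    apply div_le_div_of_nonneg_left (by positivity) hW
    have : 0 < F * U := by positivity
    linarith
  have h2 : y * Y / (W + y * Y) ≤ wb * (y * Y / (W + y * Y)) + fb * (F * U / (W + F * U)) := by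
    have a1 : 0 < y * Y / (W + y * Y) := by positivity
    have a2 : 0 < fb * (F * U / (W + F * U)) := by positivity
    nlinarith
  have h3 : 0 < y * Y / (W + y * Y) := by positivity
  calc fb * (F * U / (W + F * U)) / (wb * (y * Y / (W + y * Y)) + fb * (F * U / (W + F * U)))
      ≤ fb * (F * U / (W + F * U)) / (y * Y / (W + y * Y)) := by
        apply div_le_div_of_nonneg_left (by positivity) h3 h2
    _ ≤ fb * (F * U / W) / (y * Y / (W + y * Y)) := by
        apply div_le_div_of_nonneg_right _ h3.le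
        apply mul_le_mul_of_nonneg_left h1 (by linarith)
    _ = fb * F * U * (1 / (y * Y) + 1 / W) := by
        field_simp

include hP hγ hα in
lemma W_ge (i n : ℕ) : 4000 ≤ wg (gg i) * UU α (3*i+4) n (wg (gg i)) := by
  have h1 := wg_g i
  have h2 := U_lower hγ hα (3*i+4) n (wg (gg i)) (by linarith)
  set w := wg (gg i)
  have h3 : 1 / w^2 ≤ 1/10 := by
    apply one_div_le_one_div_of_le (by norm_num)
    nlinarith
  have h4 : 9/10 ≤ UU α (3*i+4) n w := by linarith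
  nlinarith

include hP hγ hα in
lemma U_g_eq (i n : ℕ) (z : ℝ) (hz : 1 ≤ z) :
    UU α (3*i+3) (2*n+1) z = fg (gg i) z * UU α (3*i+4) n (fg (gg i) z) /
      (wg (gg i) * UU α (3*i+4) n (wg (gg i)) + fg (gg i) z * UU α (3*i+4) n (fg (gg i) z)) := by
  have := U_odd hγ hα (3*i+3) n z hz
  rw [hP.hg] at this
  exact this

include hP hγ hα in
lemma lam (i m : ℕ) (p : ℝ) (hp : 1 ≤ p)
    (hF : fg (γ (3*i+3)) (fg (γ (3*i+2)) p) ≤ 1001/1000) :
    UU α (3*i+2) (2*(2*(2*m)+1)+1) p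
      ≤ 155/100 * UU α (3*i+4) (2*m) (fg (γ (3*i+3)) (fg (γ (3*i+2)) p)) := by
  have hodd := U_odd hγ hα (3*i+2) (2*(2*m)+1) p hp
  have hfb := f_ge (γ (3*i+2)) p (hγ _).1 hp
  have hFge := f_ge (γ (3*i+3)) _ (hγ (3*i+3)).1 hfb
  have hwb := wb_bounds i
  rw [w_b hP] at hodd
  rw [show 3*i+2+1 = 3*i+3 by ring] at hodd
  rw [U_g_eq hP hγ hα i (2*m) _ hfb, U_g_eq hP hγ hα i (2*m) _ hwb.1, f_wb] at hodd
  rw [hP.hg] at hF hFge ⊢
  set fb := fg (γ (3*i+2)) p with hfbdef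
  set F := fg (gg i) fb with hFdef
  have hU := U_pos hγ hα (3*i+4) (2*m) F hFge
  have hY := y_lower hP hγ hα (i+1) m
  rw [show 3*(i+1)+1 = 3*i+4 by ring] at hY
  have hW := W_ge hP hγ hα i (2*m)
  rw [hodd]
  have hfbF : fb ≤ F := by
    rw [hFdef]; unfold fg
    have h1 := gg_pos i
    have h2 := gg_le i
    have : fb - 1 ≤ (fb^2 - 1) / (2 * gg i) := by
      rw [le_div_iff₀ (by positivity)]
      nlinarith
    linarith
  set U := UU α (3*i+4) (2*m) F
  set Y := UU α (3*i+4) (2*m) (5/4)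
  set W := wg (gg i) * UU α (3*i+4) (2*m) (wg (gg i))
  have haux := lam_aux fb F U Y W (5/4) (Real.sqrt (1 + gg i/2)) hfb hFge hU (by linarith)
    (by linarith) (by norm_num) hwb.1
  refine le_trans haux ?_
  have h1 : 1 / (5/4 * Y) ≤ 154/100 := by
    rw [div_le_iff₀ (by linarith)]
    linarith
  have h2 : 1 / W ≤ 1/4000 := one_div_le_one_div_of_le (by norm_num) hW
  have h3 : fb * F ≤ (1001/1000) * (1001/1000) := mul_le_mul (by linarith) hF (by linarith) (by norm_num)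
  have h4 : fb * F * (1 / (5/4 * Y) + 1 / W) ≤ (1001/1000) * (1001/1000) * (154/100 + 1/4000) := by
    apply mul_le_mul h3 (by linarith)
    · have : 0 < 1 / (5/4 * Y) := by apply div_pos (by norm_num); linarith
      have : 0 < 1 / W := by apply div_pos (by norm_num); linarith
      linarith
    · norm_num
  calc fb * F * U * (1 / (5/4 * Y) + 1 / W) = (fb * F * (1 / (5/4 * Y) + 1 / W)) * U := by ring
    _ ≤ ((1001/1000) * (1001/1000) * (154/100 + 1/4000)) * U := mul_le_mul_of_nonneg_right h4 hU.le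
    _ ≤ 155/100 * U := by
        apply mul_le_mul_of_nonneg_right _ hU.le
        norm_num

/-- index recursion -/
def xi : ℕ → ℕ → ℕ
  | 0, n => n
  | (q+1), n => 8 * xi q n + 6

/-- the bound -/
noncomputable def Bd (i a : ℕ) : ℝ := 1/100 * (1/2)^i + (4/5)^a

include hP hγ hα in
lemma C_step (i m : ℕ)
    (hind : ∀ a, ∀ z, 1 ≤ z → z ≤ 1 + rho (i+1) a → UU α (3*(i+1)+1) (2*m) z ≤ Bd (i+1) a) :
    ∀ a, ∀ z, 1 ≤ z → z ≤ 1 + rho i a → UU α (3*i+1) (8*(2*m)+6) z ≤ Bd i a := by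
  intro a z hz hza
  cases a with
  | zero =>
    have := U_le_one hγ hα (3*i+1) (8*(2*m)+6) z hz
    unfold Bd
    have : (0:ℝ) < 1/100 * (1/2)^i := by positivity
    simp only [pow_zero]
    linarith
  | succ a =>
    have he := U_even hγ hα (3*i+1) (2*(2*(2*m)+1)+1) z hz
    rw [show 2*(2*(2*(2*m)+1)+1) = 8*(2*m)+6 by ring, w_r hP,
      show 3*i+1+1 = 3*i+2 by ring] at he
    have hr := rho_pos (4*i+28) i
    have hr1 := rho_le (4*i+28) i
    have hza2 := rho_le (a+1) i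
    obtain ⟨hg, hg1⟩ := hγ (3*i+1)
    have hf := f_ge (γ (3*i+1)) z hg hz
    have hexp := block_expand hP i a z hz hza hγ
    have hwexp := w_expand hP i (4*i+27) hγ
    rw [show 4*i+27+1 = 4*i+28 by ring] at hwexp
    have hρa := rho_le a (i+1)
    have hρw := rho_le (4*i+27) (i+1)
    have l1 := lam hP hγ hα i m (fg (γ (3*i+1)) z) hf (by linarith)
    have l2 := lam hP hγ hα i m (1 + rho i (4*i+28)) (by linarith) (by linarith)
    have b1 := hind a _ (f_ge _ _ (hγ _).1 (f_ge _ _ (hγ _).1 hf)) hexp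
    have b2 := hind (4*i+27) _ (f_ge _ _ (hγ _).1 (f_ge _ _ (hγ _).1 (by linarith : (1:ℝ) ≤ 1 + rho i (4*i+28)))) hwexp
    rw [show 3*(i+1)+1 = 3*i+4 by ring] at b1 b2
    set Uw := UU α (3*i+2) (2*(2*(2*m)+1)+1) (1 + rho i (4*i+28))
    set Uf := UU α (3*i+2) (2*(2*(2*m)+1)+1) (fg (γ (3*i+1)) z)
    have hUw : Uw ≤ 155/100 * Bd (i+1) (4*i+27) := by linarith
    have hUf : Uf ≤ 155/100 * Bd (i+1) a := by linarith
    have hpos := U_pos hγ hα (3*i+1) (8*(2*m)+6) z hz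
    have hposw : 0 < Uw := U_pos hγ hα _ _ _ (by linarith)
    have hposf : 0 < Uf := U_pos hγ hα _ _ _ hf
    have hglow : 2498/10000 ≤ γ (3*i+1) := by
      rw [hP.hr]
      rw [le_div_iff₀ (by positivity)]
      linarith
    have hsq := sq_eq (γ (3*i+1)) z hg
    have c1 : 1 - 2 * γ (3*i+1) ≤ 503/1000 := by linarith
    have c2 : 2 * γ (3*i+1) * fg (γ (3*i+1)) z ≤ 503/1000 := by
      have : 2 * γ (3*i+1) * fg (γ (3*i+1)) z = z^2 - 1 + 2 * γ (3*i+1) := by linarith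
      rw [this]
      nlinarith
    have hmain : UU α (3*i+1) (8*(2*m)+6) z ≤ 503/1000 * Uw + 503/1000 * Uf := by
      have h1 : UU α (3*i+1) (8*(2*m)+6) z ≤ z^2 * UU α (3*i+1) (8*(2*m)+6) z :=
        le_mul_of_one_le_left hpos.le (by nlinarith)
      have h2 : (1 - 2 * γ (3*i+1)) * Uw ≤ 503/1000 * Uw := mul_le_mul_of_nonneg_right c1 hposw.le
      have h3 : 2 * γ (3*i+1) * fg (γ (3*i+1)) z * Uf ≤ 503/1000 * Uf :=
        mul_le_mul_of_nonneg_right c2 hposf.le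
      linarith
    have hB : 4/5 * (Bd (i+1) (4*i+27) + Bd (i+1) a) ≤ Bd i (a+1) := by
      unfold Bd
      have e1 : ((4:ℝ)/5)^(4*i+27) = ((4/5)^4)^i * (4/5)^27 := by rw [pow_add, pow_mul]
      have e2 : (((4:ℝ)/5)^4)^i ≤ (1/2)^i := pow_le_pow_left₀ (by positivity) (by norm_num) i
      have e3 : ((4:ℝ)/5)^27 ≤ 1/400 := by norm_num
      have e4 : ((4:ℝ)/5)^(4*i+27) ≤ (1/2)^i * (1/400) := by
        rw [e1]; exact mul_le_mul e2 e3 (by positivity) (by positivity)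
      have e5 : ((1:ℝ)/2)^(i+1) = (1/2)^i * (1/2) := pow_succ _ _
      have e6 : ((4:ℝ)/5)^(a+1) = (4/5)^a * (4/5) := pow_succ _ _
      have e7 : (0:ℝ) < (1/2)^i := by positivity
      rw [e5, e6]
      linarith
    have hBp1 : 0 < Bd (i+1) (4*i+27) := by unfold Bd; positivity
    have hBp2 : 0 < Bd (i+1) a := by unfold Bd; positivity
    linarith

end

end Pool.Agent.CK
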