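import Mathlib
import Pool.Agent.CK.Counter

set_option autoImplicit false
set_option linter.unusedSectionVars false
open Filter Topology Set

namespace Pool.Agent.CK

section
variable {γ : ℕ → ℝ} {α : ℕ → ℕ → ℝ} (hP : Par γ) (hγ : ∀ k, 0 < γ k ∧ γ k < 1/4) (hα : Arr γ α)

include hγ hα in
/-- even step: upper bound -/
lemma even_le (s m : ℕ) (z M : ℝ) (hz : 1 ≤ z) (h1 : UU α (s+1) m (wg (γ s)) ≤ M)
    (h2 : UU α (s+1) m (fg (γ s) z) ≤ M) : UU α s (2*m) z ≤ M := by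
  have he := U_even hγ hα s m z hz
  obtain ⟨hg, hg1⟩ := hγ s
  have hsq := sq_eq (γ s) z hg
  have hf := f_ge (γ s) z hg hz
  have a1 : (1 - 2 * γ s) * UU α (s+1) m (wg (γ s)) ≤ (1 - 2 * γ s) * M :=
    mul_le_mul_of_nonneg_left h1 (by linarith)
  have a2 : 2 * γ s * fg (γ s) z * UU α (s+1) m (fg (γ s) z) ≤ 2 * γ s * fg (γ s) z * M :=
    mul_le_mul_of_nonneg_left h2 (by positivity)
  have a3 : z^2 * UU α s (2*m) z ≤ z^2 * M := by
    rw [he, hsq]; linarith
  exact le_of_mul_le_mul_left a3 (by positivity)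

include hγ hα in
/-- even step: lower bound -/
lemma even_ge (s m : ℕ) (z M : ℝ) (hz : 1 ≤ z) (h1 : M ≤ UU α (s+1) m (wg (γ s)))
    (h2 : M ≤ UU α (s+1) m (fg (γ s) z)) : M ≤ UU α s (2*m) z := by
  have he := U_even hγ hα s m z hz
  obtain ⟨hg, hg1⟩ := hγ s
  have hsq := sq_eq (γ s) z hg
  have hf := f_ge (γ s) z hg hz
  have a1 : (1 - 2 * γ s) * M ≤ (1 - 2 * γ s) * UU α (s+1) m (wg (γ s)) :=
    mul_le_mul_of_nonneg_left h1 (by linarith)
  have a2 : 2 * γ s * fg (γ s) z * M ≤ 2 * γ s * fg (γ s) z * UU α (s+1) m (fg (γ s) z) :=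
    mul_le_mul_of_nonneg_left h2 (by positivity)
  have a3 : z^2 * M ≤ z^2 * UU α s (2*m) z := by
    rw [he]; nth_rewrite 1 [hsq]; linarith
  exact le_of_mul_le_mul_left a3 (by positivity)

include hP hγ hα in
lemma C_base (i : ℕ) : ∀ a, ∀ z, 1 ≤ z → z ≤ 1 + rho i a → UU α (3*i+1) 4 z ≤ Bd i a := by
  intro a z hz hza
  cases a with
  | zero =>
    have := U_le_one hγ hα (3*i+1) 4 z hz
    unfold Bd
    have : (0:ℝ) < 1/100 * (1/2)^i := by positivity
    simp only [pow_zero]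
    linarith
  | succ a =>
    have hr := rho_pos (4*i+28) i
    have hr1 := rho_le (4*i+28) i
    have hza2 := rho_le (a+1) i
    obtain ⟨hg, hg1⟩ := hγ (3*i+1)
    have hf := f_ge (γ (3*i+1)) z hg hz
    have hexp := block_expand hP i a z hz hza hγ
    have hwexp := w_expand hP i (4*i+27) hγ
    rw [show 4*i+27+1 = 4*i+28 by ring] at hwexp
    have hρa := rho_le a (i+1)
    have hρw := rho_le (4*i+27) (i+1)
    have hwb := wb_bounds i
    have hwgg := wg_g i
    -- level g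
    have hG : ∀ p, 1 ≤ p → fg (gg i) p ≤ 5/4 → UU α (3*i+3) 1 p ≤ 5/4 / wg (gg i) := by
      intro p hp hfp
      have h1 := U_g_eq hP hγ hα i 0 p hp
      have h2 := f_ge (gg i) p (gg_pos i) hp
      rw [show 2*0+1 = 1 by ring] at h1
      rw [h1]
      simp only [UU, mul_one]
      rw [div_le_div_iff₀ (by linarith) (by linarith)]
      nlinarith
    have hB : ∀ p, 1 ≤ p → fg (γ (3*i+3)) (fg (γ (3*i+2)) p) ≤ 5/4 →
        UU α (3*i+2) 2 p ≤ 5/4 / wg (gg i) := by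
      intro p hp hfp
      have h2 := f_ge (γ (3*i+2)) p (hγ _).1 hp
      show UU α (3*i+2) (2*1) p ≤ 5/4 / wg (gg i)
      apply even_le hγ hα (3*i+2) 1 p _ hp
      · rw [w_b hP, show 3*i+2+1 = 3*i+3 by ring]
        exact hG _ hwb.1 (by rw [f_wb])
      · rw [show 3*i+2+1 = 3*i+3 by ring]
        apply hG _ h2
        rw [hP.hg] at hfp
        exact hfp
    have hR : UU α (3*i+1) 4 z ≤ 5/4 / wg (gg i) := by
      show UU α (3*i+1) (2*2) z ≤ 5/4 / wg (gg i)
      apply even_le hγ hα (3*i+1) 2 z _ hz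
      · rw [w_r hP, show 3*i+1+1 = 3*i+2 by ring]
        exact hB _ (by linarith) (by linarith)
      · rw [show 3*i+1+1 = 3*i+2 by ring]
        exact hB _ hf (by linarith)
    have hgi := gg_pos i
    have hgi1 := gg_le i
    have h5 : 5/4 / wg (gg i) ≤ 3 * gg i := by
      rw [div_le_iff₀ (by linarith)]
      have := two_g_w (gg i) hgi
      have h6 : 3 * gg i * wg (gg i) = 3/2 * (1 - 2 * gg i) := by rw [← this]; ring
      rw [h6]; linarith
    have h7 : 3 * gg i ≤ 1/100 * (1/2)^i := by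
      unfold gg
      rw [pow_add]
      have : ((1:ℝ)/100)^i ≤ (1/2)^i := pow_le_pow_left₀ (by norm_num) (by norm_num) i
      have h8 : (0:ℝ) < (1/2)^i := by positivity
      nlinarith
    have h9 : (0:ℝ) < (4/5)^(a+1) := by positivity
    unfold Bd
    linarith

lemma xi_even (q n : ℕ) (hn : Even n) : Even (xi q n) := by
  induction q with
  | zero => exact hn
  | succ q ih =>
    obtain ⟨r, hr⟩ := ih
    refine ⟨8 * r + 3, ?_⟩
    rw [xi, hr]; ring

include hP hγ hα in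
lemma C_all (q : ℕ) : ∀ i a, ∀ z, 1 ≤ z → z ≤ 1 + rho i a → UU α (3*i+1) (xi q 4) z ≤ Bd i a := by
  induction q with
  | zero => intro i; exact C_base hP hγ hα i
  | succ q ih =>
    intro i
    obtain ⟨r, hr⟩ := xi_even q 4 (by decide)
    rw [xi, hr, show 8 * (r + r) + 6 = 8 * (2 * r) + 6 by ring]
    apply C_step hP hγ hα i r
    intro a z hz hza
    have := ih (i+1) a z hz hza
    rw [hr, ← two_mul] at this
    exact this

lemma M_aux (u Y W wb : ℝ) (hu : 8/100 ≤ u) (hu1 : u ≤ 1) (hY : u ≤ 5/4 * Y) (hY2 : 25/16 * Y ≤ u + 17/16)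
    (hW : 0 < W) (hwb : 1 ≤ wb) (hwb1 : wb ≤ 10001/10000) :
    8/100 ≤ 1 * (1 * u / (W + 1 * u)) / (wb * (5/4 * Y / (W + 5/4 * Y)) + 1 * (1 * u / (W + 1 * u))) := by
  simp only [one_mul]
  have hup : 0 < u := by linarith
  have h0 : 0 < 5/4 * Y := by linarith
  have h1 : 5/4 * Y / (W + 5/4 * Y) ≤ 5/4 * Y / (W + u) := by
    apply div_le_div_of_nonneg_left h0.le (by linarith) (by linarith)
  have hWu : 0 < W + u := by linarith
  have h2 : wb * (5/4 * Y / (W + 5/4 * Y)) + u / (W + u) ≤ (wb * (5/4 * Y) + u) / (W + u) := by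
    have : (wb * (5/4 * Y) + u) / (W + u) = wb * (5/4 * Y / (W + u)) + u / (W + u) := by
      field_simp
    rw [this]
    have := mul_le_mul_of_nonneg_left h1 (by linarith : 0 ≤ wb)
    linarith
  have h3 : 0 < wb * (5/4 * Y / (W + 5/4 * Y)) + u / (W + u) := by positivity
  have h4 : u / (W + u) / ((wb * (5/4 * Y) + u) / (W + u)) ≤
      u / (W + u) / (wb * (5/4 * Y / (W + 5/4 * Y)) + u / (W + u)) :=
    div_le_div_of_nonneg_left (by positivity) h3 h2
  refine le_trans ?_ h4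
  have h5 : u / (W + u) / ((wb * (5/4 * Y) + u) / (W + u)) = u / (wb * (5/4 * Y) + u) := by
    field_simp
  rw [h5, le_div_iff₀ (by positivity)]
  have h6 : wb * (5/4 * Y) ≤ 10001/10000 * (5/4 * Y) := mul_le_mul_of_nonneg_right hwb1 h0.le
  linarith

include hP hγ hα in
lemma M_step (i m : ℕ) (hu : 8/100 ≤ UU α (3*(i+1)+1) (2*m) 1) :
    8/100 ≤ UU α (3*i+1) (8*(2*m)+6) 1 := by
  have hf1 : ∀ g : ℝ, fg g 1 = 1 := by intro g; unfold fg; norm_num
  rw [show 8*(2*m)+6 = 2*(2*(2*(2*m)+1)+1) by ring]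
  have hb1 : 8/100 ≤ UU α (3*i+2) (2*(2*(2*m)+1)+1) 1 := by
    have hodd := U_odd hγ hα (3*i+2) (2*(2*m)+1) 1 le_rfl
    have hwb := wb_bounds i
    rw [w_b hP, hf1, show 3*i+2+1 = 3*i+3 by ring] at hodd
    rw [U_g_eq hP hγ hα i (2*m) 1 le_rfl, U_g_eq hP hγ hα i (2*m) _ hwb.1, f_wb, hf1] at hodd
    rw [hodd]
    rw [show 3*(i+1)+1 = 3*i+4 by ring] at hu
    have hu1 := U_le_one hγ hα (3*i+4) (2*m) 1 le_rfl
    have hW := W_ge hP hγ hα i (2*m)
    have hmono := U_mono hγ hα (3*i+4) (2*m) 1 (5/4) le_rfl (by norm_num)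
    apply M_aux _ _ _ _ hu hu1 _ _ (by linarith) hwb.1 hwb.2
    · have : 0 < UU α (3*i+4) (2*m) (5/4) := U_pos hγ hα _ _ _ (by norm_num)
      linarith
    · have he := U_even hγ hα (3*i+4) m (5/4) (by norm_num)
      have he1 := U_even hγ hα (3*i+4) m 1 le_rfl
      obtain ⟨hg, hg1⟩ := hγ (3*i+4)
      have hsq := sq_eq (γ (3*i+4)) (5/4) hg
      have hw := w_gt _ hg hg1
      have hfge := f_ge (γ (3*i+4)) (5/4) hg (by norm_num)
      have hle := U_le_one hγ hα (3*i+4+1) m (fg (γ (3*i+4)) (5/4)) hfge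
      have hpos1 := U_pos hγ hα (3*i+4+1) m 1 le_rfl
      rw [hf1] at he1
      have h7 : 2 * γ (3*i+4) * fg (γ (3*i+4)) (5/4) * UU α (3*i+4+1) m (fg (γ (3*i+4)) (5/4))
          ≤ 2 * γ (3*i+4) * fg (γ (3*i+4)) (5/4) * 1 :=
        mul_le_mul_of_nonneg_left hle (by positivity)
      have h8 : 0 < 2 * γ (3*i+4) * 1 * UU α (3*i+4+1) m 1 := by positivity
      linarith
  apply even_ge hγ hα (3*i+1) _ 1 _ le_rfl
  · have hr := rho_pos (4*i+28) i
    rw [w_r hP, show 3*i+1+1 = 3*i+2 by ring]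
    have := U_mono hγ hα (3*i+2) (2*(2*(2*m)+1)+1) 1 (1 + rho i (4*i+28)) le_rfl (by linarith)
    linarith
  · rw [hf1, show 3*i+1+1 = 3*i+2 by ring]
    exact hb1

include hP hγ hα in
lemma M_all (q : ℕ) : ∀ i, 8/100 ≤ UU α (3*i+1) (xi q 0) 1 := by
  induction q with
  | zero => intro i; simp only [xi, UU]; norm_num
  | succ q ih =>
    intro i
    obtain ⟨r, hr⟩ := xi_even q 0 (by decide)
    rw [xi, hr, show 8 * (r + r) + 6 = 8 * (2 * r) + 6 by ring]
    apply M_step hP hγ hα i r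
    have := ih (i+1)
    rw [hr, ← two_mul] at this
    exact this

include hP hγ hα in
/-- reset estimate at a `g` level -/
lemma reset (i m : ℕ) (z : ℝ) (hz : 1 ≤ z) : 1 - 3 * gg i ≤ UU α (3*i+3) (2*m) z := by
  have he := U_even hγ hα (3*i+3) m z hz
  rw [hP.hg] at he
  have hg := gg_pos i
  have hg1 := gg_le i
  have hw := wg_g i
  have hf := f_ge (gg i) z hg hz
  have hsq := sq_eq (gg i) z hg
  have l1 := U_lower hγ hα (3*i+3+1) m (wg (gg i)) (by linarith)
  have l2 := U_lower hγ hα (3*i+3+1) m (fg (gg i) z) hf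
  have htw := two_g_w (gg i) hg
  set w := wg (gg i)
  set f := fg (gg i) z
  set g := gg i
  have a1 : (1 - 2 * g) * (1 - 1 / w^2) ≤ (1 - 2 * g) * UU α (3*i+3+1) m w :=
    mul_le_mul_of_nonneg_left l1 (by linarith)
  have a2 : 2 * g * f * (1 - 1 / f^2) ≤ 2 * g * f * UU α (3*i+3+1) m f :=
    mul_le_mul_of_nonneg_left l2 (by positivity)
  have a3 : (1 - 2 * g) * (1 / w^2) ≤ g := by
    have h1 : (1 - 2*g) * (1 / w^2) = 2 * g / w := by
      rw [← htw]
      have : w ≠ 0 := by linarith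
      field_simp
    rw [h1, div_le_iff₀ (by linarith)]
    nlinarith
  have a4 : 2 * g * f * (1 / f^2) ≤ 2 * g := by
    have h1 : 2 * g * f * (1 / f^2) = 2 * g / f := by
      have : f ≠ 0 := by linarith
      field_simp
    rw [h1, div_le_iff₀ (by linarith)]
    nlinarith
  have a5 : z^2 - 3 * g ≤ z^2 * UU α (3*i+3) (2*m) z := by
    rw [he]
    have e1 : (1 - 2 * g) * (1 - 1 / w^2) = (1 - 2*g) - (1 - 2*g) * (1/w^2) := by ring
    have e2 : 2 * g * f * (1 - 1 / f^2) = 2 * g * f - 2 * g * f * (1/f^2) := by ring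
    linarith
  have hz2 : 1 ≤ z^2 := by nlinarith
  by_contra hc
  push Not at hc
  have : z^2 * UU α (3*i+3) (2*m) z < z^2 * (1 - 3 * g) := mul_lt_mul_of_pos_left hc (by positivity)
  nlinarith

/-- comparison of two indices on a level -/
def Cmp (α : ℕ → ℕ → ℝ) (s n n' : ℕ) (r : ℝ) : Prop :=
  ∀ z : ℝ, 1 ≤ z → r * UU α s n z ≤ UU α s n' z ∧ r * UU α s n' z ≤ UU α s n z

lemma cmp_odd_aux (r A B A' B' : ℝ) (hr : 0 < r) (hr1 : r ≤ 1) (hA : 0 < A) (hB : 0 < B) (hA' : 0 < A')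
    (hB' : 0 < B') (h1 : r * A' ≤ A) (h2 : r * B ≤ B') :
    r^2 * (B / (A + B)) ≤ B' / (A' + B') := by
  rw [← mul_div_assoc, div_le_div_iff₀ (by positivity) (by positivity)]
  have e1 : r * A' * (r * B) ≤ A * B' := mul_le_mul h1 h2 (by positivity) hA.le
  have e2 : r^2 * B * B' ≤ 1 * (B * B') := by
    rw [mul_assoc]
    apply mul_le_mul_of_nonneg_right _ (by positivity)
    exact pow_le_one₀ hr.le hr1
  nlinarith

include hγ hα in
lemma cmp_step (s n n' : ℕ) (r : ℝ) (hr : 0 < r) (hr1 : r ≤ 1) (h : Cmp α (s+1) n n' r) :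
    Cmp α s (2*n) (2*n') (r^2) ∧ Cmp α s (2*n+1) (2*n'+1) (r^2) := by
  obtain ⟨hg, hg1⟩ := hγ s
  have hw := w_gt _ hg hg1
  have hr2 : r^2 ≤ r := by nlinarith
  constructor
  · intro z hz
    have hf := f_ge (γ s) z hg hz
    have key : ∀ a b : ℕ, (∀ z : ℝ, 1 ≤ z → r * UU α (s+1) a z ≤ UU α (s+1) b z) →
        r^2 * UU α s (2*a) z ≤ UU α s (2*b) z := by
      intro a b hab
      have e1 := U_even hγ hα s a z hz
      have e2 := U_even hγ hα s b z hz
      have b1 := hab _ hw.le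
      have b2 := hab _ hf
      have hp := U_pos hγ hα s (2*a) z hz
      have c1 := mul_le_mul_of_nonneg_left b1 (by linarith : 0 ≤ 1 - 2 * γ s)
      have c2 := mul_le_mul_of_nonneg_left b2 (by positivity : 0 ≤ 2 * γ s * fg (γ s) z)
      have c3 : z^2 * (r * UU α s (2*a) z) ≤ z^2 * UU α s (2*b) z := by
        rw [e2]
        have : z^2 * (r * UU α s (2*a) z) = r * (z^2 * UU α s (2*a) z) := by ring
        rw [this, e1]
        linarith
      have c4 : r * UU α s (2*a) z ≤ UU α s (2*b) z := le_of_mul_le_mul_left c3 (by positivity)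
      have c5 : r^2 * UU α s (2*a) z ≤ r * UU α s (2*a) z := mul_le_mul_of_nonneg_right hr2 hp.le
      linarith
    exact ⟨key n n' (fun z hz => (h z hz).1), key n' n (fun z hz => (h z hz).2)⟩
  · intro z hz
    have hf := f_ge (γ s) z hg hz
    have hwp : 0 < wg (γ s) := by linarith
    have hfp : 0 < fg (γ s) z := by linarith
    have p1 := U_pos hγ hα (s+1) n _ hw.le
    have p2 := U_pos hγ hα (s+1) n _ hf
    have p3 := U_pos hγ hα (s+1) n' _ hw.le
    have p4 := U_pos hγ hα (s+1) n' _ hf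
    rw [U_odd hγ hα s n z hz, U_odd hγ hα s n' z hz]
    have q1 := mul_le_mul_of_nonneg_left (h _ hw.le).1 hwp.le
    have q2 := mul_le_mul_of_nonneg_left (h _ hw.le).2 hwp.le
    have q3 := mul_le_mul_of_nonneg_left (h _ hf).1 hfp.le
    have q4 := mul_le_mul_of_nonneg_left (h _ hf).2 hfp.le
    constructor
    · apply cmp_odd_aux r _ _ _ _ hr hr1 (by positivity) (by positivity) (by positivity) (by positivity)
      · linarith
      · linarith
    · apply cmp_odd_aux r _ _ _ _ hr hr1 (by positivity) (by positivity) (by positivity) (by positivity)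
      · linarith
      · linarith

include hP hγ hα in
lemma cmp_all (i q : ℕ) : q ≤ 3*i+3 → ∀ n, n < 2^q →
    Cmp α (3*i+3-q) n (n + 2^(q+3)) ((1 - 3 * gg i)^(2^q)) := by
  have hg := gg_pos i
  have hg1 := gg_le i
  have hr0 : 0 < 1 - 3 * gg i := by linarith
  have hr1 : 1 - 3 * gg i ≤ 1 := by linarith
  induction q with
  | zero =>
    intro _ n hn z hz
    have hn0 : n = 0 := by simpa using hn
    subst hn0
    have h1 := reset hP hγ hα i 4 z hz
    have h2 := U_le_one hγ hα (3*i+3) (2*4) z hz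
    have h3 := U_pos hγ hα (3*i+3) (2*4) z hz
    simp only [Nat.sub_zero, zero_add, pow_zero, pow_one]
    norm_num
    norm_num at h1 h2 h3
    constructor
    · simp only [UU] at *
      linarith
    · simp only [UU] at *
      nlinarith
  | succ q ih =>
    intro hq n hn
    have ih' := ih (by omega)
    have hs : 3*i+3-q = (3*i+3-(q+1)) + 1 := by omega
    rw [hs] at ih'
    have hrp : 0 < (1 - 3 * gg i)^(2^q) := by positivity
    have hrl : (1 - 3 * gg i)^(2^q) ≤ 1 := pow_le_one₀ hr0.le hr1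
    have hpow : (1 - 3 * gg i)^(2^(q+1)) = ((1 - 3 * gg i)^(2^q))^2 := by
      rw [← pow_mul, pow_succ]
    rw [hpow]
    rcases Nat.even_or_odd' n with ⟨m, hm | hm⟩
    · have hmlt : m < 2^q := by rw [pow_succ] at hn; omega
      have := (cmp_step hγ hα _ m (m + 2^(q+3)) _ hrp hrl (ih' m hmlt)).1
      rw [hm]
      convert this using 1
      rw [show q+1+3 = q+3+1 by ring, pow_succ]; ring
    · have hmlt : m < 2^q := by rw [pow_succ] at hn; omega
      have := (cmp_step hγ hα _ m (m + 2^(q+3)) _ hrp hrl (ih' m hmlt)).2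
      rw [hm]
      convert this using 1
      rw [show q+1+3 = q+3+1 by ring, pow_succ]; ring

include hP hγ hα in
/-- closeness of the coefficients for low indices -/
lemma close (i N : ℕ) (hN : N < 8^(i+1)) :
    |α 0 N - α 0 (N + 8^(i+2))| ≤ 3 * gg i * 8^(i+1) := by
  have hg := gg_pos i
  have hg1 := gg_le i
  obtain ⟨h0, h01⟩ := hγ 0
  have hw := w_gt _ h0 h01
  have key : ∀ m, m < 2^(3*i+2) →
      |UU α 1 m (wg (γ 0)) - UU α 1 (m + 2^(3*i+5)) (wg (γ 0))| ≤ 3 * gg i * 8^(i+1) := by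
    intro m hm
    have h := cmp_all hP hγ hα i (3*i+2) (by omega) m hm _ hw.le
    rw [show 3*i+3-(3*i+2) = 1 by omega, show 3*i+2+3 = 3*i+5 by ring] at h
    have u1 := U_le_one hγ hα 1 m _ hw.le
    have u2 := U_le_one hγ hα 1 (m + 2^(3*i+5)) _ hw.le
    have v1 := U_pos hγ hα 1 m _ hw.le
    have v2 := U_pos hγ hα 1 (m + 2^(3*i+5)) _ hw.le
    have hb : 1 - 3 * gg i * 8^(i+1) ≤ (1 - 3 * gg i)^(2^(3*i+2)) := by
      have hbern := one_add_mul_le_pow (a := -(3 * gg i)) (by linarith) (2^(3*i+2))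
      have e1 : (1 + -(3 * gg i)) = 1 - 3 * gg i := by ring
      rw [e1] at hbern
      have e2 : ((2^(3*i+2) : ℕ) : ℝ) ≤ 8^(i+1) := by
        push_cast
        have : (8:ℝ)^(i+1) = 2^(3*i+3) := by
          rw [show 3*i+3 = 3*(i+1) by ring, pow_mul]; norm_num
        rw [this]
        exact pow_le_pow_right₀ (by norm_num) (by omega)
      have : ((2^(3*i+2) : ℕ) : ℝ) * (3 * gg i) ≤ 8^(i+1) * (3 * gg i) :=
        mul_le_mul_of_nonneg_right e2 (by positivity)
      linarith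
    set R := (1 - 3 * gg i)^(2^(3*i+2))
    set T := 3 * gg i * 8^(i+1)
    have hT : 0 < T := by positivity
    obtain ⟨h1, h2⟩ := h
    rw [abs_le]
    constructor
    · have : (1 - T) * UU α 1 (m + 2^(3*i+5)) (wg (γ 0)) ≤ R * UU α 1 (m + 2^(3*i+5)) (wg (γ 0)) :=
        mul_le_mul_of_nonneg_right hb v2.le
      nlinarith
    · have : (1 - T) * UU α 1 m (wg (γ 0)) ≤ R * UU α 1 m (wg (γ 0)) :=
        mul_le_mul_of_nonneg_right hb v1.le
      nlinarith
  have hpow : 8^(i+2) = 2 * 2^(3*i+5) := by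
    rw [← pow_succ', show 3*i+5+1 = 3*(i+2) by ring, pow_mul]; norm_num
  have hpow2 : 8^(i+1) = 2 * 2^(3*i+2) := by
    rw [← pow_succ', show 3*i+2+1 = 3*(i+1) by ring, pow_mul]; norm_num
  rcases Nat.even_or_odd' N with ⟨m, hm | hm⟩
  · have hmlt : m < 2^(3*i+2) := by omega
    have h1 := key m hmlt
    rw [hm, hpow, ← mul_add, alpha_even hγ hα, alpha_even hγ hα]
    have e : (1 - 2 * γ 0) * (1 - UU α (0+1) m (wg (γ 0))) -
        (1 - 2 * γ 0) * (1 - UU α (0+1) (m + 2^(3*i+5)) (wg (γ 0)))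
        = -((1 - 2 * γ 0) * (UU α 1 m (wg (γ 0)) - UU α 1 (m + 2^(3*i+5)) (wg (γ 0)))) := by
      simp only [zero_add]; ring
    rw [e, abs_neg, abs_mul, abs_of_nonneg (by linarith : 0 ≤ 1 - 2 * γ 0)]
    have h3 := abs_nonneg (UU α 1 m (wg (γ 0)) - UU α 1 (m + 2^(3*i+5)) (wg (γ 0)))
    nlinarith
  · have hmlt : m < 2^(3*i+2) := by omega
    have h1 := key m hmlt
    rw [hm, hpow, show 2 * m + 1 + 2 * 2^(3*i+5) = 2 * (m + 2^(3*i+5)) + 1 by ring,
      alpha_odd hγ hα, alpha_odd hγ hα]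
    have e : (1 - 2 * γ 0) * UU α (0+1) m (wg (γ 0)) -
        (1 - 2 * γ 0) * UU α (0+1) (m + 2^(3*i+5)) (wg (γ 0))
        = (1 - 2 * γ 0) * (UU α 1 m (wg (γ 0)) - UU α 1 (m + 2^(3*i+5)) (wg (γ 0))) := by
      simp only [zero_add]; ring
    rw [e, abs_mul, abs_of_nonneg (by linarith : 0 ≤ 1 - 2 * γ 0)]
    have h3 := abs_nonneg (UU α 1 m (wg (γ 0)) - UU α 1 (m + 2^(3*i+5)) (wg (γ 0)))
    nlinarith

lemma xi_four (k : ℕ) : xi k 4 = xi k 0 + 4 * 8^k := by
  induction k with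
  | zero => simp [xi]
  | succ k ih => rw [xi, xi, ih, pow_succ]; ring

lemma xi_ge (k : ℕ) : k ≤ xi k 0 := by
  induction k with
  | zero => simp
  | succ k ih => rw [xi]; omega

include hP hγ hα in
lemma high (k : ℕ) : 39/1000 ≤ α 0 (2 * xi k 0 + 1) := by
  obtain ⟨h0, h01⟩ := hγ 0
  have hw := w_gt _ h0 h01
  rw [alpha_odd hγ hα]
  have h1 := M_all hP hγ hα k 0
  simp only [mul_zero, zero_add] at h1 ⊢
  have h2 := U_mono hγ hα 1 (xi k 0) 1 (wg (γ 0)) le_rfl hw.le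
  nlinarith

include hP hγ hα in
lemma low (k : ℕ) : α 0 (2 * xi k 0 + 1 + 8^(k+1)) ≤ 13/1000 := by
  obtain ⟨h0, h01⟩ := hγ 0
  have hw := w_gt _ h0 h01
  have e : 2 * xi k 0 + 1 + 8^(k+1) = 2 * xi k 4 + 1 := by
    rw [xi_four, pow_succ]; ring
  rw [e, alpha_odd hγ hα]
  have h1 := C_all hP hγ hα k 0 28 (1 + rho 0 28) (by have := rho_pos 28 0; linarith) le_rfl
  simp only [mul_zero, zero_add] at h1 ⊢
  rw [w_0 hP]
  have h3 : Bd 0 28 ≤ 12/1000 := by unfold Bd; norm_num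
  have h4 := U_pos hγ hα 1 (xi k 4) (1 + rho 0 28) (by have := rho_pos 28 0; linarith)
  nlinarith

end

end Pool.Agent.CK
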