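import Mathlib
import Pool.Agent.CK.Level

set_option autoImplicit false
set_option linter.unusedSectionVars false
open MeasureTheory Filter Topology Set
open scoped ENNReal NNReal BoundedContinuousFunction

namespace Pool.Agent.CK

lemma ktc_cont (n : ℕ) : Continuous (fun q : ℝ × ℝ =>
    Real.toNNReal (Real.log 2 - Real.log (max |q.1 - q.2| (1/((n:ℝ)+1))))) := by
  have hpos : ∀ q : ℝ × ℝ, max |q.1 - q.2| (1/((n:ℝ)+1)) ≠ 0 := by
    intro q
    have : 0 < 1/((n:ℝ)+1) := by positivity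
    exact (lt_of_lt_of_le this (le_max_right _ _)).ne'
  have h1 : Continuous (fun q : ℝ × ℝ => max |q.1 - q.2| (1/((n:ℝ)+1))) := by fun_prop
  have h2 : Continuous (fun q : ℝ × ℝ => Real.log 2 - Real.log (max |q.1 - q.2| (1/((n:ℝ)+1)))) :=
    continuous_const.sub (h1.log hpos)
  exact continuous_real_toNNReal.comp h2

lemma ktc_le (n : ℕ) (q : ℝ × ℝ) :
    ((Real.toNNReal (Real.log 2 - Real.log (max |q.1 - q.2| (1/((n:ℝ)+1)))) : ℝ≥0) : ℝ)
      ≤ Real.log 2 + Real.log ((n:ℝ)+1) := by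
  have h0 : 0 < 1/((n:ℝ)+1) := by positivity
  have h1 : Real.log (1/((n:ℝ)+1)) ≤ Real.log (max |q.1 - q.2| (1/((n:ℝ)+1))) :=
    Real.log_le_log h0 (le_max_right _ _)
  have h2 : Real.log (1/((n:ℝ)+1)) = - Real.log ((n:ℝ)+1) := by
    rw [one_div, Real.log_inv]
  have h3 : 0 ≤ Real.log 2 + Real.log ((n:ℝ)+1) := by
    have := Real.log_nonneg (by norm_num : (1:ℝ) ≤ 2)
    have := Real.log_nonneg (by linarith [Nat.cast_nonneg (α := ℝ) n] : (1:ℝ) ≤ (n:ℝ)+1)
    linarith
  rw [Real.coe_toNNReal']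
  apply max_le _ h3
  linarith

/-- truncated kernel -/
noncomputable def kt (n : ℕ) : ℝ × ℝ →ᵇ ℝ≥0 :=
  BoundedContinuousFunction.mkOfBound ⟨_, ktc_cont n⟩ (Real.log 2 + Real.log ((n:ℝ)+1))
    (fun x y => by
      rw [NNReal.dist_eq, abs_le]
      have h1 := ktc_le n x
      have h2 := ktc_le n y
      have h3 := NNReal.coe_nonneg (Real.toNNReal (Real.log 2 - Real.log (max |x.1 - x.2| (1/((n:ℝ)+1)))))
      have h4 := NNReal.coe_nonneg (Real.toNNReal (Real.log 2 - Real.log (max |y.1 - y.2| (1/((n:ℝ)+1)))))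
      simp only [ContinuousMap.coe_mk]
      constructor <;> linarith)

lemma kt_apply (n : ℕ) (x y : ℝ) :
    ((kt n (x, y) : ℝ≥0) : ℝ≥0∞) = ENNReal.ofReal (Real.log 2 - Real.log (max |x - y| (1/((n:ℝ)+1)))) := rfl

lemma kt_le (n : ℕ) (x y : ℝ) : ((kt n (x, y) : ℝ≥0) : ℝ≥0∞) ≤ k2 x y := by
  rw [kt_apply]
  unfold k2
  by_cases h : x = y
  · simp [h]
  · rw [if_neg h]
    apply ENNReal.ofReal_le_ofReal
    have := Real.log_le_log (abs_pos.mpr (sub_ne_zero.mpr h)) (le_max_left |x - y| (1/((n:ℝ)+1)))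
    linarith

lemma kt_mono (x y : ℝ) : Monotone (fun n => ((kt n (x, y) : ℝ≥0) : ℝ≥0∞)) := by
  intro m n hmn
  simp only [kt_apply]
  apply ENNReal.ofReal_le_ofReal
  have h0 : 0 < 1/((n:ℝ)+1) := by positivity
  have h1 : 1/((n:ℝ)+1) ≤ 1/((m:ℝ)+1) := by
    apply one_div_le_one_div_of_le (by positivity)
    have : (m:ℝ) ≤ n := by exact_mod_cast hmn
    linarith
  have := Real.log_le_log (lt_of_lt_of_le h0 (le_max_right |x - y| _)) (max_le_max (le_refl |x-y|) h1)
  linarith

lemma kt_sup (x y : ℝ) : ⨆ n, ((kt n (x, y) : ℝ≥0) : ℝ≥0∞) = k2 x y := by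
  apply le_antisymm (iSup_le fun n => kt_le n x y)
  unfold k2
  by_cases h : x = y
  · rw [if_pos h, top_le_iff]
    subst h
    rw [iSup_eq_top]
    intro b hb
    obtain ⟨n, hn⟩ := exists_nat_gt (Real.exp (b.toReal))
    refine ⟨n, ?_⟩
    rw [kt_apply]
    have h0 : 0 < 1/((n:ℝ)+1) := by positivity
    rw [sub_self, abs_zero, max_eq_right h0.le, one_div, Real.log_inv]
    rw [ENNReal.lt_ofReal_iff_toReal_lt hb.ne]
    have h1 : b.toReal < Real.log ((n:ℝ)+1) := by
      rw [Real.lt_log_iff_exp_lt (by positivity)]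
      linarith
    have := Real.log_nonneg (by norm_num : (1:ℝ) ≤ 2)
    linarith
  · rw [if_neg h]
    have hp := abs_pos.mpr (sub_ne_zero.mpr h)
    obtain ⟨n, hn⟩ := exists_nat_gt (1/|x-y|)
    refine le_trans ?_ (le_iSup _ n)
    rw [kt_apply]
    have : 1/((n:ℝ)+1) ≤ |x - y| := by
      rw [div_le_iff₀ (by positivity)]
      rw [div_lt_iff₀ hp] at hn
      nlinarith
    rw [max_eq_left this]

lemma En_sup (μ : Measure ℝ) [SFinite μ] :
    En μ μ = ⨆ n, ∫⁻ q, (kt n q : ℝ≥0∞) ∂(μ.prod μ) := by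
  have hm : ∀ n, Measurable (fun q : ℝ × ℝ => ((kt n q : ℝ≥0) : ℝ≥0∞)) := by
    intro n
    exact (ENNReal.continuous_coe.comp (kt n).continuous).measurable
  rw [← lintegral_iSup hm]
  · unfold En
    rw [← lintegral_prod _ measurable_k2.aemeasurable]
    apply lintegral_congr
    rintro ⟨x, y⟩
    exact (kt_sup x y).symm
  · intro m n hmn q
    exact kt_mono q.1 q.2 hmn

lemma kt_int_le (n : ℕ) (μ : Measure ℝ) [SFinite μ] :
    ∫⁻ q, (kt n q : ℝ≥0∞) ∂(μ.prod μ) ≤ En μ μ := by
  rw [En_sup]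
  exact le_iSup (fun n => ∫⁻ q, (kt n q : ℝ≥0∞) ∂(μ.prod μ)) n

/-- uniform probability on `[-1,1]` -/
noncomputable def lam0 : Measure ℝ := (2⁻¹ : ℝ≥0∞) • volume.restrict (Icc (-1:ℝ) 1)

lemma lam0_prob : IsProbabilityMeasure lam0 := by
  constructor
  unfold lam0
  simp only [Measure.smul_apply, MeasurableSet.univ, Measure.restrict_apply, univ_inter, Real.volume_Icc,
    smul_eq_mul]
  norm_num
  exact ENNReal.inv_mul_cancel (by simp) (by simp)

lemma lam0_ae : ∀ᵐ x ∂lam0, |x| ≤ 1 := by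
  unfold lam0
  apply Measure.ae_smul_measure
  filter_upwards [ae_restrict_mem measurableSet_Icc] with x hx
  exact abs_le.mpr hx

lemma lam0_W (r u : ℝ) (hr0 : 0 ≤ r) (hr : r ≤ 2) :
    W lam0 r u ≤ (Icc (-1:ℝ) 3).indicator (fun _ => ENNReal.ofReal (r/2)) u := by
  rw [W_eq]
  by_cases hu : u ∈ Icc (-1:ℝ) 3
  · rw [Set.indicator_of_mem hu]
    unfold lam0
    rw [Measure.smul_apply, smul_eq_mul]
    calc 2⁻¹ * (volume.restrict (Icc (-1:ℝ) 1)) (Icc (u - r) u) ≤ 2⁻¹ * volume (Icc (u - r) u) := by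
          apply mul_le_mul_right
          exact Measure.restrict_apply_le _ _
      _ = ENNReal.ofReal (r/2) := by
          rw [Real.volume_Icc]
          have : (2⁻¹ : ℝ≥0∞) = ENNReal.ofReal (1/2) := by
            rw [one_div, ENNReal.ofReal_inv_of_pos (by norm_num)]; norm_num
          rw [this, ← ENNReal.ofReal_mul (by norm_num)]
          congr 1; ring
  · rw [Set.indicator_of_notMem hu]
    have : lam0 (Icc (u - r) u) = 0 := by
      unfold lam0
      rw [Measure.smul_apply, smul_eq_mul, Measure.restrict_apply measurableSet_Icc]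
      have : Icc (u - r) u ∩ Icc (-1:ℝ) 1 = ∅ := by
        rw [Set.eq_empty_iff_forall_notMem]
        rintro x ⟨h1, h2⟩
        apply hu
        constructor
        · exact le_trans h2.1 h1.2
        · linarith [h1.1, h2.2]
      rw [this]; simp
    rw [this]

lemma lam0_fin : En lam0 lam0 < ⊤ := by
  have := lam0_prob
  rw [En_eq lam0 lam0 lam0_ae lam0_ae, lint_rm _ (by
    have := measurable_W lam0
    have h : Measurable (fun q : ℝ × ℝ => W lam0 q.1 q.2 * W lam0 q.1 q.2) := this.mul this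
    exact h.lintegral_prod_right')]
  have key : ∀ r, 0 ≤ r → r ≤ 2 → ∫⁻ u, W lam0 r u * W lam0 r u ≤ ENNReal.ofReal (r^2) := by
    intro r h0 h2
    calc ∫⁻ u, W lam0 r u * W lam0 r u
        ≤ ∫⁻ u, (Icc (-1:ℝ) 3).indicator (fun _ => ENNReal.ofReal (r/2) * ENNReal.ofReal (r/2)) u := by
          apply lintegral_mono
          intro u
          have h := lam0_W r u h0 h2
          by_cases hu : u ∈ Icc (-1:ℝ) 3
          · rw [Set.indicator_of_mem hu] at h ⊢
            exact mul_le_mul' h h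
          · rw [Set.indicator_of_notMem hu] at h ⊢
            have : W lam0 r u = 0 := le_antisymm h (zero_le)
            simp [this]
      _ = ENNReal.ofReal (r^2) := by
          rw [lintegral_indicator_const measurableSet_Icc, Real.volume_Icc,
            ← ENNReal.ofReal_mul (by positivity), ← ENNReal.ofReal_mul (by positivity)]
          congr 1; ring
  apply ENNReal.add_lt_top.mpr
  constructor
  · apply ENNReal.mul_lt_top ENNReal.ofReal_lt_top
    exact lt_of_le_of_lt (key 2 (by norm_num) le_rfl) ENNReal.ofReal_lt_top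
  · calc ∫⁻ r in Ioo (0:ℝ) 2, ENNReal.ofReal (1/r^2) * ∫⁻ u, W lam0 r u * W lam0 r u
        ≤ ∫⁻ r in Ioo (0:ℝ) 2, 1 := by
          apply setLIntegral_mono measurable_const
          intro r hr
          have h0 := hr.1
          calc ENNReal.ofReal (1/r^2) * ∫⁻ u, W lam0 r u * W lam0 r u
              ≤ ENNReal.ofReal (1/r^2) * ENNReal.ofReal (r^2) := by
                apply mul_le_mul_right
                exact key r h0.le hr.2.le
            _ = 1 := by
                rw [← ENNReal.ofReal_mul (by positivity)]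
                have : 1 / r^2 * r^2 = 1 := by field_simp
                rw [this]; simp
      _ < ⊤ := by
          rw [setLIntegral_one, Real.volume_Ioo]
          exact ENNReal.ofReal_lt_top

end Pool.Agent.CK
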