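import Mathlib
import Pool.Agent.CK.Exist

set_option autoImplicit false
set_option linter.unusedSectionVars false
open MeasureTheory Filter Topology Set
open scoped ENNReal NNReal BoundedContinuousFunction

namespace Pool.Agent.CK

/-- escape set within `m` steps -/
def Km : ℕ → (ℕ → ℝ) → Set ℝ
  | 0, _ => {x | 1 < |x|}
  | (m+1), γ => {x | 1 < |x|} ∪ (fg (γ 0)) ⁻¹' (Km m (fun k => γ (k+1)))

lemma continuous_fg (g : ℝ) : Continuous (fg g) := by unfold fg; fun_prop

lemma isOpen_one : IsOpen {x : ℝ | 1 < |x|} := isOpen_lt continuous_const continuous_abs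

lemma Km_open (m : ℕ) : ∀ γ, IsOpen (Km m γ) := by
  induction m with
  | zero => intro γ; exact isOpen_one
  | succ m ih => intro γ; exact isOpen_one.union ((ih _).preimage (continuous_fg _))

lemma Kc_eq (γ : ℕ → ℝ) : Kc γ = ⋃ m, Km m γ := by
  have h1 : ∀ m γ, Km m γ ⊆ Kc γ := by
    intro m
    induction m with
    | zero => intro γ x hx; rw [mem_Kc]; exact Or.inl hx
    | succ m ih =>
      intro γ x hx
      rw [mem_Kc]
      rcases hx with hx | hx
      · exact Or.inl hx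
      · exact Or.inr (ih _ hx)
  have h2 : ∀ (s : ℕ) (γ : ℕ → ℝ) (x : ℝ),
      1 < |List.foldl (fun (y : ℝ) (k : ℕ) => fg (γ k) y) x (List.range s)| → x ∈ Km s γ := by
    intro s
    induction s with
    | zero => intro γ x hx; simpa [Km] using hx
    | succ s ih =>
      intro γ x hx
      rw [foldl_shift] at hx
      exact Or.inr (ih (fun k => γ (k+1)) _ hx)
  apply Subset.antisymm
  · rintro x ⟨s, hs⟩
    exact mem_iUnion.mpr ⟨s, h2 s γ x hs⟩
  · exact iUnion_subset (fun m => h1 m γ)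

/-- iterated pullbacks of `lam0` -/
noncomputable def pbk : ℕ → (ℕ → ℝ) → Measure ℝ
  | 0, _ => lam0
  | (m+1), γ => pb (γ 0) (pbk m (fun k => γ (k+1)))

lemma pbk_prob (m : ℕ) : ∀ γ, IsProbabilityMeasure (pbk m γ) := by
  induction m with
  | zero => intro γ; exact lam0_prob
  | succ m ih =>
    intro γ
    have := ih (fun k => γ (k+1))
    exact pb_prob _ _

lemma pb_null (g : ℝ) (hg : 0 < g) (hg1 : g < 1/4) (ν : Measure ℝ) (S : Set ℝ) (hS : IsOpen S)
    (h1 : ∀ᵐ x ∂ν, |x| ≤ 1) (h2 : ν S = 0) :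
    (pb g ν) ({x | 1 < |x|} ∪ (fg g) ⁻¹' S) = 0 := by
  have hae := measure_eq_zero_iff_ae_notMem.mp h2
  have hms : MeasurableSet ({x : ℝ | 1 < |x|} ∪ (fg g) ⁻¹' S) :=
    (isOpen_one.union (hS.preimage (continuous_fg _))).measurableSet
  unfold pb
  have e1 : (ν.map (gb g)) ({x | 1 < |x|} ∪ (fg g) ⁻¹' S) = 0 := by
    rw [Measure.map_apply (measurable_gb _) hms]
    apply measure_eq_zero_iff_ae_notMem.mpr
    filter_upwards [hae, h1] with y h3 h4
    rw [mem_preimage, mem_union, not_or]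
    refine ⟨not_lt.mpr (gb_le _ _ hg h4), ?_⟩
    rw [mem_preimage, fg_gb _ _ hg hg1 h4]
    exact h3
  have e2 : (ν.map (fun y => - gb g y)) ({x | 1 < |x|} ∪ (fg g) ⁻¹' S) = 0 := by
    rw [Measure.map_apply (measurable_ngb _) hms]
    apply measure_eq_zero_iff_ae_notMem.mpr
    filter_upwards [hae, h1] with y h3 h4
    rw [mem_preimage, mem_union, not_or]
    have h5 : |-(gb g y)| ≤ 1 := by rw [abs_neg]; exact gb_le _ _ hg h4
    refine ⟨not_lt.mpr h5, ?_⟩
    rw [mem_preimage, fg_neg, fg_gb _ _ hg hg1 h4]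
    exact h3
  simp [e1, e2]

lemma ae_of_null {ν : Measure ℝ} {S : Set ℝ} (hS : {x | 1 < |x|} ⊆ S) (h : ν S = 0) :
    ∀ᵐ x ∂ν, |x| ≤ 1 := by
  have := measure_eq_zero_iff_ae_notMem.mp (measure_mono_null hS h)
  filter_upwards [this] with x hx
  exact not_lt.mp hx

lemma one_sub_Km (m : ℕ) (γ : ℕ → ℝ) : {x : ℝ | 1 < |x|} ⊆ Km m γ := by
  cases m with
  | zero => exact Subset.rfl
  | succ m => exact subset_union_left

lemma pbk_null (m : ℕ) : ∀ γ : ℕ → ℝ, (∀ k, 0 < γ k ∧ γ k < 1/4) → ∀ j ≤ m, pbk m γ (Km j γ) = 0 := by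
  induction m with
  | zero =>
    intro γ _ j hj
    have : j = 0 := by omega
    subst this
    have := lam0_ae
    rw [ae_iff] at this
    simpa [pbk, Km] using this
  | succ m ih =>
    intro γ hγ j hj
    have ih' := ih (fun k => γ (k+1)) (fun k => hγ (k+1))
    have h1 : ∀ᵐ x ∂(pbk m (fun k => γ (k+1))), |x| ≤ 1 :=
      ae_of_null (one_sub_Km 0 _) (ih' 0 (by omega))
    cases j with
    | zero =>
      have := pb_null (γ 0) (hγ 0).1 (hγ 0).2 (pbk m (fun k => γ (k+1))) ∅ isOpen_empty h1 (by simp)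
      simpa [pbk, Km] using this
    | succ j =>
      exact pb_null (γ 0) (hγ 0).1 (hγ 0).2 (pbk m (fun k => γ (k+1))) _ (Km_open j _) h1
        (ih' j (by omega))

lemma pbk_ae (m : ℕ) (γ : ℕ → ℝ) (hγ : ∀ k, 0 < γ k ∧ γ k < 1/4) : ∀ᵐ x ∂(pbk m γ), |x| ≤ 1 :=
  ae_of_null (one_sub_Km 0 γ) (pbk_null m γ hγ 0 (Nat.zero_le _))

lemma pb_energy (g : ℝ) (hg : 0 < g) (hg1 : g < 1/4) (ν : Measure ℝ) [IsProbabilityMeasure ν]
    (h : ∀ᵐ x ∂ν, |x| ≤ 1) : En ν ν + ENNReal.ofReal (- Real.log g) = 2 * En (pb g ν) (pb g ν) := by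
  have := pb_prob g ν
  have hnull := pb_null g hg hg1 ν {x | 1 < |x|} isOpen_one h (by
    rw [ae_iff] at h; simpa using h)
  have h1 : ∀ᵐ x ∂(pb g ν), |x| ≤ 1 := ae_of_null subset_union_left hnull
  have h2 : ∀ᵐ x ∂(pb g ν), |fg g x| ≤ 1 := by
    have := measure_eq_zero_iff_ae_notMem.mp (measure_mono_null subset_union_right hnull)
    filter_upwards [this] with x hx
    exact not_lt.mp hx
  have hE := En_fg g hg (by linarith) (pb g ν) (pb_symm g ν) h1 h2
  rw [pb_map g hg hg1 ν h] at hE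
  exact hE

/-- energy of the image is controlled by the energy -/
lemma image_energy (g : ℝ) (hg : 0 < g) (hg1 : g < 1/4) (ν : Measure ℝ) [IsProbabilityMeasure ν]
    (h1 : ∀ᵐ x ∂ν, |x| ≤ 1) (h2 : ∀ᵐ x ∂ν, |fg g x| ≤ 1) :
    En (ν.map (fg g)) (ν.map (fg g)) + ENNReal.ofReal (- Real.log g) ≤ 2 * En ν ν := by
  set ρ := ν.map (fun x => -x) with hR
  have hRp : IsProbabilityMeasure ρ := Measure.isProbabilityMeasure_map measurable_neg.aemeasurable
  set σ := (2⁻¹ : ENNReal) • ν + (2⁻¹ : ENNReal) • ρ with hσ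
  have hσp : IsProbabilityMeasure σ := midpoint_prob ν ρ
  have hRae1 : ∀ᵐ x ∂ρ, |x| ≤ 1 := by
    rw [hR, ae_map_iff measurable_neg.aemeasurable (measurableSet_le (by fun_prop) measurable_const)]
    simpa using h1
  have hRae2 : ∀ᵐ x ∂ρ, |fg g x| ≤ 1 := by
    rw [hR, ae_map_iff measurable_neg.aemeasurable (measurableSet_le (measurable_fg g).abs measurable_const)]
    simpa [fg_neg] using h2
  have comb : ∀ P : ℝ → Prop, (∀ᵐ x ∂ν, P x) → (∀ᵐ x ∂ρ, P x) → ∀ᵐ x ∂σ, P x := by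
    intro P a b
    rw [hσ, ae_add_measure_iff]
    exact ⟨Measure.ae_smul_measure a _, Measure.ae_smul_measure b _⟩
  have hsym : σ.map (fun x => -x) = σ := by
    rw [hσ, Measure.map_add _ _ measurable_neg, Measure.map_smul, Measure.map_smul, hR,
      Measure.map_map measurable_neg measurable_neg]
    have : ((fun x : ℝ => -x) ∘ fun x => -x) = id := by ext x; simp
    rw [this, Measure.map_id, add_comm]
  have hmapσ : σ.map (fg g) = ν.map (fg g) := by
    rw [hσ, Measure.map_add _ _ (measurable_fg g), Measure.map_smul, Measure.map_smul, hR,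
      Measure.map_map (measurable_fg g) measurable_neg]
    have : (fg g ∘ fun x => -x) = fg g := by ext x; exact fg_neg g x
    rw [this, ← add_smul, ENNReal.inv_two_add_inv_two, one_smul]
  have hE := En_fg g hg (by linarith) σ hsym (comb _ h1 hRae1) (comb _ h2 hRae2)
  rw [hmapσ] at hE
  rw [hE]
  have hER : En ρ ρ = En ν ν := by
    rw [hR, En_map _ _ _ measurable_neg]
    simp_rw [k2_neg]
    rfl
  have h4 := En_half ν ρ
  have h5 := En_ineq ν ρ h1 hRae1
  rw [hER] at h4 h5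
  have h6 : 2 * En ν ρ ≤ En ν ν + En ν ν := by rw [h5]; exact le_self_add
  have h7 : 4 * En σ σ ≤ 4 * En ν ν := by
    rw [hσ, h4]
    calc En ν ν + En ν ν + 2 * En ν ρ ≤ En ν ν + En ν ν + (En ν ν + En ν ν) := by
          exact add_le_add_right h6 _
      _ = 4 * En ν ν := by ring
  have h8 : En σ σ ≤ En ν ν := (ENNReal.mul_le_mul_iff_right (by norm_num) (by norm_num)).mp h7
  exact mul_le_mul_right h8 2

lemma pbk_energy (m : ℕ) : ∀ γ : ℕ → ℝ, (∀ k, 0 < γ k ∧ γ k < 1/4) → ∀ ν : Measure ℝ,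
    IsProbabilityMeasure ν → ν (Kc γ) = 0 →
    2^m * En (pbk m γ) (pbk m γ) ≤ 2^m * En ν ν + En lam0 lam0 := by
  induction m with
  | zero =>
    intro γ _ ν _ _
    simp only [pow_zero, one_mul, pbk]
    exact le_add_self
  | succ m ih =>
    intro γ hγ ν hν hνs
    have hp := pbk_prob m (fun k => γ (k+1))
    have hpe := pb_energy (γ 0) (hγ 0).1 (hγ 0).2 (pbk m (fun k => γ (k+1)))
      (pbk_ae m _ (fun k => hγ (k+1)))
    have hie := image_energy (γ 0) (hγ 0).1 (hγ 0).2 ν (ae_le_one hνs) (ae_f_le_one hνs)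
    have hnp : IsProbabilityMeasure (ν.map (fg (γ 0))) :=
      Measure.isProbabilityMeasure_map (measurable_fg _).aemeasurable
    have hns : (ν.map (fg (γ 0))) (Kc (fun k => γ (k+1))) = 0 := by
      rw [Measure.map_apply (measurable_fg _) (measurableSet_Kc _)]
      apply measure_mono_null _ hνs
      intro x hx
      rw [mem_Kc]
      exact Or.inr hx
    have ih' := ih (fun k => γ (k+1)) (fun k => hγ (k+1)) _ hnp hns
    have e : (2:ℝ≥0∞)^(m+1) * En (pbk (m+1) γ) (pbk (m+1) γ)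
        = 2^m * (En (pbk m (fun k => γ (k+1))) (pbk m (fun k => γ (k+1))) + ENNReal.ofReal (- Real.log (γ 0))) := by
      rw [hpe, pow_succ, mul_assoc]
      rfl
    rw [e, mul_add]
    calc 2^m * En (pbk m (fun k => γ (k+1))) (pbk m (fun k => γ (k+1))) + 2^m * ENNReal.ofReal (- Real.log (γ 0))
        ≤ (2^m * En (ν.map (fg (γ 0))) (ν.map (fg (γ 0))) + En lam0 lam0)
            + 2^m * ENNReal.ofReal (- Real.log (γ 0)) := add_le_add_left ih' _
      _ = 2^m * (En (ν.map (fg (γ 0))) (ν.map (fg (γ 0))) + ENNReal.ofReal (- Real.log (γ 0)))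
            + En lam0 lam0 := by ring
      _ ≤ 2^m * (2 * En ν ν) + En lam0 lam0 := add_le_add_left (mul_le_mul_right hie _) _
      _ = 2^(m+1) * En ν ν + En lam0 lam0 := by rw [pow_succ]; ring

lemma pbk_bound (m : ℕ) : ∀ γ : ℕ → ℝ, (∀ k, 0 < γ k ∧ γ k < 1/4) → ∀ b : ℝ, 0 ≤ b →
    (∀ k : ℕ, - Real.log (γ k) ≤ b + 5 * k) →
    En (pbk m γ) (pbk m γ) ≤ En lam0 lam0 + ENNReal.ofReal (b + 5) := by
  induction m with
  | zero => intro γ _ b _ _; simp only [pbk]; exact le_self_add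
  | succ m ih =>
    intro γ hγ b hb hlog
    have hp := pbk_prob m (fun k => γ (k+1))
    have hpe := pb_energy (γ 0) (hγ 0).1 (hγ 0).2 (pbk m (fun k => γ (k+1)))
      (pbk_ae m _ (fun k => hγ (k+1)))
    have ih' := ih (fun k => γ (k+1)) (fun k => hγ (k+1)) (b+5) (by linarith) (by
      intro k
      have := hlog (k+1)
      push_cast at this
      linarith)
    have h0 := hlog 0
    simp only [Nat.cast_zero, mul_zero, add_zero] at h0
    have h1 : 2 * En (pbk (m+1) γ) (pbk (m+1) γ) ≤ 2 * (En lam0 lam0 + ENNReal.ofReal (b+5)) := by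
      calc 2 * En (pbk (m+1) γ) (pbk (m+1) γ)
          = En (pbk m (fun k => γ (k+1))) (pbk m (fun k => γ (k+1))) + ENNReal.ofReal (- Real.log (γ 0)) :=
            hpe.symm
        _ ≤ (En lam0 lam0 + ENNReal.ofReal (b + 5 + 5)) + ENNReal.ofReal b :=
            add_le_add ih' (ENNReal.ofReal_le_ofReal h0)
        _ = En lam0 lam0 + ENNReal.ofReal (2 * (b + 5)) := by
            rw [add_assoc, ← ENNReal.ofReal_add (by linarith) hb]
            congr 2; ring
        _ ≤ (En lam0 lam0 + En lam0 lam0) + ENNReal.ofReal (2 * (b + 5)) :=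
            add_le_add_left le_self_add _
        _ = 2 * (En lam0 lam0 + ENNReal.ofReal (b+5)) := by
            rw [ENNReal.ofReal_mul (by norm_num)]
            simp only [ENNReal.ofReal_ofNat]
            ring
    exact (ENNReal.mul_le_mul_iff_right (by norm_num) (by norm_num)).mp h1

/-- Existence of the equilibrium measure. -/
theorem exists_isEq (γ : ℕ → ℝ) (hγ : ∀ k, 0 < γ k ∧ γ k < 1/4) (b : ℝ) (hb : 0 ≤ b)
    (hlog : ∀ k : ℕ, - Real.log (γ k) ≤ b + 5 * k) : ∃ μ : Measure ℝ, IsEq γ μ := by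
  let P : ℕ → ProbabilityMeasure ℝ := fun m => ⟨pbk m γ, pbk_prob m γ⟩
  have hcomp : IsCompact {μ : ProbabilityMeasure ℝ | ∀ _ : ℕ, μ (Icc (-1:ℝ) 1)ᶜ ≤ 0} :=
    isCompact_setOfPred_probabilityMeasure_mass_eq_compl_isCompact_le (u := fun _ => 0)
      (K := fun _ => Icc (-1:ℝ) 1) tendsto_const_nhds (fun _ => isCompact_Icc) (Or.inl inferInstance)
  have hPmem : ∀ m, P m ∈ {μ : ProbabilityMeasure ℝ | ∀ _ : ℕ, μ (Icc (-1:ℝ) 1)ᶜ ≤ 0} := by
    intro m _
    have h1 : pbk m γ (Icc (-1:ℝ) 1)ᶜ = 0 := by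
      have := pbk_ae m γ hγ
      rw [ae_iff] at this
      convert this using 2
      ext x
      simp only [mem_compl_iff, mem_Icc, mem_ofPred_eq, abs_le]
    have : (P m) (Icc (-1:ℝ) 1)ᶜ = 0 := by
      rw [ProbabilityMeasure.null_iff_toMeasure_null]
      exact h1
    rw [this]
  have hmapP : ((hyperfilter ℕ).map P : Filter (ProbabilityMeasure ℝ)) ≤
      𝓟 {μ : ProbabilityMeasure ℝ | ∀ _ : ℕ, μ (Icc (-1:ℝ) 1)ᶜ ≤ 0} := by
    have : Tendsto P (hyperfilter ℕ : Filter ℕ)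
        (𝓟 {μ : ProbabilityMeasure ℝ | ∀ _ : ℕ, μ (Icc (-1:ℝ) 1)ᶜ ≤ 0}) :=
      tendsto_principal.mpr (Filter.Eventually.of_forall hPmem)
    exact this
  obtain ⟨μ, -, hμ⟩ := hcomp.ultrafilter_le_nhds ((hyperfilter ℕ).map P) hmapP
  have hlim : Tendsto P (hyperfilter ℕ : Filter ℕ) (𝓝 μ) := hμ
  have hprod : Tendsto (fun m => (P m).prod (P m)) (hyperfilter ℕ : Filter ℕ) (𝓝 (μ.prod μ)) := by
    have hc := ProbabilityMeasure.continuous_prod (α := ℝ) (β := ℝ)
    have h2 : Tendsto (fun m => (P m, P m)) (hyperfilter ℕ : Filter ℕ) (𝓝 (μ, μ)) :=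
      hlim.prodMk_nhds hlim
    exact (hc.tendsto (μ, μ)).comp h2
  rw [ProbabilityMeasure.tendsto_iff_forall_lintegral_tendsto] at hprod
  have hbound : ∀ B : ℝ≥0∞, ∀ E : ℕ → ℝ≥0∞, (∀ m, En (pbk m γ) (pbk m γ) ≤ E m) →
      Tendsto E atTop (𝓝 B) → En (μ : Measure ℝ) (μ : Measure ℝ) ≤ B := by
    intro B E hE hEB
    rw [En_sup]
    apply iSup_le
    intro n
    have h1 := hprod (kt n)
    have h2 : Tendsto E (hyperfilter ℕ : Filter ℕ) (𝓝 B) :=
      hEB.mono_left (Nat.hyperfilter_le_atTop)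
    apply le_of_tendsto_of_tendsto' h1 h2
    intro m
    refine le_trans ?_ (hE m)
    have := pbk_prob m γ
    exact kt_int_le n (pbk m γ)
  refine ⟨μ, ⟨inferInstance, ?_, ?_, ?_⟩⟩
  · rw [Kc_eq, measure_iUnion_null_iff]
    intro j
    have h1 := ProbabilityMeasure.le_liminf_measure_open_of_tendsto hlim (Km_open j γ)
    have h2 : liminf (fun m => ((P m : ProbabilityMeasure ℝ) : Measure ℝ) (Km j γ)) (hyperfilter ℕ : Filter ℕ) = 0 := by
      have h3 : ∀ᶠ m in (hyperfilter ℕ : Filter ℕ), ((P m : ProbabilityMeasure ℝ) : Measure ℝ) (Km j γ) = 0 := by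
        have : ∀ᶠ m in (atTop : Filter ℕ), ((P m : ProbabilityMeasure ℝ) : Measure ℝ) (Km j γ) = 0 := by
          filter_upwards [eventually_ge_atTop j] with m hm
          exact pbk_null m γ hγ j hm
        exact this.filter_mono Nat.hyperfilter_le_atTop
      rw [liminf_congr h3]
      simp
    rw [h2] at h1
    exact le_antisymm h1 (zero_le)
  · apply ne_top_of_le_ne_top _ (hbound (En lam0 lam0 + ENNReal.ofReal (b+5)) _
      (fun m => pbk_bound m γ hγ b hb hlog) tendsto_const_nhds)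
    exact ENNReal.add_ne_top.mpr ⟨lam0_fin.ne, ENNReal.ofReal_ne_top⟩
  · intro ν hν hνs
    apply hbound (En ν ν) (fun m => En ν ν + En lam0 lam0 * (2⁻¹)^m)
    · intro m
      have h1 := pbk_energy m γ hγ ν hν hνs
      have h2 : (2:ℝ≥0∞)^m ≠ 0 := by positivity
      have h3 : (2:ℝ≥0∞)^m ≠ ⊤ := ENNReal.pow_ne_top (by simp)
      have h4 : (2:ℝ≥0∞)^m * (En ν ν + En lam0 lam0 * (2⁻¹)^m) = 2^m * En ν ν + En lam0 lam0 := by
        rw [mul_add]
        congr 1
        rw [mul_comm (En lam0 lam0), ← mul_assoc, ← mul_pow, ENNReal.mul_inv_cancel (by simp) (by simp),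
          one_pow, one_mul]
      rw [← h4] at h1
      exact (ENNReal.mul_le_mul_iff_right h2 h3).mp h1
    · have h1 : Tendsto (fun m : ℕ => ((2:ℝ≥0∞)⁻¹)^m) atTop (𝓝 0) :=
        ENNReal.tendsto_pow_atTop_nhds_zero_of_lt_one (by
          rw [ENNReal.inv_lt_one]; norm_num)
      have h2 : Tendsto (fun m : ℕ => En lam0 lam0 * ((2:ℝ≥0∞)⁻¹)^m) atTop (𝓝 (En lam0 lam0 * 0)) :=
        ENNReal.Tendsto.const_mul h1 (Or.inr lam0_fin.ne)
      have h3 := h2.const_add (En ν ν)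
      simpa using h3

end Pool.Agent.CK
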