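import Mathlib
import Pool.Agent.CK.Reduce

set_option autoImplicit false
set_option linter.unusedSectionVars false
open MeasureTheory Filter Topology Set Polynomial

namespace Pool.Agent.CK

lemma no_atom (μ : Measure ℝ) [IsProbabilityMeasure μ] (h : En μ μ ≠ ⊤) (x : ℝ) : μ {x} = 0 := by
  by_contra hx
  apply h
  rw [← top_le_iff]
  have h1 : ∀ y ∈ ({x} : Set ℝ), (⊤ : ENNReal) ≤ ∫⁻ z, k2 y z ∂μ := by
    intro y hy
    rw [mem_singleton_iff] at hy
    subst hy
    calc (⊤ : ENNReal) = ∫⁻ z in {y}, ⊤ ∂μ := by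
          rw [setLIntegral_const, ENNReal.top_mul hx]
      _ = ∫⁻ z in {y}, k2 y z ∂μ := by
          apply setLIntegral_congr_fun (measurableSet_singleton y)
          intro z hz
          rw [mem_singleton_iff] at hz
          simp [k2, hz]
      _ ≤ ∫⁻ z, k2 y z ∂μ := setLIntegral_le_lintegral _ _
  calc (⊤ : ENNReal) = ∫⁻ y in {x}, ⊤ ∂μ := by
        rw [setLIntegral_const, ENNReal.top_mul hx]
    _ ≤ ∫⁻ y in {x}, ∫⁻ z, k2 y z ∂μ ∂μ := by
        apply setLIntegral_mono' (measurableSet_singleton x)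
        intro y hy
        exact h1 y hy
    _ ≤ En μ μ := setLIntegral_le_lintegral _ _

section
variable {μ : Measure ℝ} [IsProbabilityMeasure μ] (hs : ∀ᵐ x ∂μ, |x| ≤ 1) (hna : ∀ x, μ {x} = 0)

include hs hna in
lemma ip_pos (q : ℝ[X]) (hq : q ≠ 0) : 0 < ip μ q q := by
  unfold ip
  rw [integral_pos_iff_support_of_nonneg (fun x => mul_self_nonneg _) (integrable_mul hs q q)]
  have hfin : μ {x | q.eval x = 0} = 0 := by
    have : {x | q.eval x = 0} = (q.roots.toFinset : Set ℝ) := by
      ext x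
      simp [hq]
    rw [this]
    have : NullSingletonClass μ := ⟨fun x => hna x⟩
    exact (Finset.finite_toSet _).measure_zero μ
  have hsub : (Function.support fun x => q.eval x * q.eval x)ᶜ ⊆ {x | q.eval x = 0} := by
    intro x hx
    simpa using hx
  have h0 := measure_mono_null hsub hfin
  by_contra hc
  push Not at hc
  have hc0 : μ (Function.support fun x => q.eval x * q.eval x) = 0 := le_antisymm hc (zero_le)
  have h1 : μ univ ≤ 0 := by
    rw [← union_compl_self (Function.support fun x => q.eval x * q.eval x)]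
    refine le_trans (measure_union_le _ _) ?_
    rw [hc0, h0]; simp
  simp at h1

end

/-- Gram Schmidt -/
noncomputable def gsp (μ : Measure ℝ) (n : ℕ) : ℝ[X] :=
  let q : ℝ[X] := X^n - ∑ k : Fin n, C (ip μ (X^n) (gsp μ k)) * gsp μ k
  C (1 / Real.sqrt (ip μ q q)) * q
termination_by n
decreasing_by exact k.2

/-- unnormalised -/
noncomputable def gsq (μ : Measure ℝ) (n : ℕ) : ℝ[X] :=
  X^n - ∑ k ∈ Finset.range n, C (ip μ (X^n) (gsp μ k)) * gsp μ k

lemma gsp_eq (μ : Measure ℝ) (n : ℕ) :
    gsp μ n = C (1 / Real.sqrt (ip μ (gsq μ n) (gsq μ n))) * gsq μ n := by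
  rw [gsp]
  simp only [gsq]
  rw [Finset.sum_range (fun k => C (ip μ (X^n) (gsp μ k)) * gsp μ k)]

section
variable {μ : Measure ℝ} [IsProbabilityMeasure μ] (hs : ∀ᵐ x ∂μ, |x| ≤ 1) (hna : ∀ x, μ {x} = 0)

include hs in
lemma ip_sum (s : Finset ℕ) (f : ℕ → ℝ[X]) (r : ℝ[X]) :
    ip μ (∑ k ∈ s, f k) r = ∑ k ∈ s, ip μ (f k) r := by
  classical
  induction s using Finset.induction_on with
  | empty => simp [ip]
  | insert a s ha ih => rw [Finset.sum_insert ha, Finset.sum_insert ha, ip_add hs, ih]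

include hs hna in
lemma gs_main (n : ℕ) : (gsp μ n).natDegree = n ∧ 0 < (gsp μ n).leadingCoeff ∧
    ip μ (gsp μ n) (gsp μ n) = 1 ∧ ∀ j, j < n → ip μ (gsp μ n) (gsp μ j) = 0 := by
  induction n using Nat.strong_induction_on with
  | _ n ih =>
    have hsumdeg : (∑ k ∈ Finset.range n, C (ip μ (X^n) (gsp μ k)) * gsp μ k).degree < (n : ℕ) := by
      rw [degree_lt_iff_coeff_zero]
      intro m hm
      rw [finsetSum_coeff]
      apply Finset.sum_eq_zero
      intro k hk
      rw [coeff_C_mul, coeff_eq_zero_of_natDegree_lt, mul_zero]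
      rw [(ih k (Finset.mem_range.mp hk)).1]
      have := Finset.mem_range.mp hk
      omega
    have hmonic : (gsq μ n).Monic := by
      unfold gsq
      exact monic_X_pow_sub hsumdeg
    have hne : gsq μ n ≠ 0 := hmonic.ne_zero
    have hdeg : (gsq μ n).natDegree = n := by
      unfold gsq
      have h1 : (X^n - ∑ k ∈ Finset.range n, C (ip μ (X^n) (gsp μ k)) * gsp μ k : ℝ[X]).degree
          = (X^n : ℝ[X]).degree := by
        apply degree_sub_eq_left_of_degree_lt
        rw [degree_X_pow]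
        exact hsumdeg
      rw [degree_X_pow] at h1
      exact natDegree_eq_of_degree_eq_some h1
    have hpos := ip_pos hs hna (gsq μ n) hne
    set N := ip μ (gsq μ n) (gsq μ n) with hN
    have hsq : 0 < Real.sqrt N := Real.sqrt_pos.mpr hpos
    have hc : (1 / Real.sqrt N) ≠ 0 := by positivity
    have hqorth : ∀ j, j < n → ip μ (gsq μ n) (gsp μ j) = 0 := by
      intro j hj
      unfold gsq
      rw [ip_sub hs, ip_sum hs]
      have h1 : ∀ k ∈ Finset.range n, ip μ (C (ip μ (X^n) (gsp μ k)) * gsp μ k) (gsp μ j)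
          = if k = j then ip μ (X^n) (gsp μ j) else 0 := by
        intro k hk
        rw [ip_smul]
        split_ifs with hkj
        · subst hkj
          rw [(ih k (Finset.mem_range.mp hk)).2.2.1, mul_one]
        · rcases lt_or_gt_of_ne hkj with h | h
          · rw [ip_comm (gsp μ k) (gsp μ j), (ih j hj).2.2.2 k h, mul_zero]
          · rw [(ih k (Finset.mem_range.mp hk)).2.2.2 j h, mul_zero]
      rw [Finset.sum_congr rfl h1, Finset.sum_ite_eq' , if_pos (Finset.mem_range.mpr hj), sub_self]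
    refine ⟨?_, ?_, ?_, ?_⟩
    · rw [gsp_eq, natDegree_C_mul hc, hdeg]
    · rw [gsp_eq, leadingCoeff_mul, leadingCoeff_C, hmonic.leadingCoeff, mul_one]
      positivity
    · rw [gsp_eq, ip_smul, ip_comm (gsq μ n) (C (1 / Real.sqrt (ip μ (gsq μ n) (gsq μ n))) * gsq μ n),
        ip_smul, ← hN]
      rw [← mul_assoc, ← mul_div_mul_comm, one_mul, Real.mul_self_sqrt hpos.le]
      exact one_div_mul_cancel hpos.ne'
    · intro j hj
      rw [gsp_eq, ip_smul, hqorth j hj, mul_zero]

include hs hna in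
lemma exists_OP : OP μ (gsp μ) := by
  refine ⟨fun n => (gs_main hs hna n).1, fun n => (gs_main hs hna n).2.1, ?_⟩
  intro m n
  have : ∫ x, (gsp μ m).eval x * (gsp μ n).eval x ∂μ = ip μ (gsp μ m) (gsp μ n) := rfl
  rw [this]
  rcases lt_trichotomy m n with h | h | h
  · rw [if_neg (by omega), ip_comm, (gs_main hs hna n).2.2.2 m h]
  · rw [if_pos h, h, (gs_main hs hna n).2.2.1]
  · rw [if_neg (by omega), (gs_main hs hna m).2.2.2 n h]

end

end Pool.Agent.CK
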