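import Mathlib
import Pool.Agent.CK.Counter2

set_option autoImplicit false
set_option linter.unusedSectionVars false
open Filter Topology Set

namespace Pool.Agent.CK

lemma abs_sqrt_sub (a b : ℝ) (ha : 0 ≤ a) (hb : 0 ≤ b) (t : ℝ) (ht : 0 ≤ t) (h : |a - b| ≤ t^2) :
    |Real.sqrt a - Real.sqrt b| ≤ t := by
  apply abs_le_of_sq_le_sq _ ht
  have a1 := Real.sqrt_nonneg a
  have a2 := Real.sqrt_nonneg b
  have b1 := Real.sq_sqrt ha
  have b2 := Real.sq_sqrt hb
  set u := Real.sqrt a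
  set v := Real.sqrt b
  rw [← b1, ← b2] at h
  have h3 := abs_le.mp h
  rcases le_total u v with huv | huv
  · nlinarith
  · nlinarith

theorem not_AP {γ : ℕ → ℝ} {α : ℕ → ℕ → ℝ} (hP : Par γ) (hγ : ∀ k, 0 < γ k ∧ γ k < 1/4)
    (hα : Arr γ α) (c : ℤ → ℝ) (hc : BohrAP c)
    (hlim : Tendsto (fun n : ℕ => 1/2 * Real.sqrt (α 0 (n+1)) - c n) atTop (𝓝 0)) : False := by
  have hpos : ∀ n, 0 ≤ α 0 n := by
    intro n
    cases n with
    | zero => rw [hα.zero]
    | succ n => exact (hα.pos 0 n).le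
  set ε : ℝ := 1/1000 with hε
  obtain ⟨L, hL⟩ := hc ε (by norm_num)
  rw [Metric.tendsto_atTop] at hlim
  obtain ⟨n0, hn0⟩ := hlim ε (by norm_num)
  -- choose k large
  have hclose : ∀ᶠ i : ℕ in atTop, 3 * gg i * 8^(i+1) ≤ ε^2 := by
    have h1 : Tendsto (fun i : ℕ => (24/10000 : ℝ) * (8/100)^i) atTop (𝓝 0) := by
      have := (tendsto_pow_atTop_nhds_zero_of_lt_one (by norm_num : (0:ℝ) ≤ 8/100) (by norm_num)).const_mul
        (24/10000 : ℝ)
      simpa using this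
    have h2 := h1.eventually (ge_mem_nhds (by positivity : (0:ℝ) < ε^2))
    filter_upwards [h2] with i hi
    have : 3 * gg i * 8^(i+1) = (24/10000 : ℝ) * (8/100)^i := by
      unfold gg
      rw [pow_add, pow_succ, div_pow 8 100, one_div, inv_pow]
      field_simp
      ring
    rw [this]; exact hi
  obtain ⟨i0, hi0⟩ := eventually_atTop.mp hclose
  set i := max (max i0 n0) (L + 2) with hi
  have hi1 : i0 ≤ i := le_trans (le_max_left _ _) (le_max_left _ _)
  have hi2 : n0 ≤ i := le_trans (le_max_right _ _) (le_max_left _ _)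
  have hi3 : L + 2 ≤ i := le_max_right _ _
  set k := i + 1 with hk
  have hcl := hi0 i hi1
  set n := 2 * xi k 0 with hn
  set t := 8^(k+1) with ht
  have hxi := xi_ge k
  obtain ⟨τ, hτ1, hτ2, hτ⟩ := hL ((n : ℤ) - i - L)
  -- j = n - τ
  have hj1 : (i : ℤ) ≤ n - τ := by linarith
  have hj2 : (n : ℤ) - τ ≤ i + L := by linarith
  obtain ⟨j, hj⟩ := Int.eq_ofNat_of_zero_le (by linarith [Int.natCast_nonneg i] : (0:ℤ) ≤ n - τ)
  have hji : i ≤ j := by
    have : (i:ℤ) ≤ (j:ℤ) := by rw [← hj]; exact hj1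
    exact_mod_cast this
  have hjL : j ≤ i + L := by
    have : (j:ℤ) ≤ (i:ℤ) + L := by rw [← hj]; exact hj2
    exact_mod_cast this
  have c1 : |c n - c j| < ε := by
    have := hτ j
    rw [← hj, show (n:ℤ) - τ + τ = n by ring] at this
    rw [← hj]; exact this
  have c2 : |c (n + t : ℕ) - c (j + t : ℕ)| < ε := by
    have := hτ ((j + t : ℕ) : ℤ)
    rw [show ((j + t : ℕ) : ℤ) + τ = ((n + t : ℕ) : ℤ) by push_cast; rw [← hj]; ring] at this
    exact this
  have hpow : i + L + 1 < 8^(i+1) := by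
    have h1 : i + 1 < 2^(i+1) := Nat.lt_two_pow_self
    have h2 : 2 * 2^(i+1) ≤ 8^(i+1) := by
      calc 2 * 2^(i+1) ≤ 4^(i+1) * 2^(i+1) := by
            apply Nat.mul_le_mul_right
            calc 2 ≤ 4^1 := by norm_num
              _ ≤ 4^(i+1) := Nat.pow_le_pow_right (by norm_num) (by omega)
        _ = 8^(i+1) := by rw [← mul_pow]; norm_num
    omega
  have cl := close hP hγ hα i (j+1) (by omega)
  have e1 := hn0 j (by omega)
  have e2 := hn0 (j+t) (le_trans (le_trans hi2 hji) (Nat.le_add_right _ _))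
  have e3 := hn0 n (by omega)
  have e4 := hn0 (n+t) (le_trans (by omega : n0 ≤ n) (Nat.le_add_right _ _))
  rw [Real.dist_eq, sub_zero] at e1 e2 e3 e4
  have s1 : |Real.sqrt (α 0 (j+1)) - Real.sqrt (α 0 (j+t+1))| ≤ ε := by
    apply abs_sqrt_sub _ _ (hpos _) (hpos _) _ (by norm_num)
    rw [show j + t + 1 = j + 1 + 8^(i+2) by rw [ht, hk]; ring]
    linarith
  have hhigh := high hP hγ hα k
  have hlow := low hP hγ hα k
  have s2 : 197/1000 ≤ Real.sqrt (α 0 (n+1)) := by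
    apply Real.le_sqrt_of_sq_le
    rw [hn]; linarith
  have s3 : Real.sqrt (α 0 (n+t+1)) ≤ 115/1000 := by
    rw [Real.sqrt_le_left (by norm_num)]
    rw [show n + t + 1 = 2 * xi k 0 + 1 + 8^(k+1) by rw [hn, ht]; ring]
    linarith
  rw [abs_lt] at c1 c2 e1 e2 e3 e4
  rw [abs_le] at s1
  rw [hε] at *
  linarith [c1.1, c1.2, c2.1, c2.2, e1.1, e1.2, e2.1, e2.2, e3.1, e3.2, e4.1, e4.2, s1.1, s1.2]

end Pool.Agent.CK
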