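import Mathlib
import Pool.Agent.CK.GS
import Pool.Agent.CK.Exist2
import Pool.Agent.CK.NotAP

set_option autoImplicit false
set_option linter.unusedSectionVars false
open MeasureTheory Filter Topology Set Polynomial

namespace Pool.Agent.CK

/-- the counterexample parameters -/
noncomputable def gam (n : ℕ) : ℝ :=
  if n = 0 then 1 / (2 * (2 + rho 0 28))
  else if n % 3 = 1 then 1 / (2 * (2 + rho (n/3) (4*(n/3)+28)))
  else if n % 3 = 2 then 1 / (2 * (1 + Real.sqrt (1 + gg (n/3) / 2)))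
  else gg (n/3 - 1)

lemma par_gam : Par gam := by
  refine ⟨?_, ?_, ?_, ?_⟩
  · simp [gam]
  · intro i
    have h1 : (3*i+1) % 3 = 1 := by omega
    have h2 : (3*i+1) / 3 = i := by omega
    unfold gam
    rw [if_neg (by omega), if_pos h1, h2]
  · intro i
    have h1 : (3*i+2) % 3 = 2 := by omega
    have h2 : (3*i+2) / 3 = i := by omega
    unfold gam
    rw [if_neg (by omega), if_neg (by omega), if_pos h1, h2]
  · intro i
    have h2 : (3*i+3) / 3 = i + 1 := by omega
    unfold gam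
    rw [if_neg (by omega), if_neg (by omega), if_neg (by omega), h2, Nat.add_sub_cancel]

lemma inv_bound (x : ℝ) (hx : 0 < x) (hx1 : x ≤ 1) :
    1/10 ≤ 1 / (2 * (2 + x)) ∧ 1 / (2 * (2 + x)) < 1/4 := by
  constructor
  · apply one_div_le_one_div_of_le (by positivity)
    linarith
  · apply one_div_lt_one_div_of_lt (by positivity)
    linarith

lemma gam_cases (n : ℕ) : ((1/100:ℝ)^(n+2) ≤ gam n) ∧ gam n < 1/4 := by
  have hp : (1/100:ℝ)^(n+2) ≤ 1/10 := by
    calc (1/100:ℝ)^(n+2) ≤ (1/100)^1 := pow_le_pow_of_le_one (by norm_num) (by norm_num) (by omega)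
      _ ≤ 1/10 := by norm_num
  unfold gam
  split_ifs with h0 h1 h2
  · have := inv_bound (rho 0 28) (rho_pos 28 0) (by linarith [rho_le 28 0])
    exact ⟨by linarith [this.1], this.2⟩
  · have := inv_bound (rho (n/3) (4*(n/3)+28)) (rho_pos _ _) (by linarith [rho_le (4*(n/3)+28) (n/3)])
    exact ⟨by linarith [this.1], this.2⟩
  · have hg := gg_pos (n/3)
    have hw := wb_bounds (n/3)
    have h3 : 1 < Real.sqrt (1 + gg (n/3) / 2) := by
      rw [Real.lt_sqrt (by norm_num)]
      linarith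
    have := inv_bound (Real.sqrt (1 + gg (n/3) / 2) - 1) (by linarith) (by linarith [hw.2])
    rw [show 2 + (Real.sqrt (1 + gg (n/3) / 2) - 1) = 1 + Real.sqrt (1 + gg (n/3) / 2) by ring] at this
    exact ⟨by linarith [this.1], this.2⟩
  · have hg1 := gg_le (n/3-1)
    refine ⟨?_, by linarith⟩
    unfold gg
    apply pow_le_pow_of_le_one (by norm_num) (by norm_num)
    omega

lemma gam_pos (n : ℕ) : 0 < gam n := lt_of_lt_of_le (by positivity) (gam_cases n).1

lemma gam_log (k : ℕ) : - Real.log (gam k) ≤ 10 + 5 * k := by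
  have h1 := Real.log_le_log (by positivity) (gam_cases k).1
  rw [Real.log_pow] at h1
  have h2 : Real.log (1/100) = - Real.log 100 := by rw [one_div, Real.log_inv]
  have h3 : Real.log 100 ≤ 5 := by
    rw [Real.log_le_iff_le_exp (by norm_num)]
    have h4 : (1 + 1:ℝ) ≤ Real.exp 1 := Real.add_one_le_exp 1
    have h5 : (27/10 : ℝ) ≤ Real.exp 1 := by
      have := Real.exp_one_gt_d9
      linarith
    have h6 : Real.exp 5 = (Real.exp 1)^5 := by
      rw [← Real.exp_nat_mul]; norm_num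
    rw [h6]
    calc (100:ℝ) ≤ (27/10)^5 := by norm_num
      _ ≤ (Real.exp 1)^5 := pow_le_pow_left₀ (by norm_num) h5 5
  rw [h2] at h1
  push_cast at h1
  have h7 : (0:ℝ) ≤ k := Nat.cast_nonneg k
  nlinarith

/-- coordinates on `[0,1]` -/
lemma frozen_of_isEq (γ : ℕ → ℝ) (h0 : 0 < γ 0) (ν : Measure ℝ) (hν : IsEq γ ν) :
    IsProbabilityMeasure (ν.map (fun y => (y + 1) / 2)) ∧
    (ν.map (fun y => (y + 1) / 2)) (Kf γ) = 0 ∧ Ef (ν.map (fun y => (y + 1) / 2)) < ⊤ ∧
    (∀ ρ : Measure ℝ, IsProbabilityMeasure ρ → ρ (Kf γ) = 0 → Ef (ν.map (fun y => (y + 1) / 2)) ≤ Ef ρ) ∧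
    (ν.map (fun y => (y + 1) / 2)).map (fun x => 2 * x - 1) = ν := by
  have hνp := hν.prob
  have hm : Measurable (fun x : ℝ => 2 * x - 1) := by fun_prop
  have hm' : Measurable (fun y : ℝ => (y + 1) / 2) := by fun_prop
  have hp : IsProbabilityMeasure (ν.map (fun y => (y + 1) / 2)) :=
    Measure.isProbabilityMeasure_map hm'.aemeasurable
  have hcomp : (ν.map (fun y => (y + 1) / 2)).map (fun x => 2 * x - 1) = ν := by
    rw [Measure.map_map hm hm']
    have : ((fun x : ℝ => 2 * x - 1) ∘ fun y => (y + 1) / 2) = id := by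
      ext y; simp; ring
    rw [this, Measure.map_id]
  have hpre : (fun x : ℝ => 2 * x - 1) ⁻¹' (Kc γ) = Kf γ := by
    ext x; exact (mem_Kf γ h0 x).symm
  have hE : Ef (ν.map (fun y => (y + 1) / 2)) = En ν ν := by
    rw [← En_aff, hcomp]
  refine ⟨hp, ?_, ?_, ?_, hcomp⟩
  · rw [← hpre, ← Measure.map_apply hm (measurableSet_Kc γ), hcomp]
    exact hν.supp
  · rw [hE]; exact lt_top_iff_ne_top.mpr hν.fin
  · intro ρ hρ hρs
    rw [hE, ← En_aff]
    apply hν.min
    · exact Measure.isProbabilityMeasure_map hm.aemeasurable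
    · rw [Measure.map_apply hm (measurableSet_Kc γ), hpre]
      exact hρs

/-- the core of the negation -/
theorem core :
    ∃ (γ : ℕ → ℝ) (μ : Measure ℝ) (p : ℕ → ℝ[X]), (∀ k, 0 < γ k ∧ γ k < 1/4) ∧
      IsProbabilityMeasure μ ∧ μ (Kf γ) = 0 ∧ Ef μ < ⊤ ∧
      (∀ ν : Measure ℝ, IsProbabilityMeasure ν → ν (Kf γ) = 0 → Ef μ ≤ Ef ν) ∧
      (∀ n, (p n).natDegree = n ∧ 0 < (p n).leadingCoeff) ∧
      (∀ m n, ∫ x, (p m).eval x * (p n).eval x ∂μ = if m = n then 1 else 0) ∧
      ∀ c : ℤ → ℝ, BohrAP c →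
        ¬ Tendsto (fun n : ℕ => (∫ x, x * (p n).eval x * (p (n + 1)).eval x ∂μ) - c n) atTop (𝓝 0) := by
  have hγ : ∀ k, 0 < gam k ∧ gam k < 1/4 := fun k => ⟨gam_pos k, (gam_cases k).2⟩
  obtain ⟨ν, hν⟩ := exists_isEq gam hγ 10 (by norm_num) gam_log
  obtain ⟨hp1, hp2, hp3, hp4, hcomp⟩ := frozen_of_isEq gam (hγ 0).1 ν hν
  have hνp := hν.prob
  have hsup := ae_le_one hν.supp
  have hOP := exists_OP hsup (no_atom ν hν.fin)
  set q := gsp ν with hqdef
  obtain ⟨α, h0, h1, h2, h3, h4⟩ := exists_alpha gam hγ ν hν q hOP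
  set μ := ν.map (fun y => (y + 1) / 2) with hμ
  have hm' : Measurable (fun y : ℝ => (y + 1) / 2) := by fun_prop
  let p : ℕ → ℝ[X] := fun n => (q n).comp (C 2 * X + C (-1))
  have hpe : ∀ n y, (p n).eval ((y + 1) / 2) = (q n).eval y := by
    intro n y
    simp only [p, eval_comp, eval_add, eval_mul, eval_C, eval_X]
    congr 1
    ring
  refine ⟨gam, μ, p, hγ, hp1, hp2, hp3, hp4, ?_, ?_, ?_⟩
  · intro n
    simp only [p]
    constructor
    · rw [natDegree_comp, natDegree_linear (by norm_num), hOP.deg, mul_one]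
    · rw [leadingCoeff_comp (by rw [natDegree_linear (by norm_num)]; norm_num),
        leadingCoeff_linear (by norm_num)]
      have := hOP.lc n
      positivity
  · intro m n
    have hc : Continuous (fun x => (p m).eval x * (p n).eval x) :=
      (p m).continuous.mul (p n).continuous
    rw [hμ, integral_map hm'.aemeasurable hc.aestronglyMeasurable]
    simp_rw [hpe]
    exact hOP.on m n
  · intro c hc hlim
    have hval : ∀ n : ℕ, (∫ x, x * (p n).eval x * (p (n + 1)).eval x ∂μ) = 1/2 * Real.sqrt (α 0 (n+1)) := by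
      intro n
      have hcc : Continuous (fun x => x * (p n).eval x * (p (n+1)).eval x) :=
        (continuous_id.mul (p n).continuous).mul (p (n+1)).continuous
      rw [hμ, integral_map hm'.aemeasurable hcc.aestronglyMeasurable]
      simp_rw [hpe]
      rw [h4, Real.sqrt_sq (rc_pos hsup hOP hν.symm n).le]
      have i1 : Integrable (fun x => (X * q n).eval x * (q (n+1)).eval x) ν := integrable_mul hsup _ _
      have i2 : Integrable (fun x => (q n).eval x * (q (n+1)).eval x) ν := integrable_mul hsup _ _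
      have e : ∀ y, (y + 1) / 2 * (q n).eval y * (q (n+1)).eval y
          = 1/2 * ((X * q n).eval y * (q (n+1)).eval y) + 1/2 * ((q n).eval y * (q (n+1)).eval y) := by
        intro y
        simp only [eval_mul, eval_X]
        ring
      simp_rw [e]
      rw [integral_add (i1.const_mul _) (i2.const_mul _), integral_const_mul, integral_const_mul,
        hOP.on, if_neg (by omega)]
      unfold rc ip
      ring
    simp_rw [hval] at hlim
    exact not_AP par_gam hγ ⟨h0, h1, h2, h3⟩ c hc hlim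

end Pool.Agent.CK
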